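import Pool.Agent.Q106.PK.Stm

/-! PK-BOX: an omino lies in its box (helper176) -/

set_option autoImplicit false

namespace Pool.Agent.Q106.PK

theorem box_int {P : Finset (ℤ × ℤ)} (f : ℤ × ℤ → ℤ) (hf : ∀ a b, CAdj a b → f b ≤ f a + 1)
    {p q : ℤ × ℤ} (hp : p ∈ P) (hp0 : f p = 0)
    (hr : Relation.ReflTransGen (fun a b => a ∈ P ∧ b ∈ P ∧ CAdj a b) p q) :
    ∀ j : ℤ, 0 ≤ j → j ≤ f q → ∃ x ∈ P, f x = j := by
  induction hr with
  | refl =>
    intro j h0 h1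
    exact ⟨p, hp, by omega⟩
  | @tail b c _ h2 ih =>
    intro j h0 h1
    by_cases hj : j ≤ f b
    · exact ih j h0 hj
    · have h3 := hf b c h2.2.2
      exact ⟨c, h2.2.1, by omega⟩

theorem box_lt {n : ℕ} {P : Finset (ℤ × ℤ)} (h : IsOmino n P) (f : ℤ × ℤ → ℤ)
    (hf : ∀ a b, CAdj a b → f b ≤ f a + 1) {p : ℤ × ℤ} (hp : p ∈ P) (hp0 : f p = 0)
    {q : ℤ × ℤ} (hq : q ∈ P) : f q < n := by
  classical
  have h1 := box_int f hf hp hp0 (h.2.2 p hp q hq)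
  have h2 : Finset.Icc 0 (f q) ⊆ P.image f := by
    intro j hj
    rw [Finset.mem_Icc] at hj
    obtain ⟨x, hx, hxj⟩ := h1 j hj.1 hj.2
    exact Finset.mem_image.2 ⟨x, hx, hxj⟩
  have h3 := Finset.card_le_card h2
  have h4 : (P.image f).card ≤ n := by
    rw [← h.1]
    exact Finset.card_image_le
  rw [Int.card_Icc] at h3
  omega

theorem t_BOX : S_BOX := by
  intro n P h hb q hq
  obtain ⟨-, ⟨p, hp, hp0⟩, ⟨p', hp', hp0'⟩⟩ := hb
  constructor
  · refine box_lt h (fun x => x.1) ?_ hp hp0 hq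
    intro a b hab
    unfold CAdj at hab
    show b.1 ≤ a.1 + 1
    omega
  · refine box_lt h (fun x => x.2) ?_ hp' hp0' hq
    intro a b hab
    unfold CAdj at hab
    show b.2 ≤ a.2 + 1
    omega

end Pool.Agent.Q106.PK
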