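import Pool.Agent.Q106.PK.Stm

/-! PK-CUT: cut criterion for connectedness (helper176) -/

set_option autoImplicit false

namespace Pool.Agent.Q106.PK

theorem cut_reach {P S : Finset (ℤ × ℤ)} (h : ∀ a ∈ S, ∀ b ∈ P, CAdj a b → b ∈ S) {a b : ℤ × ℤ}
    (ha : a ∈ S) (hr : Relation.ReflTransGen (fun a b => a ∈ P ∧ b ∈ P ∧ CAdj a b) a b) :
    b ∈ S := by
  induction hr with
  | refl => exact ha
  | tail _ h2 ih => exact h _ ih _ h2.2.1 h2.2.2

theorem t_CUT : S_CUT := by
  intro P hP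
  classical
  constructor
  · intro hc S hSP hS hne
    by_contra hcon
    obtain ⟨a, ha⟩ := hS
    apply hne
    refine Finset.Subset.antisymm hSP fun b hb => ?_
    refine cut_reach (P := P) ?_ ha (hc.2 a (hSP ha) b hb)
    intro x hx y hy hxy
    by_contra hyS
    exact hcon ⟨x, hx, y, hy, hyS, hxy⟩
  · intro h
    refine ⟨hP, fun p hp q hq => ?_⟩
    have hS : P.filter (fun x =>
        Relation.ReflTransGen (fun a b => a ∈ P ∧ b ∈ P ∧ CAdj a b) p x) = P := by
      by_contra hne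
      obtain ⟨a, ha, b, hb, hbS, hab⟩ := h _ (Finset.filter_subset _ _)
        ⟨p, Finset.mem_filter.2 ⟨hp, Relation.ReflTransGen.refl⟩⟩ hne
      apply hbS
      rw [Finset.mem_filter] at ha ⊢
      exact ⟨hb, ha.2.tail ⟨ha.1, hb, hab⟩⟩
    have hq' := hq
    rw [← hS, Finset.mem_filter] at hq'
    exact hq'.2

end Pool.Agent.Q106.PK
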