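import Pool.Agent.Q201.AR.Stm3

/-! AR-LVT: truth of the codes of level `m` is arithmetical (helper176) -/

set_option autoImplicit false

open FirstOrder FirstOrder.Language Pool.Agent.Helper227.EN

namespace Pool.Agent.Q176.AR_LVT

open Q201.AR

theorem nm_upd (l : List ℕ) (i x : ℕ) : nm (upd l i x) = Function.update (nm l) i x := by
  funext j
  unfold upd
  show ((List.range (max l.length (i + 1))).map fun j => if j = i then x else nm l j).getD j 0 = _
  rw [List.getD_eq_getElem?_getD, List.getElem?_map]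
  by_cases hj : j < max l.length (i + 1)
  · rw [List.getElem?_range hj]
    simp only [Option.map_some, Option.getD_some]
    by_cases hji : j = i
    · rw [if_pos hji, hji, Function.update_self]
    · rw [if_neg hji, Function.update_of_ne hji]
  · have h1 : (List.range (max l.length (i + 1)))[j]? = none := by
      rw [List.getElem?_eq_none_iff, List.length_range]
      omega
    rw [h1]
    have hji : j ≠ i := by omega
    have hjl : l.length ≤ j := by omega
    rw [Function.update_of_ne hji]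
    show (0 : ℕ) = l.getD j 0
    rw [List.getD_eq_default _ _ hjl]

/-- the successive updates -/
def ups (ps : List (ℕ × ℕ)) (l : List ℕ) : List ℕ := ps.foldl (fun l p => upd l p.1 p.2) l

/-- the block of quantifiers -/
def blk (ps : List (ℕ × ℕ)) (c : ℕ) : ℕ := ps.foldr (fun p a => cex p.1 a) (cneg c)

theorem satA (ps : List (ℕ × ℕ)) (c : ℕ) : ∀ l : List ℕ, ¬ @Sat ℕ stdStr c (nm (ups ps l)) →
    @Sat ℕ stdStr (blk ps c) (nm l) := by
  induction ps with
  | nil =>
    intro l h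
    exact (@Sat_cneg ℕ stdStr (nm l) c).2 h
  | cons p ps ih =>
    intro l h
    have h1 := ih (upd l p.1 p.2) h
    rw [nm_upd] at h1
    exact (@Sat_cex ℕ stdStr (nm l) p.1 (blk ps c)).2 ⟨p.2, h1⟩

theorem satB (is : List ℕ) (c : ℕ) : ∀ l : List ℕ,
    @Sat ℕ stdStr (is.foldr cex (cneg c)) (nm l) →
    ∃ ps : List (ℕ × ℕ), ps.map Prod.fst = is ∧ ¬ @Sat ℕ stdStr c (nm (ups ps l)) := by
  induction is with
  | nil =>
    intro l h
    exact ⟨[], rfl, (@Sat_cneg ℕ stdStr (nm l) c).1 h⟩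
  | cons i is ih =>
    intro l h
    obtain ⟨x, hx⟩ := (@Sat_cex ℕ stdStr (nm l) i (is.foldr cex (cneg c))).1 h
    rw [← nm_upd] at hx
    obtain ⟨ps, h1, h2⟩ := ih _ hx
    exact ⟨(i, x) :: ps, by rw [List.map_cons, h1], h2⟩

theorem blk_map (ps : List (ℕ × ℕ)) (c : ℕ) :
    (ps.map Prod.fst).foldr cex (cneg c) = blk ps c := by
  unfold blk
  rw [List.foldr_map]

theorem prim_cex : Primrec₂ fun i a : ℕ => cex i a := by
  unfold cex
  exact Primrec.nat_add.comp (Primrec.nat_mul.comp (Primrec.const 8) Primrec₂.natPair)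
    (Primrec.const 7)

theorem prim_cneg : Primrec fun a : ℕ => cneg a := by
  unfold cneg cnor
  exact Primrec.nat_add.comp (Primrec.nat_mul.comp (Primrec.const 8)
    (Primrec₂.natPair.comp Primrec.id Primrec.id)) (Primrec.const 6)

theorem prim_blk : Primrec fun q : List (ℕ × ℕ) × ℕ => blk q.1 q.2 := by
  unfold blk
  refine Primrec.list_foldr (f := fun q : List (ℕ × ℕ) × ℕ => q.1)
    (g := fun q : List (ℕ × ℕ) × ℕ => cneg q.2)
    (h := fun (_ : List (ℕ × ℕ) × ℕ) (r : (ℕ × ℕ) × ℕ) => cex r.1.1 r.2)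
    Primrec.fst (prim_cneg.comp Primrec.snd) ?_
  exact prim_cex.comp (Primrec.fst.comp (Primrec.fst.comp Primrec.snd))
    (Primrec.snd.comp Primrec.snd)

theorem prim_upd : Primrec fun q : List ℕ × ℕ × ℕ => upd q.1 q.2.1 q.2.2 := by
  unfold upd
  refine Primrec.list_map (f := fun q : List ℕ × ℕ × ℕ => List.range (max q.1.length (q.2.1 + 1)))
    (g := fun (q : List ℕ × ℕ × ℕ) (j : ℕ) => if j = q.2.1 then q.2.2 else nm q.1 j) ?_ ?_
  · exact Primrec.list_range.comp (Primrec.nat_max.comp (Primrec.list_length.comp Primrec.fst)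
      (Primrec.succ.comp (Primrec.fst.comp Primrec.snd)))
  · refine Primrec.ite ?_ ?_ ?_
    · exact Primrec.eq.comp Primrec.snd (Primrec.fst.comp (Primrec.snd.comp Primrec.fst))
    · exact Primrec.snd.comp (Primrec.snd.comp Primrec.fst)
    · exact (Primrec.list_getD 0).comp (Primrec.fst.comp Primrec.fst) Primrec.snd

theorem prim_ups : Primrec fun q : List (ℕ × ℕ) × List ℕ => ups q.1 q.2 := by
  unfold ups
  refine Primrec.list_foldl (f := fun q : List (ℕ × ℕ) × List ℕ => q.1)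
    (g := fun q : List (ℕ × ℕ) × List ℕ => q.2)
    (h := fun (_ : List (ℕ × ℕ) × List ℕ) (r : List ℕ × (ℕ × ℕ)) => upd r.1 r.2.1 r.2.2)
    Primrec.fst Primrec.snd ?_
  exact prim_upd.comp Primrec.snd

theorem t_LVT : S_LVT := by
  intro hA hC hB hL m
  induction m with
  | zero =>
    obtain ⟨P, hP, h⟩ := hB hA hC
    exact ⟨P, hP, fun c l hc => h c l hc⟩
  | succ m ih =>
    obtain ⟨P, hP, h⟩ := ih
    obtain ⟨a1, a2, a3, a4, a5⟩ := hA
    refine ⟨fun q => ∃ b : List (ℕ × ℕ) × ℕ, Lv m b.2 ∧ q.1 = blk b.1 b.2 ∧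
      ¬ P (b.2, ups b.1 q.2), ?_, ?_⟩
    · refine a5 (ℕ × List ℕ) (List (ℕ × ℕ) × ℕ)
        (fun r => Lv m r.2.2 ∧ r.1.1 = blk r.2.1 r.2.2 ∧ ¬ P (r.2.2, ups r.2.1 r.1.2)) ?_
      refine a4 _ _ _ ?_ (a4 _ _ _ ?_ ?_)
      · exact a1 _ _ (Lv m) (fun r : (ℕ × List ℕ) × (List (ℕ × ℕ) × ℕ) => r.2.2)
          (Primrec.snd.comp Primrec.snd).to_comp (hL m)
      · refine a2 _ _ ?_
        have h1 : PrimrecPred fun r : (ℕ × List ℕ) × (List (ℕ × ℕ) × ℕ) =>
            r.1.1 = blk r.2.1 r.2.2 :=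
          Primrec.eq.comp (Primrec.fst.comp Primrec.fst) (prim_blk.comp Primrec.snd)
        exact h1.computablePred
      · refine a3 _ _ ?_
        refine a1 _ _ P (fun r : (ℕ × List ℕ) × (List (ℕ × ℕ) × ℕ) =>
          (r.2.2, ups r.2.1 r.1.2)) ?_ hP
        exact (Primrec.pair (Primrec.snd.comp Primrec.snd)
          (prim_ups.comp (Primrec.pair (Primrec.fst.comp Primrec.snd)
            (Primrec.snd.comp Primrec.fst)))).to_comp
    · intro c l hc
      constructor
      · rintro ⟨⟨ps, c'⟩, h1, h2, h3⟩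
        have h2' : c = blk ps c' := h2
        rw [h2']
        exact satA ps c' l fun h4 => h3 ((h c' _ h1).2 h4)
      · intro hs
        obtain ⟨is, c', h1, h2⟩ := hc
        rw [h2] at hs
        obtain ⟨ps, h3, h4⟩ := satB is c' l hs
        refine ⟨(ps, c'), h1, ?_, fun h5 => h4 ((h c' _ h1).1 h5)⟩
        show c = blk ps c'
        rw [h2, ← h3, blk_map]

end Pool.Agent.Q176.AR_LVT
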