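import Mathlib

/-!
# The spaces `C_k(N)`, `N ⊆ ℝ`, do not all embed in one `C_k(X, Y)`
-/

namespace Q176.CkEmb

open Set Topology Filter TopologicalSpace Cardinal
open scoped BoundedContinuousFunction

universe u v

/-- countable index set -/
abbrev J : Type := Option (ℚ × ℕ)

/-- bump functions -/
noncomputable def bump : J → C(ℝ, ℝ)
  | none => 0
  | some (r, n) => ⟨fun s => max 0 (2 - n * |s - r|), by fun_prop⟩

/-- restricted bump functions -/
noncomputable def P (N : Set ℝ) (j : J) : C(N, ℝ) :=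
  (bump j).comp ⟨Subtype.val, continuous_subtype_val⟩

/-- the topology on `J` induced from `C_k(N)` -/
noncomputable def tN (N : Set ℝ) : TopologicalSpace J :=
  TopologicalSpace.induced (P N) inferInstance

theorem tN_sub {N N' : Set ℝ} (h : tN N = tN N') : N ⊆ N' := by
  intro t ht
  by_contra ht'
  have hO : IsOpen[tN N] {j | |bump j t| < 1} := by
    refine isOpen_induced_iff.2 ⟨{f : C(N, ℝ) | |f ⟨t, ht⟩| < 1}, ?_, ?_⟩
    · exact isOpen_lt (ContinuousEvalConst.continuous_eval_const (F := C(N, ℝ)) (⟨t, ht⟩ : N)).abs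
        continuous_const
    · rfl
  rw [h] at hO
  obtain ⟨W, hW, hWO⟩ := isOpen_induced_iff.1 hO
  have h0 : P N' none ∈ W := by
    have : none ∈ P N' ⁻¹' W := by
      rw [hWO]
      show |(0 : C(ℝ, ℝ)) t| < 1
      simp
    exact this
  have hb := (nhds_basis_uniformity'
    (ContinuousMap.hasBasis_compactConvergenceUniformity (α := N') (β := ℝ))).mem_iff.1
    (hW.mem_nhds h0)
  obtain ⟨⟨K, V⟩, ⟨hK, hV⟩, hKV⟩ := hb
  have hK' : IsCompact (Subtype.val '' K : Set ℝ) := hK.image continuous_subtype_val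
  have htK : t ∈ (Subtype.val '' K : Set ℝ)ᶜ := by
    rintro ⟨x, hx, hxt⟩
    exact ht' (hxt ▸ x.2)
  obtain ⟨δ, hδ, hball⟩ := Metric.isOpen_iff.1 hK'.isClosed.isOpen_compl t htK
  obtain ⟨n, hn⟩ := exists_nat_gt (3 / δ)
  have hn0 : (0 : ℝ) < n := lt_trans (by positivity) hn
  have hnδ : 3 < n * δ := by rwa [div_lt_iff₀ hδ] at hn
  obtain ⟨r, hr1, hr2⟩ := exists_rat_btwn (show t < t + 1 / n by linarith [div_pos one_pos hn0])
  have hr : |t - r| ≤ 1 / n := by
    rw [abs_le]
    constructor <;> linarith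
  have hj : P N' (some (r, n)) ∈ W := by
    apply hKV
    intro x hx
    have h1 : δ ≤ |(x : ℝ) - t| := by
      by_contra hlt
      push Not at hlt
      exact hball (by rwa [Metric.mem_ball, Real.dist_eq]) ⟨x, hx, rfl⟩
    have h2 : |(x : ℝ) - t| ≤ |(x : ℝ) - r| + |t - r| := by
      have : (x : ℝ) - t = (x - r) - (t - r) := by ring
      rw [this]
      exact abs_sub _ _
    have h3 : (2 : ℝ) ≤ n * |(x : ℝ) - r| := by
      have h4 : δ - 1 / n ≤ |(x : ℝ) - r| := by linarith
      have h5 : (n : ℝ) * (δ - 1 / n) ≤ n * |(x : ℝ) - r| := by gcongr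
      have h6 : (n : ℝ) * (δ - 1 / n) = n * δ - 1 := by
        field_simp
      linarith
    have h7 : P N' (some (r, n)) x = 0 := by
      show max 0 (2 - (n : ℝ) * |(x : ℝ) - r|) = 0
      exact max_eq_left (by linarith)
    have h8 : P N' none x = 0 := rfl
    show (P N' none x, P N' (some (r, n)) x) ∈ V
    rw [h7, h8]
    exact refl_mem_uniformity hV
  have hj' : (some (r, n) : J) ∈ P N' ⁻¹' W := hj
  rw [hWO] at hj'
  have h9 : |max 0 (2 - (n : ℝ) * |t - r|)| < 1 := hj'
  have h10 : (n : ℝ) * |t - r| ≤ 1 := by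
    calc (n : ℝ) * |t - r| ≤ n * (1 / n) := by gcongr
      _ = 1 := by field_simp
  have h11 : (1 : ℝ) ≤ max 0 (2 - (n : ℝ) * |t - r|) := le_max_of_le_right (by linarith)
  rw [abs_of_nonneg (le_max_left _ _)] at h9
  linarith

theorem tN_injective : Function.Injective tN := fun _ _ h =>
  Subset.antisymm (tN_sub h) (tN_sub h.symm)

theorem no_common (U : Type u) [TopologicalSpace U] (hU : #U ≤ 𝔠) (g : Set ℝ → J → U)
    (hg : ∀ N, tN N = TopologicalSpace.induced (g N) inferInstance) : False := by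
  have hinj : Function.Injective g := by
    intro N N' h
    apply tN_injective
    rw [hg N, hg N', h]
  have h1 : Cardinal.lift.{u} #(Set ℝ) ≤ Cardinal.lift.{0} #(J → U) :=
    Cardinal.lift_mk_le'.2 ⟨⟨g, hinj⟩⟩
  have h2 : #(J → U) ≤ 𝔠 := by
    rw [← Cardinal.lift_id #(J → U)]
    have h3 : #(J → U) = Cardinal.lift.{0} #U ^ Cardinal.lift.{u} #J := Cardinal.mk_arrow _ _
    rw [Cardinal.lift_id, h3]
    have h4 : #J ≤ ℵ₀ := Cardinal.mk_le_aleph0
    have h5 : Cardinal.lift.{u} #J ≤ ℵ₀ := by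
      rw [← Cardinal.lift_aleph0.{u, 0}]
      exact Cardinal.lift_le.2 h4
    rw [Cardinal.lift_uzero]
    calc #U ^ Cardinal.lift.{u} #J ≤ 𝔠 ^ Cardinal.lift.{u} #J := Cardinal.power_le_power_right hU
      _ ≤ 𝔠 ^ ℵ₀ := Cardinal.power_le_power_left Cardinal.continuum_ne_zero h5
      _ = 𝔠 := Cardinal.continuum_power_aleph0
  have h6 : Cardinal.lift.{u} #(Set ℝ) ≤ 𝔠 := by
    rw [Cardinal.lift_uzero] at h1
    exact h1.trans h2
  rw [Cardinal.mk_set, Cardinal.mk_real, ← Cardinal.lift_continuum.{u, 0}, Cardinal.lift_le] at h6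
  exact absurd h6 (not_le.2 (Cardinal.cantor _))

/-- cardinality of a space of continuous functions -/
theorem card_le (X : Type u) [TopologicalSpace X] [SeparableSpace X] :
    #C(X, ℕ →ᵇ ℝ) ≤ 𝔠 := by
  classical
  obtain ⟨D, hDc, hDd⟩ := exists_countable_dense X
  haveI : Countable D := hDc.to_subtype
  obtain ⟨c, hc⟩ := exists_injective_nat D
  let F : C(X, ℕ →ᵇ ℝ) → (ℕ × ℕ → ℝ) := fun f p =>
    if h : ∃ d : D, c d = p.1 then f h.choose p.2 else 0
  have hF : Function.Injective F := by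
    intro f g hfg
    have h1 : ∀ d : D, f d = g d := by
      intro d
      apply BoundedContinuousFunction.ext
      intro m
      have h2 := congrFun hfg (c d, m)
      have h3 : ∃ d' : D, c d' = (c d, m).1 := ⟨d, rfl⟩
      simp only [F, dif_pos h3] at h2
      have h4 : h3.choose = d := hc h3.choose_spec
      rw [h4] at h2
      exact h2
    ext1 x
    have h5 : (f : X → _) = g := by
      apply Continuous.ext_on hDd f.continuous g.continuous
      intro x hx
      exact h1 ⟨x, hx⟩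
    exact congrFun h5 x
  have h6 : Cardinal.lift.{0} #C(X, ℕ →ᵇ ℝ) ≤ Cardinal.lift.{u} #(ℕ × ℕ → ℝ) :=
    Cardinal.lift_mk_le'.2 ⟨⟨F, hF⟩⟩
  rw [Cardinal.lift_uzero] at h6
  refine h6.trans ?_
  rw [← Cardinal.lift_continuum.{u, 0}, Cardinal.lift_le]
  have h7 : #(ℕ × ℕ → ℝ) = #ℝ ^ #(ℕ × ℕ) := by simp
  rw [h7, Cardinal.mk_real]
  calc 𝔠 ^ #(ℕ × ℕ) ≤ 𝔠 ^ ℵ₀ := Cardinal.power_le_power_left Cardinal.continuum_ne_zero
        Cardinal.mk_le_aleph0
    _ = 𝔠 := Cardinal.continuum_power_aleph0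

/-- **Not all `C_k(N)` embed in a given `C_k(X, Y)`.** -/
theorem exists_not_embeds (X : Type u) (Y : Type v) [TopologicalSpace X] [SeparableSpace X]
    [TopologicalSpace Y] [MetrizableSpace Y] :
    ∃ N : Set ℝ, ∀ e : C(N, ℝ) → C(X, Y), ¬ IsEmbedding e := by
  by_contra hcon
  push Not at hcon
  choose e he using hcon
  letI := TopologicalSpace.metrizableSpaceMetric Y
  let s : Set ℝ → Set Y := fun N => ⋃ j : J, range (e N (P N j))
  have hs : ∀ N, IsSeparable (s N) := fun N =>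
    IsSeparable.iUnion fun j => isSeparable_range (e N (P N j)).continuous
  have hs2 : ∀ N, SecondCountableTopology (s N) := fun N => (hs N).secondCountableTopology
  have hem : ∀ N, ∃ f : s N → ℕ →ᵇ ℝ, IsEmbedding f := fun N => by
    haveI := hs2 N
    exact exists_embedding_l_infty (s N)
  choose f hf using hem
  let h : ∀ N : Set ℝ, J → C(X, s N) := fun N j =>
    ⟨fun x => ⟨e N (P N j) x, mem_iUnion.2 ⟨j, x, rfl⟩⟩,
      (e N (P N j)).continuous.subtype_mk _⟩
  let g : Set ℝ → J → C(X, ℕ →ᵇ ℝ) := fun N j =>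
    (⟨f N, (hf N).continuous⟩ : C(s N, ℕ →ᵇ ℝ)).comp (h N j)
  refine no_common C(X, ℕ →ᵇ ℝ) (card_le X) g fun N => ?_
  let i : C(s N, Y) := ⟨Subtype.val, continuous_subtype_val⟩
  have h1 : IsInducing (ContinuousMap.comp i : C(X, s N) → C(X, Y)) :=
    ContinuousMap.isInducing_postcomp i IsInducing.subtypeVal
  have h2 : IsInducing (ContinuousMap.comp (⟨f N, (hf N).continuous⟩ : C(s N, ℕ →ᵇ ℝ)) :
      C(X, s N) → C(X, ℕ →ᵇ ℝ)) :=
    ContinuousMap.isInducing_postcomp _ (hf N).isInducing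
  have h3 : g N = (ContinuousMap.comp (⟨f N, (hf N).continuous⟩ : C(s N, ℕ →ᵇ ℝ))) ∘ h N := rfl
  have h4 : e N ∘ P N = (ContinuousMap.comp i) ∘ h N := by
    funext j
    rfl
  rw [h3, ← induced_compose, ← h2.eq_induced]
  have h5 : TopologicalSpace.induced (h N) inferInstance =
      TopologicalSpace.induced (e N ∘ P N) inferInstance := by
    rw [h4, ← induced_compose, ← h1.eq_induced]
  rw [h5, ← induced_compose, ← (he N).isInducing.eq_induced]
  rfl

end Q176.CkEmb
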