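import Mathlib

/-!
Continuous utility functions: a continuous total preorder with a countable order dense subset (in
the sense of Birkhoff and Debreu) has a continuous utility representation.
-/

namespace Q176.Debreu

open Set Filter Topology

section lin

variable {Q : Type*} [LinearOrder Q] [TopologicalSpace Q] [OrderTopology Q]

/-- Rationals of the unit interval. -/
abbrev RI : Type := {s : ℚ // 0 ≤ s ∧ s ≤ 1}

lemma order_urysohn {p q : Q} (h : p < q) : ∃ f : Q → ℝ, Continuous f ∧ Monotone f ∧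
    (∀ x, 0 ≤ f x ∧ f x ≤ 1) ∧ (∀ x ≤ p, f x = 0) ∧ (∀ x, q ≤ x → f x = 1) := by
  classical
  by_cases hj : ∃ a b, p ≤ a ∧ a ⋖ b ∧ b ≤ q
  · obtain ⟨a, b, hpa, hab, hbq⟩ := hj
    have hclopen : IsClopen (Ici b) := by
      refine ⟨isClosed_Ici, ?_⟩
      rw [← hab.Ioi_eq]
      exact isOpen_Ioi
    refine ⟨indicator (Ici b) (fun _ => 1), ?_, ?_, ?_, ?_, ?_⟩
    · apply Continuous.indicator
      · intro a ha
        rw [hclopen.frontier_eq] at ha
        exact ha.elim
      · exact continuous_const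
    · intro x y hxy
      by_cases hx : b ≤ x
      · simp [indicator, hx, hx.trans hxy]
      · simp only [indicator, mem_Ici, hx, if_false]
        split_ifs <;> norm_num
    · intro x
      by_cases hx : b ≤ x
      · simp [indicator, hx]
      · simp [indicator, hx]
    · intro x hx
      have : ¬ b ≤ x := not_le.mpr (lt_of_le_of_lt (hx.trans hpa) hab.lt)
      simp [indicator, this]
    · intro x hx
      simp [indicator, hbq.trans hx]
  · push Not at hj
    haveI : DenselyOrdered (Icc p q) := by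
      constructor
      rintro ⟨a, ha⟩ ⟨b, hb⟩ hab
      have hab' : a < b := hab
      have h1 : ¬ a ⋖ b := fun h => hb.2.not_gt (hj a b ha.1 h)
      rw [not_covBy_iff hab'] at h1
      obtain ⟨c, hac, hcb⟩ := h1
      exact ⟨⟨c, ha.1.trans hac.le, hcb.le.trans hb.2⟩, hac, hcb⟩
    haveI : Nontrivial (Icc p q) :=
      ⟨⟨p, le_rfl, h.le⟩, ⟨q, h.le, le_rfl⟩, fun hc => h.ne (congrArg Subtype.val hc)⟩
    obtain ⟨e⟩ := Order.embedding_from_countable_to_dense RI (Icc p q)
    let T : Q → Set ℝ := fun x => insert 0 {r | ∃ s : RI, (e s : Q) ≤ x ∧ r = (s.1 : ℝ)}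
    have hT0 : ∀ x, (0 : ℝ) ∈ T x := fun x => mem_insert _ _
    have hT1 : ∀ x, ∀ r ∈ T x, r ≤ 1 := by
      rintro x r (rfl | ⟨s, _, rfl⟩)
      · norm_num
      · exact_mod_cast s.2.2
    have hTb : ∀ x, BddAbove (T x) := fun x => ⟨1, fun r hr => hT1 x r hr⟩
    have hTne : ∀ x, (T x).Nonempty := fun x => ⟨0, hT0 x⟩
    let f : Q → ℝ := fun x => sSup (T x)
    have hf1 : ∀ x, ∀ s : RI, (e s : Q) ≤ x → (s.1 : ℝ) ≤ f x := fun x s hs =>
      le_csSup (hTb x) (Or.inr ⟨s, hs, rfl⟩)
    have hf2 : ∀ x, ∀ s : RI, x < (e s : Q) → f x ≤ (s.1 : ℝ) := by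
      intro x s hs
      apply csSup_le (hTne x)
      rintro r (rfl | ⟨t, ht, rfl⟩)
      · exact_mod_cast s.2.1
      · have : (e t : Q) < e s := ht.trans_lt hs
        have h2 : e t < e s := this
        have h3 : t < s := e.lt_iff_lt.mp h2
        exact_mod_cast (show t.1 ≤ s.1 from h3.le)
    have hf3 : ∀ x, 0 ≤ f x := fun x => le_csSup (hTb x) (hT0 x)
    have hf4 : ∀ x, f x ≤ 1 := fun x => csSup_le (hTne x) (hT1 x)
    refine ⟨f, ?_, ?_, fun x => ⟨hf3 x, hf4 x⟩, ?_, ?_⟩
    · rw [continuous_iff_continuousAt]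
      intro x
      refine tendsto_order.2 ⟨fun a ha => ?_, fun a ha => ?_⟩
      · by_cases ha0 : a < 0
        · exact Eventually.of_forall fun y => ha0.trans_le (hf3 y)
        · push Not at ha0
          obtain ⟨r, hr, har⟩ := exists_lt_of_lt_csSup (hTne x) ha
          rcases hr with rfl | ⟨s, hs, rfl⟩
          · exact absurd har (not_lt.mpr ha0)
          · obtain ⟨t, hat, hts⟩ := exists_rat_btwn har
            have hts' : t < s.1 := by exact_mod_cast hts
            have ht0 : 0 ≤ t := by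
              have : (0 : ℝ) < t := ha0.trans_lt hat
              exact_mod_cast this.le
            let t' : RI := ⟨t, ht0, hts'.le.trans s.2.2⟩
            have h1 : e t' < e s := e.lt_iff_lt.mpr hts'
            have h2 : (e t' : Q) < x := lt_of_lt_of_le h1 hs
            filter_upwards [Ioi_mem_nhds h2] with y hy
            exact lt_of_lt_of_le hat (hf1 y t' (le_of_lt hy))
      · by_cases ha1 : 1 < a
        · exact Eventually.of_forall fun y => (hf4 y).trans_lt ha1
        · push Not at ha1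
          obtain ⟨t, hft, hta⟩ := exists_rat_btwn ha
          have ht0 : 0 ≤ t := by
            have : (0 : ℝ) < t := (hf3 x).trans_lt hft
            exact_mod_cast this.le
          have ht1 : t ≤ 1 := by
            have : (t : ℝ) < 1 := hta.trans_le ha1
            exact_mod_cast this.le
          let t' : RI := ⟨t, ht0, ht1⟩
          have h1 : x < (e t' : Q) := by
            by_contra hc
            exact absurd (hf1 x t' (not_lt.mp hc)) (not_le.mpr hft)
          filter_upwards [Iio_mem_nhds h1] with y hy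
          exact lt_of_le_of_lt (hf2 y t' hy) hta
    · intro x y hxy
      apply csSup_le_csSup (hTb y) (hTne x)
      rintro r (rfl | ⟨s, hs, rfl⟩)
      · exact hT0 y
      · exact Or.inr ⟨s, hs.trans hxy, rfl⟩
    · intro x hx
      apply le_antisymm _ (hf3 x)
      apply csSup_le (hTne x)
      rintro r (rfl | ⟨s, hs, rfl⟩)
      · exact le_rfl
      · by_contra hc
        push Not at hc
        have hs0 : (0 : ℚ) < s.1 := by exact_mod_cast hc
        let z : RI := ⟨0, le_rfl, zero_le_one⟩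
        have h1 : e z < e s := e.lt_iff_lt.mpr hs0
        have h2 : (e z : Q) < p := lt_of_lt_of_le h1 (hs.trans hx)
        exact absurd (e z).2.1 (not_le.mpr h2)
    · intro x hx
      apply le_antisymm (hf4 x)
      have := hf1 x ⟨1, zero_le_one, le_rfl⟩ ((e _).2.2.trans hx)
      simpa using this

lemma exists_dense_pairs (D : Set Q) (hD : D.Countable)
    (h : ∀ a b : Q, a < b → ∃ d ∈ D, a ≤ d ∧ d ≤ b) :
    ∃ E : Set Q, E.Countable ∧ ∀ a b : Q, a < b → ∃ p ∈ E, ∃ q ∈ E, a ≤ p ∧ p < q ∧ q ≤ b := by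
  refine ⟨D ∪ (⋃ d ∈ D, {x | x ⋖ d}) ∪ (⋃ d ∈ D, {x | d ⋖ x}), ?_, ?_⟩
  · refine (hD.union ?_).union ?_
    · apply hD.biUnion
      intro d _
      apply Set.Subsingleton.countable
      intro x hx y hy
      exact hx.unique_left hy
    · apply hD.biUnion
      intro d _
      apply Set.Subsingleton.countable
      intro x hx y hy
      exact hx.unique_right hy
  · intro a b hab
    have hl : ∀ {x d : Q}, d ∈ D → x ⋖ d →
        x ∈ D ∪ (⋃ d ∈ D, {x | x ⋖ d}) ∪ (⋃ d ∈ D, {x | d ⋖ x}) := fun {x d} hd hx =>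
      Or.inl (Or.inr (mem_biUnion hd hx))
    have hr : ∀ {x d : Q}, d ∈ D → d ⋖ x →
        x ∈ D ∪ (⋃ d ∈ D, {x | x ⋖ d}) ∪ (⋃ d ∈ D, {x | d ⋖ x}) := fun {x d} hd hx =>
      Or.inr (mem_biUnion hd hx)
    have h0 : ∀ {d : Q}, d ∈ D →
        d ∈ D ∪ (⋃ d ∈ D, {x | x ⋖ d}) ∪ (⋃ d ∈ D, {x | d ⋖ x}) := fun hd =>
      Or.inl (Or.inl hd)
    by_cases hc : a ⋖ b
    · obtain ⟨d, hd, had, hdb⟩ := h a b hab
      rcases hc.eq_or_eq had hdb with rfl | rfl
      · exact ⟨d, h0 hd, b, hr hd hc, le_rfl, hab, le_rfl⟩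
      · exact ⟨a, hl hd hc, d, h0 hd, le_rfl, hab, le_rfl⟩
    · rw [not_covBy_iff hab] at hc
      obtain ⟨z, haz, hzb⟩ := hc
      obtain ⟨d1, hd1, had1, hd1z⟩ := h a z haz
      obtain ⟨d2, hd2, hzd2, hd2b⟩ := h z b hzb
      rcases (hd1z.trans hzd2).lt_or_eq with hlt | heq
      · exact ⟨d1, h0 hd1, d2, h0 hd2, had1, hlt, hd2b⟩
      · have hz : d1 = z := le_antisymm hd1z (heq ▸ hzd2)
        subst hz
        by_cases hc2 : a ⋖ d1
        · exact ⟨a, hl hd1 hc2, d1, h0 hd1, le_rfl, haz, hzb.le⟩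
        · rw [not_covBy_iff haz] at hc2
          obtain ⟨w, haw, hwz⟩ := hc2
          obtain ⟨d3, hd3, had3, hd3w⟩ := h a w haw
          exact ⟨d3, h0 hd3, d1, h0 hd1, had3, hd3w.trans_lt hwz, hzb.le⟩

theorem debreu_lin (D : Set Q) (hD : D.Countable)
    (h : ∀ a b : Q, a < b → ∃ d ∈ D, a ≤ d ∧ d ≤ b) :
    ∃ u : Q → ℝ, StrictMono u ∧ Continuous u := by
  classical
  obtain ⟨E, hE, hE2⟩ := exists_dense_pairs D hD h
  let P : Set (Q × Q) := {pq | pq.1 ∈ E ∧ pq.2 ∈ E ∧ pq.1 < pq.2}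
  have hP : P.Countable := by
    apply (hE.prod hE).mono
    rintro ⟨p, q⟩ ⟨h1, h2, _⟩
    exact ⟨h1, h2⟩
  haveI : Countable P := hP.to_subtype
  haveI : Encodable P := Encodable.ofCountable P
  choose f hf1 hf2 hf3 hf4 hf5 using fun i : P => order_urysohn i.2.2.2
  have hsum : ∀ x, Summable fun i : P => (1 / 2 : ℝ) ^ (Encodable.encode i) * f i x := by
    intro x
    apply Summable.of_nonneg_of_le (fun i => mul_nonneg (by positivity) (hf3 i x).1) _
      (summable_geometric_two_encode (ι := P))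
    intro i
    exact mul_le_of_le_one_right (by positivity) (hf3 i x).2
  refine ⟨fun x => ∑' i : P, (1 / 2 : ℝ) ^ (Encodable.encode i) * f i x, ?_, ?_⟩
  · intro a b hab
    obtain ⟨p, hp, q, hq, hap, hpq, hqb⟩ := hE2 a b hab
    let i : P := ⟨(p, q), hp, hq, hpq⟩
    apply Summable.tsum_lt_tsum (i := i) _ _ (hsum a) (hsum b)
    · intro j
      exact mul_le_mul_of_nonneg_left (hf2 j hab.le) (by positivity)
    · show (1 / 2 : ℝ) ^ (Encodable.encode i) * f i a < (1 / 2 : ℝ) ^ (Encodable.encode i) * f i b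
      rw [hf4 i a hap, hf5 i b hqb]
      simp only [mul_zero, mul_one]
      positivity
  · apply continuous_tsum (u := fun i : P => (1 / 2 : ℝ) ^ (Encodable.encode i))
    · intro i
      exact continuous_const.mul (hf1 i)
    · exact summable_geometric_two_encode (ι := P)
    · intro i x
      rw [Real.norm_of_nonneg (mul_nonneg (by positivity) (hf3 i x).1)]
      exact mul_le_of_le_one_right (by positivity) (hf3 i x).2

end lin

/-- Total preorders. -/
def TotalPreorder {Y : Type*} (R : Y → Y → Prop) : Prop :=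
  (∀ x, R x x) ∧ (∀ x y z, R x y → R y z → R x z) ∧ (∀ x y, R x y ∨ R y x)

theorem debreu {Y : Type*} [TopologicalSpace Y] (R : Y → Y → Prop) (hR : TotalPreorder R)
    (hU : ∀ x, IsOpen {y | R x y ∧ ¬ R y x}) (hL : ∀ x, IsOpen {y | R y x ∧ ¬ R x y})
    (D : Set Y) (hD : D.Countable)
    (h : ∀ x y, R x y → ¬ R y x → ∃ d ∈ D, R x d ∧ R d y) :
    ∃ u : Y → ℝ, Continuous u ∧ ∀ x y, R x y ↔ u x ≤ u y := by
  classical
  letI : Preorder Y :=
    { le := R
      le_refl := hR.1
      le_trans := hR.2.1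
      lt := fun x y => R x y ∧ ¬ R y x
      lt_iff_le_not_ge := fun _ _ => Iff.rfl }
  haveI : @Std.Total Y (· ≤ ·) := ⟨hR.2.2⟩
  let Q := Antisymmetrization Y (· ≤ ·)
  letI : LinearOrder Q := inferInstance
  letI : TopologicalSpace Q := Preorder.topology Q
  haveI : OrderTopology Q := ⟨rfl⟩
  let π : Y → Q := toAntisymmetrization (· ≤ ·)
  have hπle : ∀ x y, π x ≤ π y ↔ R x y := fun x y => Iff.rfl
  have hπlt : ∀ x y, π x < π y ↔ (R x y ∧ ¬ R y x) := fun x y =>
    toAntisymmetrization_lt_toAntisymmetrization_iff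
  have hπsurj : Function.Surjective π := Quotient.mk_surjective
  have hπc : Continuous π := by
    rw [continuous_generateFrom_iff]
    rintro s ⟨a, rfl | rfl⟩
    · obtain ⟨x, rfl⟩ := hπsurj a
      have : π ⁻¹' Ioi (π x) = {y | R x y ∧ ¬ R y x} := by
        ext y; exact hπlt x y
      rw [this]; exact hU x
    · obtain ⟨x, rfl⟩ := hπsurj a
      have : π ⁻¹' Iio (π x) = {y | R y x ∧ ¬ R x y} := by
        ext y; exact hπlt y x
      rw [this]; exact hL x
  obtain ⟨u, hu1, hu2⟩ := debreu_lin (π '' D) (hD.image π) (by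
    intro a b hab
    obtain ⟨x, rfl⟩ := hπsurj a
    obtain ⟨y, rfl⟩ := hπsurj b
    obtain ⟨h1, h2⟩ := (hπlt x y).mp hab
    obtain ⟨d, hd, hd1, hd2⟩ := h x y h1 h2
    exact ⟨π d, ⟨d, hd, rfl⟩, hd1, hd2⟩)
  refine ⟨u ∘ π, hu2.comp hπc, fun x y => ?_⟩
  rw [← hπle, Function.comp_apply, Function.comp_apply, hu1.le_iff_le]

end Q176.Debreu
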