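import Mathlib

/-!
Countable powers which are not `k_R`-spaces.
-/

namespace Q176.KR

open Set Filter Topology

/-- `k_R`-spaces: real functions that are continuous on each compact set are continuous. -/
def IsKR (X : Type*) [TopologicalSpace X] : Prop :=
  ∀ f : X → ℝ, (∀ K : Set X, IsCompact K → ContinuousOn f K) → Continuous f

theorem not_isKR {Y : Type*} [TopologicalSpace Y] (p : Y) (a : ℕ → ℕ → Y) (e : ℕ → Y)
    (ha : ∀ n m, IsClopen {a n m}) (he : ∀ m, IsClopen {e m})
    (hK : ∀ K : Set Y, IsCompact K → ∃ N, ∀ n ≥ N, ∀ m, a n m ∉ K)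
    (hK' : ∀ K : Set Y, IsCompact K → ∃ M, ∀ m ≥ M, e m ∉ K)
    (hp : ∀ W : Set Y, IsOpen W → p ∈ W → ∃ N, ∀ n ≥ N, ∃ m, a n m ∈ W)
    (hpa : ∀ n m, p ≠ a n m) : ¬ IsKR (ℕ → Y) := by
  classical
  intro h
  let V : ℕ → ℕ → Set (ℕ → Y) := fun n m => {x | x 0 = a (n + 1) m ∧ x (n + 1) = e m}
  have hV : ∀ n m, IsClopen (V n m) := by
    intro n m
    have h1 : IsClopen ((fun x : ℕ → Y => x 0) ⁻¹' {a (n + 1) m}) :=
      (ha (n + 1) m).preimage (continuous_apply 0)
    have h2 : IsClopen ((fun x : ℕ → Y => x (n + 1)) ⁻¹' {e m}) :=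
      (he m).preimage (continuous_apply (n + 1))
    exact h1.inter h2
  let U : Set (ℕ → Y) := {x | ∃ n m, x ∈ V n m}
  have hcont : Continuous (indicator U (fun _ => (1 : ℝ))) := by
    apply h
    intro K hKc
    obtain ⟨N, hN⟩ := hK _ (hKc.image (continuous_apply 0))
    choose M hM using fun n => hK' _ (hKc.image (continuous_apply (n + 1)))
    let C : Set (ℕ → Y) := ⋃ n ∈ Finset.range N, ⋃ m ∈ Finset.range (M n), V n m
    have hC : IsClopen C := by
      apply (Finset.range N).finite_toSet.isClopen_biUnion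
      intro n _
      apply (Finset.range (M n)).finite_toSet.isClopen_biUnion
      intro m _
      exact hV n m
    have hcC : Continuous (indicator C (fun _ => (1 : ℝ))) := by
      apply Continuous.indicator
      · intro x hx
        rw [hC.frontier_eq] at hx
        exact hx.elim
      · exact continuous_const
    apply hcC.continuousOn.congr
    intro x hx
    have : x ∈ U ↔ x ∈ C := by
      simp only [U, C, mem_iUnion, Finset.mem_range]
      constructor
      · rintro ⟨n, m, hnm⟩
        refine ⟨n, ?_, m, ?_, hnm⟩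
        · by_contra hc
          apply hN (n + 1) (by omega) m
          exact ⟨x, hx, hnm.1⟩
        · by_contra hc
          apply hM n m (by omega)
          exact ⟨x, hx, hnm.2⟩
      · rintro ⟨n, _, m, _, hnm⟩
        exact ⟨n, m, hnm⟩
    by_cases hxU : x ∈ U
    · rw [indicator_of_mem hxU, indicator_of_mem (this.mp hxU)]
    · rw [indicator_of_notMem hxU, indicator_of_notMem (fun hc => hxU (this.mpr hc))]
  have hop : IsOpen {x | indicator U (fun _ => (1 : ℝ)) x < 1} :=
    isOpen_lt hcont continuous_const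
  have hmem : (fun _ => p) ∈ {x : ℕ → Y | indicator U (fun _ => (1 : ℝ)) x < 1} := by
    have : (fun _ => p) ∉ U := by
      rintro ⟨n, m, h1, _⟩
      exact hpa _ _ h1
    show indicator U (fun _ => (1 : ℝ)) (fun _ => p) < 1
    rw [indicator_of_notMem this]
    exact one_pos
  obtain ⟨I, u, hu, hsub⟩ := isOpen_pi_iff.mp hop _ hmem
  obtain ⟨N, hN⟩ := hp (if 0 ∈ I then u 0 else univ) (by
    by_cases h0 : 0 ∈ I
    · simp only [h0, if_true]; exact (hu 0 h0).1
    · simp only [h0, if_false]; exact isOpen_univ) (by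
    by_cases h0 : 0 ∈ I
    · simp only [h0, if_true]; exact (hu 0 h0).2
    · simp only [h0, if_false]; exact mem_univ _)
  let n := max N (I.sup id)
  obtain ⟨m, hm⟩ := hN (n + 1) (by have : N ≤ n := le_max_left _ _; omega)
  have hnI : n + 1 ∉ I := by
    intro hc
    have h1 : id (n + 1) ≤ I.sup id := Finset.le_sup hc
    have h2 : I.sup id ≤ n := le_max_right _ _
    simp only [id] at h1
    omega
  let x : ℕ → Y := fun i => if i = 0 then a (n + 1) m else if i = n + 1 then e m else p
  have hx : x ∈ (I : Set ℕ).pi u := by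
    intro i hi
    by_cases h0 : i = 0
    · subst h0
      have hi' : 0 ∈ I := hi
      simp only [hi', if_true] at hm
      simpa [x] using hm
    · have h1 : i ≠ n + 1 := by rintro rfl; exact hnI hi
      simp only [x, h0, h1, if_false]
      exact (hu i hi).2
  have h1 := hsub hx
  have h2 : x ∈ U := ⟨n, m, by simp [x], by simp [x]⟩
  have h3 : indicator U (fun _ => (1 : ℝ)) x < 1 := h1
  rw [indicator_of_mem h2] at h3
  exact lt_irrefl _ h3

end Q176.KR
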