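import Pool.Agent.Q88.MF.Stm

/-!
# Monotonicity of the ratio (MF, job KRA)
-/

set_option autoImplicit false

namespace Q176.MF

open Pool.Agent.Q88.MF

theorem kra : S_kra := by
  intro a r r' ha hr hrr
  have hr' : 0 < r' := lt_of_lt_of_le hr hrr
  have ha0 : 0 ≤ 1 / a := by positivity
  simp only [kap, if_neg (not_le.2 hr), if_neg (not_le.2 hr')]
  by_cases h1 : r' < 1
  · have h2 : r < 1 := lt_of_le_of_lt hrr h1
    have hlog : Real.log r ≤ Real.log r' := Real.log_le_log hr hrr
    have hlog' : Real.log r' < 0 := Real.log_neg hr' h1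
    have h3 : (1 - Real.log r') ^ (1 / a) ≤ (1 - Real.log r) ^ (1 / a) :=
      Real.rpow_le_rpow (by linarith) (by linarith) ha0
    have h4 : 0 ≤ r * r' := by positivity
    rw [if_pos h1, if_pos h2]
    nlinarith [mul_le_mul_of_nonneg_left h3 h4]
  · rw [if_neg h1, one_mul]
    have h1' : 1 ≤ r' := not_lt.1 h1
    by_cases h2 : r < 1
    · rw [if_pos h2]
      have h3 : (1 : ℝ) ≤ (1 - Real.log r) ^ (1 / a) :=
        Real.one_le_rpow (by linarith [Real.log_neg hr h2]) ha0
      have h4 : 1 ≤ (1 - Real.log r) ^ (1 / a) * r' := one_le_mul_of_one_le_of_one_le h3 h1'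
      calc r = r * 1 := (mul_one r).symm
        _ ≤ r * ((1 - Real.log r) ^ (1 / a) * r') := mul_le_mul_of_nonneg_left h4 hr.le
        _ = r * (1 - Real.log r) ^ (1 / a) * r' := by ring
    · rw [if_neg h2, one_mul]
      exact hrr

end Q176.MF
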