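import Pool.Agent.Q49.MR.Stm

set_option autoImplicit false

namespace Q176.MR_CC

open Q49.MR

/-- Job CC. -/
theorem cc (_h1 : S_B8) : S_CC := by
  intro K L _ _ _ _ _ σ hC κ hκ
  constructor
  · intro k hk hk0 hP
    have hk4 : σ (σ (σ (σ k))) = -k := hk
    have hk2 : σ (σ k) ≠ 0 := by
      intro h
      apply hk0
      apply σ.injective
      apply σ.injective
      rw [h, map_zero, map_zero]
    refine ⟨-(k - κ * σ k + σ (σ (σ κ)) * σ (σ (σ k))) / σ (σ k), ?_, ?_⟩
    · show σ (σ (-(k - κ * σ k + σ (σ (σ κ)) * σ (σ (σ k))) / σ (σ k))) =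
        -(-(k - κ * σ k + σ (σ (σ κ)) * σ (σ (σ k))) / σ (σ k))
      simp only [map_div₀, map_neg, map_sub, map_add, map_mul, hκ, hk4]
      unfold Psi at hP
      field_simp
      linear_combination -hP
    · unfold TX
      field_simp
      ring
  · intro X hX c c'
    have hX2 : σ (σ X) = -X := hX
    have hc : σ (σ (σ (σ (c : L)))) = -(c : L) := c.2
    have hc' : σ (σ (σ (σ (c' : L)))) = -(c' : L) := c'.2
    have hT : ∀ x : L, Algebra.trace K L (σ x) = Algebra.trace K L x := fun x =>
      Algebra.trace_eq_of_algEquiv σ x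
    show 2 * Algebra.trace K L (TX σ κ X c * c') = 2 * Algebra.trace K L (TX σ κ X c' * c)
    have key : ∀ a b : L, σ (σ (σ (σ a))) = -a → σ (σ (σ (σ b))) = -b →
        Algebra.trace K L (TX σ κ X a * b) = Algebra.trace K L (a * b) - Algebra.trace K L (κ * (σ a * b)) -
          Algebra.trace K L (κ * (a * σ b)) + Algebra.trace K L (X * (σ (σ a) * b)) := by
      intro a b ha hb
      have h1 : Algebra.trace K L (σ (σ (σ κ)) * σ (σ (σ a)) * b) = -Algebra.trace K L (κ * (a * σ b)) := by
        rw [← hT, ← map_neg]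
        congr 1
        rw [map_mul σ, map_mul σ, hκ, ha]
        ring
      have h2 : TX σ κ X a * b = a * b - κ * (σ a * b) + σ (σ (σ κ)) * σ (σ (σ a)) * b +
          X * (σ (σ a) * b) := by
        unfold TX
        ring
      rw [h2, map_add, map_add, map_sub, h1]
      ring
    have h3 : Algebra.trace K L (X * (σ (σ (c : L)) * c')) = Algebra.trace K L (X * (σ (σ (c' : L)) * c)) := by
      rw [← hT, ← hT (σ _)]
      congr 1
      rw [map_mul σ, map_mul σ, map_mul σ, map_mul σ, hX2, hc]
      ring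
    rw [key _ _ hc hc', key _ _ hc' hc, h3]
    have h4 : (c' : L) * c = c * c' := mul_comm _ _
    have h5 : κ * (σ (c' : L) * c) = κ * ((c : L) * σ c') := by ring
    have h6 : κ * ((c' : L) * σ c) = κ * (σ (c : L) * c') := by ring
    rw [h4, h5, h6]
    ring

end Q176.MR_CC
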