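import Mathlib

/-!
# Metric analogs of based `T₀` spaces

The space `M` of upper semicontinuous functions `h : X → [0,1]` for which there is a point `x` with
`h x = 0` and `{h < r}`, `r > 0`, a neighbourhood base at `x`, with the sup metric.
-/

namespace Q176.MetricAnalog

open Set Topology Filter

universe u v

/-- `X` is quasimetrizable. -/
def Quasimetrizable (X : Type u) [TopologicalSpace X] : Prop :=
  ∃ d : X → X → ℝ, (∀ x y, 0 ≤ d x y) ∧ (∀ x, d x x = 0) ∧ (∀ x y z, d x z ≤ d x y + d y z) ∧
    ∀ U : Set X, IsOpen U ↔ ∀ x ∈ U, ∃ r > 0, {y | d x y < r} ⊆ U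

/-- `(M, m₀, q)` is a metric analog of the based space `(X, x₀)` (tested on the based metric
spaces of the universe `v`). -/
def IsMetricAnalog (X : Type u) [TopologicalSpace X] (x₀ : X) (M : Type u) [MetricSpace M] (m₀ : M)
    (q : M → X) : Prop :=
  IsOpenQuotientMap q ∧ q m₀ = x₀ ∧
  ∀ (A : Type v) [MetricSpace A] (a₀ : A),
    (∀ f : A → X, Continuous f → f a₀ = x₀ → ∃ g : A → M, Continuous g ∧ g a₀ = m₀ ∧ f = q ∘ g) ∧
    (∀ f g : A → M, Continuous f → Continuous g → f a₀ = m₀ → g a₀ = m₀ → q ∘ f = q ∘ g →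
      ∃ F : A × unitInterval → M, Continuous F ∧ (∀ a, F (a, 0) = f a) ∧ (∀ a, F (a, 1) = g a) ∧
        (∀ s, F (a₀, s) = m₀) ∧ ∀ a s t, q (F (a, s)) = q (F (a, t)))

/-- the based space `(X, x₀)` has a metric analog -/
def HasMetricAnalog (X : Type u) [TopologicalSpace X] (x₀ : X) : Prop :=
  ∃ (M : Type u) (_ : MetricSpace M) (m₀ : M) (q : M → X), IsMetricAnalog.{u, v} X x₀ M m₀ q

/-- a copy of `X`, with the discrete topology -/
structure Disc (X : Type u) : Type u where
  /-- the underlying point -/
  val : X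

instance (X : Type u) : TopologicalSpace (Disc X) := ⊥
instance (X : Type u) : DiscreteTopology (Disc X) := ⟨rfl⟩

/-- bounded real functions on `X` with the sup metric -/
abbrev Fn (X : Type u) := BoundedContinuousFunction (Disc X) ℝ

/-- the value of `h` at `z` -/
def ev {X : Type u} (h : Fn X) (z : X) : ℝ := h ⟨z⟩

theorem ev_ext {X : Type u} {h k : Fn X} (H : ∀ z, ev h z = ev k z) : h = k := by
  ext z
  exact H z.val

theorem dist_le_iff {X : Type u} {h k : Fn X} {C : ℝ} (hC : 0 ≤ C) :
    dist h k ≤ C ↔ ∀ z, |ev h z - ev k z| ≤ C := by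
  rw [BoundedContinuousFunction.dist_le hC]
  constructor
  · intro H z
    exact H ⟨z⟩
  · intro H z
    exact H z.val

theorem abs_ev_sub_le {X : Type u} (h k : Fn X) (z : X) : |ev h z - ev k z| ≤ dist h k :=
  (dist_le_iff dist_nonneg).1 le_rfl z

/-- evaluation as a continuous linear map -/
noncomputable def evL {X : Type u} (z : X) : Fn X →L[ℝ] ℝ :=
  BoundedContinuousFunction.evalCLM ℝ (⟨z⟩ : Disc X)

theorem evL_apply {X : Type u} (z : X) (h : Fn X) : evL z h = ev h z := rfl

theorem ev_sub {X : Type u} (h k : Fn X) (z : X) : ev (h - k) z = ev h z - ev k z := rfl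
theorem ev_add {X : Type u} (h k : Fn X) (z : X) : ev (h + k) z = ev h z + ev k z := rfl
theorem ev_smul {X : Type u} (s : ℝ) (h : Fn X) (z : X) : ev (s • h) z = s * ev h z := rfl
theorem ev_one {X : Type u} (z : X) : ev (1 : Fn X) z = 1 := rfl
theorem ev_sup {X : Type u} (h k : Fn X) (z : X) : ev (h ⊔ k) z = max (ev h z) (ev k z) := rfl
theorem ev_inf {X : Type u} (h k : Fn X) (z : X) : ev (h ⊓ k) z = min (ev h z) (ev k z) := rfl

/-- `h` lies over the point `x`. -/
structure Over {X : Type u} [TopologicalSpace X] (h : Fn X) (x : X) : Prop where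
  nonneg : ∀ z, 0 ≤ ev h z
  le_one : ∀ z, ev h z ≤ 1
  usc : ∀ r, IsOpen {z : X | ev h z < r}
  self : ev h x = 0
  base : ∀ U : Set X, IsOpen U → x ∈ U → ∃ r > 0, {z : X | ev h z < r} ⊆ U

/-- build a bounded function with values in `[0,1]` -/
noncomputable def mk {X : Type u} (f : X → ℝ) (h0 : ∀ x, 0 ≤ f x) (h1 : ∀ x, f x ≤ 1) : Fn X :=
  BoundedContinuousFunction.mkOfDiscrete (fun z : Disc X => f z.val) 1 (fun x y => by
    rw [Real.dist_eq, abs_le]
    constructor <;> linarith [h0 x.val, h0 y.val, h1 x.val, h1 y.val])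

@[simp] theorem ev_mk {X : Type u} (f : X → ℝ) (h0 : ∀ x, 0 ≤ f x) (h1 : ∀ x, f x ≤ 1) (x : X) :
    ev (mk f h0 h1) x = f x := rfl

variable {X : Type u} [TopologicalSpace X]

theorem Over.unique [T0Space X] {h : Fn X} {x y : X} (hx : Over h x) (hy : Over h y) : x = y := by
  have key : ∀ {x y : X}, Over h x → Over h y → ∀ U : Set X, IsOpen U → x ∈ U → y ∈ U := by
    intro x y hx hy U hU hxU
    obtain ⟨r, hr, hsub⟩ := hx.base U hU hxU
    apply hsub
    show ev h y < r
    rw [hy.self]
    exact hr
  apply Inseparable.eq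
  rw [inseparable_iff_forall_isOpen]
  exact fun U hU => ⟨key hx hy U hU, key hy hx U hU⟩

/-- convex combinations of functions over the same point -/
theorem Over.convex {h k : Fn X} {x : X} (hh : Over h x) (hk : Over k x) {s : ℝ} (hs0 : 0 ≤ s)
    (hs1 : s ≤ 1) : Over ((1 - s) • h + s • k) x := by
  have hv : ∀ z : X, ev ((1 - s) • h + s • k) z = (1 - s) * ev h z + s * ev k z := fun z => rfl
  have hs1' : 0 ≤ 1 - s := by linarith
  refine ⟨fun z => ?_, fun z => ?_, fun r => ?_, ?_, fun U hU hxU => ?_⟩
  · rw [hv]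
    exact add_nonneg (mul_nonneg hs1' (hh.nonneg z)) (mul_nonneg hs0 (hk.nonneg z))
  · rw [hv]
    nlinarith [hh.le_one z, hk.le_one z]
  · rw [isOpen_iff_forall_mem_open]
    intro z hz
    have hz' : (1 - s) * ev h z + s * ev k z < r := hz
    set ε := r - ((1 - s) * ev h z + s * ev k z) with hε
    have hεpos : 0 < ε := by linarith
    refine ⟨{w : X | ev h w < ev h z + ε} ∩ {w : X | ev k w < ev k z + ε}, ?_,
      (hh.usc _).inter (hk.usc _),
      ⟨by show ev h z < ev h z + ε; linarith, by show ev k z < ev k z + ε; linarith⟩⟩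
    rintro w ⟨hw1, hw2⟩
    have hw1' : ev h w < ev h z + ε := hw1
    have hw2' : ev k w < ev k z + ε := hw2
    show (1 - s) * ev h w + s * ev k w < r
    rcases hs0.eq_or_lt with h0 | h0
    · subst h0
      simp only [sub_zero, one_mul, zero_mul, add_zero] at hε ⊢
      linarith
    · have e1 : (1 - s) * ev h w ≤ (1 - s) * (ev h z + ε) := by
        apply mul_le_mul_of_nonneg_left hw1'.le hs1'
      have e2 : s * ev k w < s * (ev k z + ε) := by
        apply mul_lt_mul_of_pos_left hw2' h0
      have e3 : (1 - s) * (ev h z + ε) + s * (ev k z + ε) = r := by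
        rw [hε]
        ring
      linarith
  · rw [hv, hh.self, hk.self]
    ring
  · obtain ⟨r, hr, hsub⟩ := hh.base U hU hxU
    obtain ⟨t, ht, hsub'⟩ := hk.base U hU hxU
    refine ⟨min r t / 2, by positivity, fun z hz => ?_⟩
    have hz' : (1 - s) * ev h z + s * ev k z < min r t / 2 := hz
    have hmr : min r t ≤ r := min_le_left _ _
    have hmt : min r t ≤ t := min_le_right _ _
    have hmpos : 0 < min r t := lt_min hr ht
    by_cases hs : s ≤ 1 / 2
    · apply hsub
      show ev h z < r
      by_contra hcon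
      push Not at hcon
      nlinarith [hk.nonneg z, hh.nonneg z, mul_nonneg hs0 (hk.nonneg z)]
    · apply hsub'
      show ev k z < t
      by_contra hcon
      push Not at hcon hs
      nlinarith [hk.nonneg z, hh.nonneg z, mul_nonneg hs1' (hh.nonneg z)]

/-- the function `max(h - s, min(s, k))` -/
noncomputable def mix (h k : Fn X) (s : ℝ) : Fn X := (h - s • (1 : Fn X)) ⊔ (s • (1 : Fn X) ⊓ k)

omit [TopologicalSpace X] in
theorem mix_apply (h k : Fn X) (s : ℝ) (z : X) :
    ev (mix h k s) z = max (ev h z - s) (min s (ev k z)) := by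
  unfold mix
  rw [ev_sup, ev_inf, ev_sub, ev_smul, ev_one, mul_one]

theorem mix_zero {h k : Fn X} {x y : X} (hh : Over h x) (hk : Over k y) : mix h k 0 = h := by
  apply ev_ext
  intro z
  rw [mix_apply, sub_zero, min_eq_left (hk.nonneg z), max_eq_left (hh.nonneg z)]

theorem Over.mix {h k : Fn X} {x₀ x : X} (hh : Over h x₀) (hk : Over k x) {s : ℝ} (hs : 0 < s)
    (hx : ev h x ≤ s) : Over (mix h k s) x := by
  refine ⟨fun z => ?_, fun z => ?_, fun r => ?_, ?_, fun U hU hxU => ?_⟩
  · rw [mix_apply]
    exact le_max_of_le_right (le_min hs.le (hk.nonneg z))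
  · rw [mix_apply]
    exact max_le (by linarith [hh.le_one z]) ((min_le_right _ _).trans (hk.le_one z))
  · have : {z : X | ev (Q176.MetricAnalog.mix h k s) z < r} =
        {z : X | ev h z < r + s} ∩ ({z : X | s < r} ∪ {z : X | ev k z < r}) := by
      ext z
      simp only [Set.mem_ofPred_eq, mix_apply, mem_inter_iff, mem_union, max_lt_iff, min_lt_iff]
      constructor
      · rintro ⟨h1, h2⟩
        exact ⟨by linarith, h2⟩
      · rintro ⟨h1, h2⟩
        exact ⟨by linarith, h2⟩
    rw [this]
    refine (hh.usc _).inter (IsOpen.union ?_ (hk.usc _))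
    by_cases h1 : s < r
    · simp [h1]
    · simp [h1]
  · rw [mix_apply, hk.self, min_eq_right hs.le]
    apply max_eq_right
    linarith
  · obtain ⟨r, hr, hsub⟩ := hk.base U hU hxU
    refine ⟨min r s, lt_min hr hs, fun z hz => hsub ?_⟩
    have hz' : ev (Q176.MetricAnalog.mix h k s) z < min r s := hz
    rw [mix_apply] at hz'
    have h1 := (max_lt_iff.1 hz').2
    show ev k z < r
    rcases min_lt_iff.1 h1 with h2 | h2
    · exact absurd (h2.trans_le (min_le_right _ _)) (lt_irrefl _)
    · exact h2.trans_le (min_le_left _ _)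

omit [TopologicalSpace X] in
theorem continuous_mix {A : Type v} [TopologicalSpace A] (h : Fn X) {g : A → Fn X} {s : A → ℝ}
    (hg : Continuous g) (hs : Continuous s) : Continuous fun a => mix h (g a) (s a) := by
  unfold mix
  have h1 : Continuous fun a => s a • (1 : Fn X) := hs.smul continuous_const
  exact (continuous_const.sub h1).sup (h1.inf hg)

theorem dist_mix_le (h k : Fn X) {x₀ : X} (hh : Over h x₀) {s : ℝ} (hs : 0 ≤ s) :
    dist (mix h k s) h ≤ s := by
  rw [dist_le_iff hs]
  intro z
  rw [mix_apply, abs_le]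
  constructor
  · have : ev h z - s ≤ max (ev h z - s) (min s (ev k z)) := le_max_left _ _
    linarith
  · have h1 : max (ev h z - s) (min s (ev k z)) ≤ ev h z + s :=
      max_le (by linarith) ((min_le_left _ _).trans (by linarith [hh.nonneg z]))
    linarith

/-- the total space -/
def M (X : Type u) [TopologicalSpace X] : Type u := {h : Fn X // ∃ x, Over h x}

noncomputable instance : MetricSpace (M X) :=
  inferInstanceAs (MetricSpace {h : Fn X // ∃ x, Over h x})

/-- the projection -/
noncomputable def q (m : M X) : X := m.2.choose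

theorem q_over (m : M X) : Over m.1 (q m) := m.2.choose_spec

theorem q_eq [T0Space X] {m : M X} {x : X} (h : Over m.1 x) : q m = x := (q_over m).unique h

theorem continuous_q : Continuous (q : M X → X) := by
  rw [continuous_def]
  intro U hU
  rw [Metric.isOpen_iff]
  intro m hm
  obtain ⟨r, hr, hsub⟩ := (q_over m).base U hU hm
  refine ⟨r, hr, fun m' hm' => hsub ?_⟩
  have h1 : dist m'.1 m.1 < r := hm'
  have h2 := abs_ev_sub_le m'.1 m.1 (q m')
  rw [(q_over m').self] at h2
  have h3 := (abs_le.1 h2).1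
  show ev m.1 (q m') < r
  linarith

/-- A continuous majorant vanishing exactly at the base point. -/
theorem exists_majorant {A : Type v} [MetricSpace A] (a₀ : A) (w : A → ℝ) (hw1 : ∀ a, w a ≤ 1)
    (hw : ∀ ε > 0, ∃ δ > 0, ∀ a, dist a a₀ < δ → w a < ε) :
    ∃ s : A → ℝ, Continuous s ∧ s a₀ = 0 ∧ (∀ a, a ≠ a₀ → 0 < s a) ∧ ∀ a, w a ≤ s a := by
  have hch : ∀ n : ℕ, ∃ δ > 0, ∀ a, dist a a₀ < δ → w a < (1 / 2) ^ n :=
    fun n => hw _ (by positivity)
  choose δ hδ hδw using hch
  let F : ℕ → A → ℝ := fun n a => 2 * ((1 / 2) ^ n * min 1 (dist a a₀ / δ n))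
  have hF0 : ∀ n a, 0 ≤ F n a := fun n a => by
    have := hδ n
    positivity
  have hFle : ∀ n a, F n a ≤ 2 * (1 / 2) ^ n := fun n a => by
    have h1 : min 1 (dist a a₀ / δ n) ≤ 1 := min_le_left _ _
    have h2 : (0 : ℝ) ≤ (1 / 2) ^ n := by positivity
    show 2 * ((1 / 2) ^ n * min 1 (dist a a₀ / δ n)) ≤ _
    nlinarith
  have hgeo : Summable fun n : ℕ => 2 * ((1 : ℝ) / 2) ^ n :=
    (summable_geometric_of_lt_one (by norm_num) (by norm_num)).mul_left _
  have hsum : ∀ a, Summable fun n => F n a := fun a =>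
    Summable.of_nonneg_of_le (fun n => hF0 n a) (fun n => hFle n a) hgeo
  refine ⟨fun a => ∑' n, F n a, ?_, ?_, ?_, ?_⟩
  · refine continuous_tsum (fun n => ?_) hgeo fun n a => ?_
    · show Continuous fun a => 2 * ((1 / 2) ^ n * min 1 (dist a a₀ / δ n))
      fun_prop
    · rw [Real.norm_eq_abs, abs_of_nonneg (hF0 n a)]
      exact hFle n a
  · have : ∀ n, F n a₀ = 0 := fun n => by
      show 2 * ((1 / 2) ^ n * min 1 (dist a₀ a₀ / δ n)) = 0
      simp
    simp [this]
  · intro a ha
    apply (hsum a).tsum_pos (fun n => hF0 n a) 0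
    show 0 < 2 * ((1 / 2) ^ 0 * min 1 (dist a a₀ / δ 0))
    have h1 : 0 < dist a a₀ := dist_pos.2 ha
    have h2 := hδ 0
    positivity
  · intro a
    by_cases ha : w a ≤ 0
    · exact ha.trans (tsum_nonneg fun n => hF0 n a)
    · push Not at ha
      -- the least `n` with `2^-n ≤ w a`
      have hex : ∃ n : ℕ, ((1 : ℝ) / 2) ^ n ≤ w a := by
        obtain ⟨n, hn⟩ := exists_pow_lt_of_lt_one ha (by norm_num : (1 : ℝ) / 2 < 1)
        exact ⟨n, hn.le⟩
      classical
      set n := Nat.find hex with hn
      have hn1 : ((1 : ℝ) / 2) ^ n ≤ w a := Nat.find_spec hex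
      have hn2 : w a ≤ 2 * (1 / 2) ^ n := by
        rcases Nat.eq_zero_or_pos n with h0 | h0
        · rw [h0]
          linarith [hw1 a]
        · have h3 : ¬ ((1 : ℝ) / 2) ^ (n - 1) ≤ w a := Nat.find_min hex (by omega)
          push Not at h3
          have h4 : ((1 : ℝ) / 2) ^ n = (1 / 2) ^ (n - 1) * (1 / 2) := by
            rw [← pow_succ]
            congr 1
            omega
          rw [h4]
          linarith
      have hge : δ n ≤ dist a a₀ := by
        by_contra hcon
        push Not at hcon
        exact absurd (hδw n a hcon) (not_lt.2 hn1)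
      have h5 : F n a = 2 * (1 / 2) ^ n := by
        show 2 * ((1 / 2) ^ n * min 1 (dist a a₀ / δ n)) = _
        rw [min_eq_left, mul_one]
        rw [le_div_iff₀ (hδ n)]
        linarith
      calc w a ≤ F n a := by rw [h5]; exact hn2
        _ ≤ ∑' n, F n a := (hsum a).le_tsum n fun m _ => hF0 m a

/-- **Main criterion.** If all continuous maps from metric spaces lift (without regard to base
points), then `X` has a metric analog, for each base point. -/
theorem hasMetricAnalog [T0Space X]
    (hlift : ∀ (A : Type v) [MetricSpace A] (f : A → X), Continuous f →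
      ∃ g : A → Fn X, Continuous g ∧ ∀ a, Over (g a) (f a)) (x₀ : X) :
    HasMetricAnalog.{u, v} X x₀ := by
  have hne : ∀ x : X, ∃ h : Fn X, Over h x := by
    intro x
    obtain ⟨g, -, hg⟩ := hlift PUnit.{v + 1} (fun _ => x) continuous_const
    exact ⟨g PUnit.unit, hg _⟩
  obtain ⟨h₀, hh₀⟩ := hne x₀
  have hq0 : q (⟨h₀, x₀, hh₀⟩ : M X) = x₀ := q_eq hh₀
  refine ⟨M X, inferInstance, ⟨h₀, x₀, hh₀⟩, q, ⟨?_, continuous_q, ?_⟩, hq0, ?_⟩
  · -- surjective
    intro x
    obtain ⟨h, hh⟩ := hne x
    exact ⟨⟨h, x, hh⟩, q_eq hh⟩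
  · -- open
    rw [isOpenMap_iff_nhds_le]
    intro m
    rw [Filter.le_map_iff]
    intro V hV
    obtain ⟨ε, hε, hball⟩ := Metric.mem_nhds_iff.1 hV
    have hopen : IsOpen {z : X | ev m.1 z < ε / 2} := (q_over m).usc _
    have hmem : q m ∈ {z : X | ev m.1 z < ε / 2} := by
      show ev m.1 (q m) < ε / 2
      rw [(q_over m).self]
      positivity
    refine Filter.mem_of_superset (hopen.mem_nhds hmem) ?_
    intro z hz
    obtain ⟨k, hk⟩ := hne z
    have hz' : ev m.1 z ≤ ε / 2 := le_of_lt hz
    have hov := (q_over m).mix hk (by positivity : 0 < ε / 2) hz'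
    refine ⟨⟨mix m.1 k (ε / 2), z, hov⟩, hball ?_, q_eq hov⟩
    show dist (mix m.1 k (ε / 2)) m.1 < ε
    have := dist_mix_le m.1 k (q_over m) (by positivity : 0 ≤ ε / 2)
    linarith
  · intro A _ a₀
    refine ⟨?_, ?_⟩
    · intro f hf hfa
      obtain ⟨g, hg, hgo⟩ := hlift A f hf
      obtain ⟨s, hs, hs0, hspos, hws⟩ := exists_majorant a₀ (fun a => ev h₀ (f a))
        (fun a => hh₀.le_one _) (by
          intro ε hε
          have h1 : IsOpen (f ⁻¹' {z : X | ev h₀ z < ε}) := (hh₀.usc ε).preimage hf
          have h2 : a₀ ∈ f ⁻¹' {z : X | ev h₀ z < ε} := by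
            show ev h₀ (f a₀) < ε
            rw [hfa, hh₀.self]
            exact hε
          obtain ⟨δ, hδ, hball⟩ := Metric.isOpen_iff.1 h1 a₀ h2
          exact ⟨δ, hδ, fun a ha => hball ha⟩)
      have hov : ∀ a, Over (mix h₀ (g a) (s a)) (f a) := by
        intro a
        by_cases ha : a = a₀
        · subst ha
          rw [hs0, mix_zero hh₀ (hgo a), hfa]
          exact hh₀
        · exact hh₀.mix (hgo a) (hspos a ha) (hws a)
      refine ⟨fun a => ⟨mix h₀ (g a) (s a), f a, hov a⟩, ?_, ?_, ?_⟩
      · exact (continuous_mix h₀ hg hs).subtype_mk _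
      · apply Subtype.ext
        show mix h₀ (g a₀) (s a₀) = h₀
        rw [hs0, mix_zero hh₀ (hgo a₀)]
      · funext a
        exact (q_eq (hov a)).symm
    · intro f g hf hg hf0 hg0 hfg
      have hov : ∀ p : A × unitInterval,
          Over ((1 - (p.2 : ℝ)) • (f p.1).1 + (p.2 : ℝ) • (g p.1).1) (q (f p.1)) := by
        intro p
        apply (q_over (f p.1)).convex _ p.2.2.1 p.2.2.2
        have : q (f p.1) = q (g p.1) := congrFun hfg p.1
        rw [this]
        exact q_over _
      refine ⟨fun p => ⟨(1 - (p.2 : ℝ)) • (f p.1).1 + (p.2 : ℝ) • (g p.1).1, _, hov p⟩,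
        ?_, ?_, ?_, ?_, ?_⟩
      · refine Continuous.subtype_mk ?_ _
        have h1 : Continuous fun p : A × unitInterval => (f p.1).1 :=
          continuous_subtype_val.comp (hf.comp continuous_fst)
        have h2 : Continuous fun p : A × unitInterval => (g p.1).1 :=
          continuous_subtype_val.comp (hg.comp continuous_fst)
        have h3 : Continuous fun p : A × unitInterval => (p.2 : ℝ) :=
          continuous_subtype_val.comp continuous_snd
        exact ((continuous_const.sub h3).smul h1).add (h3.smul h2)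
      · intro a
        apply Subtype.ext
        simp
      · intro a
        apply Subtype.ext
        simp
      · intro s
        apply Subtype.ext
        show (1 - (s : ℝ)) • (f a₀).1 + (s : ℝ) • (g a₀).1 = h₀
        rw [hf0, hg0, ← add_smul]
        simp
      · intro a s t
        have key : ∀ s : unitInterval,
            q (⟨(1 - (s : ℝ)) • (f a).1 + (s : ℝ) • (g a).1, _, hov (a, s)⟩ : M X) = q (f a) :=
          fun s => q_eq (hov (a, s))
        exact (key s).trans (key t).symm

/-- quasimetrizable spaces have the lifting property -/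
theorem lift_of_quasimetrizable (hX : Quasimetrizable X) (A : Type v) [MetricSpace A] (f : A → X)
    (hf : Continuous f) : ∃ g : A → Fn X, Continuous g ∧ ∀ a, Over (g a) (f a) := by
  obtain ⟨d, hd0, hdx, hdt, hop⟩ := hX
  -- the infimum
  let I : A → X → ℝ := fun a z => ⨅ b : A, (dist a b + d (f b) z)
  have hbdd : ∀ a z, BddBelow (range fun b : A => dist a b + d (f b) z) := by
    intro a z
    refine ⟨0, ?_⟩
    rintro _ ⟨b, rfl⟩
    exact add_nonneg dist_nonneg (hd0 _ _)
  have hI0 : ∀ a z, 0 ≤ I a z := fun a z =>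
    Real.iInf_nonneg fun b => add_nonneg dist_nonneg (hd0 _ _)
  have hIle : ∀ a z b, I a z ≤ dist a b + d (f b) z := fun a z b => ciInf_le (hbdd a z) b
  have hIlt : ∀ a z r, I a z < r → ∃ b, dist a b + d (f b) z < r := by
    intro a z r h
    haveI : Nonempty A := ⟨a⟩
    exact exists_lt_of_ciInf_lt h
  have hILip : ∀ a a' z, I a z ≤ dist a a' + I a' z := by
    intro a a' z
    haveI : Nonempty A := ⟨a⟩
    have : I a z - dist a a' ≤ I a' z := by
      apply le_ciInf
      intro b
      have h1 := hIle a z b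
      have h2 := dist_triangle a a' b
      linarith
    linarith
  let g : A → Fn X := fun a => mk (fun z => min 1 (I a z)) (fun z => le_min zero_le_one (hI0 a z))
    (fun z => min_le_left _ _)
  refine ⟨g, ?_, fun a => ?_⟩
  · have hL : LipschitzWith 1 g := by
      apply LipschitzWith.of_dist_le_mul
      intro a a'
      rw [NNReal.coe_one, one_mul, dist_le_iff dist_nonneg]
      intro z
      show |min 1 (I a z) - min 1 (I a' z)| ≤ dist a a'
      refine (abs_min_sub_min_le_max 1 (I a z) 1 (I a' z)).trans ?_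
      rw [sub_self, abs_zero]
      refine max_le dist_nonneg ?_
      rw [abs_le]
      have h1 := hILip a a' z
      have h2 := hILip a' a z
      rw [dist_comm] at h2
      constructor <;> linarith
    exact hL.continuous
  · refine ⟨fun z => le_min zero_le_one (hI0 a z), fun z => min_le_left _ _, fun r => ?_, ?_, ?_⟩
    · by_cases hr : 1 < r
      · have : {z : X | ev (g a) z < r} = univ := by
          rw [eq_univ_iff_forall]
          intro z
          show min 1 (I a z) < r
          exact (min_le_left _ _).trans_lt hr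
        rw [this]
        exact isOpen_univ
      · rw [hop]
        intro z hz
        have hz' : min 1 (I a z) < r := hz
        have hz2 : I a z < r := by
          rcases min_lt_iff.1 hz' with h | h
          · exact absurd h hr
          · exact h
        obtain ⟨b, hb⟩ := hIlt a z r hz2
        refine ⟨r - (dist a b + d (f b) z), by linarith, fun w hw => ?_⟩
        have hw' : d z w < r - (dist a b + d (f b) z) := hw
        show min 1 (I a w) < r
        refine (min_le_right _ _).trans_lt ((hIle a w b).trans_lt ?_)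
        have := hdt (f b) z w
        linarith
    · show min 1 (I a (f a)) = 0
      have h1 := hIle a (f a) a
      rw [dist_self, hdx, add_zero] at h1
      rw [le_antisymm h1 (hI0 a (f a))]
      simp
    · intro U hU haU
      obtain ⟨ε, hε, hsub⟩ := (hop U).1 hU (f a) haU
      have hball : IsOpen {y | d (f a) y < ε / 2} := by
        rw [hop]
        intro y hy
        have hy' : d (f a) y < ε / 2 := hy
        refine ⟨ε / 2 - d (f a) y, by linarith, fun w hw => ?_⟩
        have hw' : d y w < ε / 2 - d (f a) y := hw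
        show d (f a) w < ε / 2
        have := hdt (f a) y w
        linarith
      have hpre : IsOpen (f ⁻¹' {y | d (f a) y < ε / 2}) := hball.preimage hf
      obtain ⟨δ, hδ, hδsub⟩ := Metric.isOpen_iff.1 hpre a (by
        show d (f a) (f a) < ε / 2
        rw [hdx]
        positivity)
      refine ⟨min (min δ (ε / 2)) 1, by positivity, fun z hz => hsub ?_⟩
      have hz' : min 1 (I a z) < min (min δ (ε / 2)) 1 := hz
      have hz1 : I a z < min δ (ε / 2) := by
        rcases min_lt_iff.1 hz' with h | h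
        · exact absurd (h.trans_le (min_le_right _ _)) (lt_irrefl _)
        · exact h.trans_le (min_le_left _ _)
      obtain ⟨b, hb⟩ := hIlt a z _ hz1
      have hb1 : dist a b + d (f b) z < δ := hb.trans_le (min_le_left _ _)
      have hb2 : dist a b + d (f b) z < ε / 2 := hb.trans_le (min_le_right _ _)
      have h1 : b ∈ f ⁻¹' {y | d (f a) y < ε / 2} := by
        apply hδsub
        rw [Metric.mem_ball, dist_comm]
        have := hd0 (f b) z
        linarith
      have h2 : d (f a) (f b) < ε / 2 := h1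
      show d (f a) z < ε
      have h3 := hdt (f a) (f b) z
      have h4 : 0 ≤ dist a b := dist_nonneg
      linarith

/-- indicator function of a set as an element of `Fn X` -/
noncomputable def ind (G : Set X) : Fn X := by
  classical
  exact mk (fun z => if z ∈ G then 1 else 0) (fun z => by split_ifs <;> norm_num)
    (fun z => by split_ifs <;> norm_num)

omit [TopologicalSpace X] in
theorem ind_of_mem {G : Set X} {z : X} (h : z ∈ G) : ev (ind G) z = 1 := by
  classical
  exact if_pos h

omit [TopologicalSpace X] in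
theorem ind_of_notMem {G : Set X} {z : X} (h : z ∉ G) : ev (ind G) z = 0 := by
  classical
  exact if_neg h

omit [TopologicalSpace X] in
theorem ind_nonneg (G : Set X) (z : X) : 0 ≤ ev (ind G) z := by
  by_cases h : z ∈ G
  · rw [ind_of_mem h]
    norm_num
  · rw [ind_of_notMem h]

omit [TopologicalSpace X] in
theorem ind_le_one (G : Set X) (z : X) : ev (ind G) z ≤ 1 := by
  by_cases h : z ∈ G
  · rw [ind_of_mem h]
  · rw [ind_of_notMem h]
    norm_num

set_option maxHeartbeats 1000000 in
/-- spaces with a development have the lifting property -/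
theorem lift_of_development {ι : Type u} (G : ℕ → ι → Set X) (hG : ∀ k i, IsOpen (G k i))
    (hcov : ∀ k x, ∃ i, x ∈ G k i)
    (hdev : ∀ (x : X) (U : Set X), IsOpen U → x ∈ U → ∃ k, ∀ i, x ∈ G k i → G k i ⊆ U)
    (A : Type v) [MetricSpace A] (f : A → X)
    (hf : Continuous f) : ∃ g : A → Fn X, Continuous g ∧ ∀ a, Over (g a) (f a) := by
  have hpu : ∀ k, ∃ φ : PartitionOfUnity ι A univ, φ.IsSubordinate fun i => f ⁻¹' (G k i) := by
    intro k
    apply PartitionOfUnity.exists_isSubordinate isClosed_univ _ fun i => (hG k i).preimage hf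
    intro a _
    obtain ⟨i, hi⟩ := hcov k (f a)
    exact mem_iUnion.2 ⟨i, hi⟩
  choose φ hφ using hpu
  -- the value of the `k`-th sum
  let S : ℕ → A → Fn X := fun k a => ∑ᶠ i, φ k i a • ind (G k i)
  have hSfin : ∀ k a, (Function.support fun i => φ k i a • ind (G k i)).Finite := by
    intro k a
    refine ((φ k).locallyFinite.point_finite a).subset fun i hi => ?_
    show φ k i a ≠ 0
    intro h0
    apply hi
    show φ k i a • ind (G k i) = 0
    rw [h0, zero_smul]
  have hSval : ∀ k a (z : X), ev (S k a) z = ∑ᶠ i, φ k i a * ev (ind (G k i)) z := by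
    intro k a z
    have h1 : evL z (∑ᶠ i, φ k i a • ind (G k i)) = ∑ᶠ i, evL z (φ k i a • ind (G k i)) :=
      map_finsum (evL z) (hSfin k a)
    exact h1
  have hterm0 : ∀ k a (z : X) i, 0 ≤ φ k i a * ev (ind (G k i)) z := fun k a z i =>
    mul_nonneg ((φ k).nonneg i a) (ind_nonneg _ _)
  have hfin' : ∀ k a (z : X), (Function.support fun i => φ k i a * ev (ind (G k i)) z).Finite := by
    intro k a z
    refine ((φ k).locallyFinite.point_finite a).subset fun i hi => ?_
    show φ k i a ≠ 0
    intro h0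
    apply hi
    show φ k i a * ev (ind (G k i)) z = 0
    rw [h0, zero_mul]
  have hfin'' : ∀ k a, (Function.support fun i => φ k i a).Finite := fun k a =>
    (φ k).locallyFinite.point_finite a
  have hS0 : ∀ k a (z : X), 0 ≤ ev (S k a) z := by
    intro k a z
    rw [hSval]
    exact finsum_nonneg (hterm0 k a z)
  have hS1 : ∀ k a (z : X), ev (S k a) z ≤ 1 := by
    intro k a z
    rw [hSval, ← (φ k).sum_eq_one (mem_univ a)]
    apply finsum_le_finsum' (hfin' k a z) (hfin'' k a)
    intro i
    show φ k i a * ev (ind (G k i)) z ≤ φ k i a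
    exact mul_le_of_le_one_right ((φ k).nonneg i a) (ind_le_one _ _)
  have hSself : ∀ k a, ev (S k a) (f a) = 1 := by
    intro k a
    rw [hSval, ← (φ k).sum_eq_one (mem_univ a)]
    refine finsum_congr fun i => ?_
    by_cases h : φ k i a = 0
    · rw [h, zero_mul]
    · have h1 : a ∈ tsupport (φ k i) := subset_tsupport _ h
      have h2 : f a ∈ G k i := hφ k i h1
      rw [ind_of_mem h2, mul_one]
  have hScont : ∀ k, Continuous (S k) := by
    intro k
    refine continuous_finsum (fun i => ((φ k i).continuous.smul continuous_const)) ?_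
    refine (φ k).locallyFinite.subset fun i a ha => ?_
    show φ k i a ≠ 0
    intro h0
    apply ha
    show φ k i a • ind (G k i) = 0
    rw [h0, zero_smul]
  -- lower semicontinuity of `S k a`
  have hSlsc : ∀ k a (z : X), ∃ N : Set X, IsOpen N ∧ z ∈ N ∧ ∀ w ∈ N, ev (S k a) z ≤ ev (S k a) w := by
    intro k a z
    refine ⟨⋂ i ∈ {i | φ k i a ≠ 0 ∧ z ∈ G k i}, G k i, ?_, ?_, ?_⟩
    · apply Set.Finite.isOpen_biInter ((hfin'' k a).subset fun i hi => hi.1)
      exact fun i _ => hG k i
    · exact mem_iInter₂.2 fun i hi => hi.2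
    · intro w hw
      rw [hSval, hSval]
      apply finsum_le_finsum' (hfin' k a z) (hfin' k a w)
      intro i
      show φ k i a * ev (ind (G k i)) z ≤ φ k i a * ev (ind (G k i)) w
      by_cases h : φ k i a = 0
      · rw [h, zero_mul, zero_mul]
      · by_cases hz : z ∈ G k i
        · rw [ind_of_mem hz, ind_of_mem (mem_iInter₂.1 hw i ⟨h, hz⟩)]
        · rw [ind_of_notMem hz, mul_zero]
          exact hterm0 k a w i
  -- the lift
  let T : ℕ → A → Fn X := fun k a => ((1 : ℝ) / 2) ^ (k + 1) • ((1 : Fn X) - S k a)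
  have hTval : ∀ k a (z : X), ev (T k a) z = (1 / 2) ^ (k + 1) * (1 - ev (S k a) z) := fun k a z => rfl
  have hgeo : Summable fun k : ℕ => ((1 : ℝ) / 2) ^ (k + 1) :=
    (summable_nat_add_iff 1).2 (summable_geometric_of_lt_one (by norm_num) (by norm_num))
  have hgeosum : ∑' k : ℕ, ((1 : ℝ) / 2) ^ (k + 1) = 1 := by
    have h1 : ∀ k : ℕ, ((1 : ℝ) / 2) ^ (k + 1) = 1 / 2 * (1 / 2) ^ k := fun k => by ring
    simp_rw [h1]
    rw [tsum_mul_left, tsum_geometric_two]
    norm_num
  have hTnorm : ∀ k a, ‖T k a‖ ≤ (1 / 2) ^ (k + 1) := by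
    intro k a
    rw [← dist_zero_right, dist_le_iff (by positivity)]
    intro z
    have e0 : ev (0 : Fn X) z = 0 := rfl
    rw [e0, sub_zero]
    have e : ev (T k a) z = (1 / 2) ^ (k + 1) * (1 - ev (S k a) z) := hTval k a z
    rw [e, abs_mul, abs_of_nonneg (by positivity : (0 : ℝ) ≤ (1 / 2) ^ (k + 1))]
    have h1 := hS0 k a z
    have h2 := hS1 k a z
    have h3 : |1 - ev (S k a) z| ≤ 1 := by
      rw [abs_le]
      constructor <;> linarith
    calc (1 / 2) ^ (k + 1) * |1 - ev (S k a) z| ≤ (1 / 2) ^ (k + 1) * 1 := by gcongr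
      _ = _ := mul_one _
  have hTsum : ∀ a, Summable fun k => T k a := fun a =>
    Summable.of_norm_bounded hgeo fun k => hTnorm k a
  let g : A → Fn X := fun a => ∑' k, T k a
  have hgval : ∀ a (z : X), ev (g a) z = ∑' k, ev (T k a) z := by
    intro a z
    exact (evL z).map_tsum (hTsum a)
  have hTsumz : ∀ a (z : X), Summable fun k => ev (T k a) z := by
    intro a z
    exact (hTsum a).map (evL z) (evL z).continuous
  have hT0 : ∀ k a (z : X), 0 ≤ ev (T k a) z := by
    intro k a z
    have e : ev (T k a) z = (1 / 2) ^ (k + 1) * (1 - ev (S k a) z) := hTval k a z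
    rw [e]
    have := hS1 k a z
    exact mul_nonneg (by positivity) (by linarith)
  have hTle : ∀ k a (z : X), ev (T k a) z ≤ (1 / 2) ^ (k + 1) := by
    intro k a z
    have e : ev (T k a) z = (1 / 2) ^ (k + 1) * (1 - ev (S k a) z) := hTval k a z
    rw [e]
    have := hS0 k a z
    exact mul_le_of_le_one_right (by positivity) (by linarith)
  refine ⟨g, ?_, fun a => ⟨fun z => ?_, fun z => ?_, fun r => ?_, ?_, fun U hU haU => ?_⟩⟩
  · refine continuous_tsum (fun k => ?_) hgeo fun k a => hTnorm k a
    have h1 : Continuous fun a => (1 : Fn X) - S k a := continuous_const.sub (hScont k)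
    exact h1.const_smul ((1 : ℝ) / 2 ^ (k + 1)) |>.congr (fun a => by
      show ((1 : ℝ) / 2 ^ (k + 1)) • ((1 : Fn X) - S k a) = ((1 : ℝ) / 2) ^ (k + 1) • _
      rw [div_pow, one_pow])
  · rw [hgval]
    exact tsum_nonneg fun k => hT0 k a z
  · rw [hgval, ← hgeosum]
    exact (hTsumz a z).tsum_le_tsum (fun k => hTle k a z) hgeo
  · -- upper semicontinuity
    rw [isOpen_iff_forall_mem_open]
    intro z hz
    have hz' : ev (g a) z < r := hz
    obtain ⟨K, hK⟩ := exists_pow_lt_of_lt_one (sub_pos.2 hz') (by norm_num : (1 : ℝ) / 2 < 1)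
    choose N hNo hzN hN using fun k => hSlsc k a z
    refine ⟨⋂ k ∈ Finset.range K, N k, ?_, isOpen_biInter_finset fun k _ => hNo k,
      mem_iInter₂.2 fun k _ => hzN k⟩
    intro w hw
    show ev (g a) w < r
    have e1 : ev (g a) w = ∑ k ∈ Finset.range K, ev (T k a) w + ∑' k, ev (T (k + K) a) w := by
      rw [hgval]
      exact ((hTsumz a w).sum_add_tsum_nat_add K).symm
    have e2 : ∑ k ∈ Finset.range K, ev (T k a) w ≤ ∑ k ∈ Finset.range K, ev (T k a) z := by
      apply Finset.sum_le_sum
      intro k hk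
      have e : ∀ z : X, ev (T k a) z = (1 / 2) ^ (k + 1) * (1 - ev (S k a) z) := fun z => hTval k a z
      rw [e w, e z]
      have := hN k w (mem_iInter₂.1 hw k hk)
      gcongr
    have e3 : ∑ k ∈ Finset.range K, ev (T k a) z ≤ ev (g a) z := by
      rw [hgval]
      exact (hTsumz a z).sum_le_tsum _ fun k _ => hT0 k a z
    have e4 : ∑' k, ev (T (k + K) a) w ≤ (1 / 2) ^ K := by
      have h1 : ∑' k, ev (T (k + K) a) w ≤ ∑' k : ℕ, ((1 : ℝ) / 2) ^ K * (1 / 2) ^ (k + 1) := by
        apply Summable.tsum_le_tsum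
        · intro k
          refine (hTle (k + K) a w).trans (le_of_eq ?_)
          rw [← pow_add]
          congr 1
          omega
        · exact (summable_nat_add_iff K).2 (hTsumz a w)
        · exact hgeo.mul_left _
      rw [tsum_mul_left, hgeosum, mul_one] at h1
      exact h1
    linarith
  · rw [hgval]
    have : ∀ k, ev (T k a) (f a) = 0 := by
      intro k
      have e : ev (T k a) (f a) = (1 / 2) ^ (k + 1) * (1 - ev (S k a) (f a)) := hTval k a (f a)
      rw [e, hSself]
      ring
    simp [this]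
  · obtain ⟨k, hk⟩ := hdev (f a) U hU haU
    refine ⟨(1 / 2) ^ (k + 1), by positivity, fun z hz => ?_⟩
    have hz' : ev (g a) z < (1 / 2) ^ (k + 1) := hz
    have h1 : ev (T k a) z ≤ ev (g a) z := by
      rw [hgval]
      exact (hTsumz a z).le_tsum k fun j _ => hT0 j a z
    have e : ev (T k a) z = (1 / 2) ^ (k + 1) * (1 - ev (S k a) z) := hTval k a z
    have h2 : 0 < ev (S k a) z := by
      by_contra hcon
      push Not at hcon
      have h3 : ev (S k a) z = 0 := le_antisymm hcon (hS0 k a z)
      rw [e, h3] at h1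
      linarith
    rw [hSval] at h2
    obtain ⟨i, hi⟩ : ∃ i, φ k i a * ev (ind (G k i)) z ≠ 0 := by
      by_contra hcon
      push Not at hcon
      rw [finsum_congr hcon, finsum_zero] at h2
      exact lt_irrefl _ h2
    have h4 : φ k i a ≠ 0 := left_ne_zero_of_mul hi
    have h5 : z ∈ G k i := by
      by_contra hcon
      rw [ind_of_notMem hcon, mul_zero] at hi
      exact hi rfl
    have h6 : f a ∈ G k i := hφ k i (subset_tsupport _ h4)
    exact hk i h6 h5

end Q176.MetricAnalog
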