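import Mathlib

/-!
# Basic facts about `ω* = βω ∖ ω`
-/

namespace Q176.OmegaStar

open Set Topology Filter

/-- `ω* = βω ∖ ω`: the ultrafilters on `ℕ` which are not principal, as a subspace of
`βω = Ultrafilter ℕ`. -/
abbrev OmegaStar : Type := {u : Ultrafilter ℕ // u ∉ range (pure : ℕ → Ultrafilter ℕ)}

theorem isOpen_range_pure : IsOpen (range (pure : ℕ → Ultrafilter ℕ)) := by
  have h : range (pure : ℕ → Ultrafilter ℕ) = ⋃ n : ℕ, {u : Ultrafilter ℕ | {n} ∈ u} := by
    ext u
    simp only [mem_range, mem_iUnion, Set.mem_ofPred_eq]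
    constructor
    · rintro ⟨n, rfl⟩
      exact ⟨n, Ultrafilter.mem_pure.2 rfl⟩
    · rintro ⟨n, hn⟩
      obtain ⟨m, hm, hu⟩ := Ultrafilter.eq_pure_of_finite_mem (finite_singleton n) hn
      exact ⟨m, hu.symm⟩
  rw [h]
  exact isOpen_iUnion fun n => ultrafilter_isOpen_basic _

instance : CompactSpace OmegaStar :=
  isCompact_iff_compactSpace.1 isOpen_range_pure.isClosed_compl.isCompact

theorem le_cofinite (u : OmegaStar) : (u.1 : Filter ℕ) ≤ cofinite := by
  rcases u.1.le_cofinite_or_eq_pure with h | ⟨n, hn⟩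
  · exact h
  · exact absurd ⟨n, hn.symm⟩ u.2

/-- the clopen set `s*` -/
def star (s : Set ℕ) : Set OmegaStar := {u | s ∈ u.1}

theorem isClopen_star (s : Set ℕ) : IsClopen (star s) :=
  ⟨(ultrafilter_isClosed_basic s).preimage continuous_subtype_val,
    (ultrafilter_isOpen_basic s).preimage continuous_subtype_val⟩

theorem exists_star_subset (p : OmegaStar) (U : Set OmegaStar) (hU : U ∈ 𝓝 p) :
    ∃ s ∈ p.1, star s ⊆ U := by
  rw [nhds_subtype_eq_comap, mem_comap] at hU
  obtain ⟨V, hV, hVU⟩ := hU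
  obtain ⟨_, ⟨s, rfl⟩, hs, hsV⟩ := ultrafilterBasis_is_basis.mem_nhds_iff.1 hV
  exact ⟨s, hs, fun u hu => hVU (hsV hu)⟩

/-- the ultrafilter generated by a tail of an injective sequence -/
theorem exists_omegaStar (x : ℕ → ℕ) (hx : Function.Injective x) :
    ∃ u : OmegaStar, ∀ s : Set ℕ, (∀ᶠ n in atTop, x n ∈ s) → s ∈ u.1 := by
  refine ⟨⟨(hyperfilter ℕ).map x, ?_⟩, ?_⟩
  · rintro ⟨n, hn⟩
    have h1 : ({n} : Set ℕ) ∈ (hyperfilter ℕ).map x := by
      rw [← hn]
      exact Ultrafilter.mem_pure.2 rfl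
    have h2 : x ⁻¹' {n} ∈ hyperfilter ℕ := h1
    exact notMem_hyperfilter_of_finite
      ((finite_singleton n).preimage hx.injOn) h2
  · intro s hs
    have h1 : x ⁻¹' s ∈ (atTop : Filter ℕ) := hs
    rw [← Nat.cofinite_eq_atTop] at h1
    exact hyperfilter_le_cofinite h1

/-- every nonempty `G_δ` in `ω*` has at least two points -/
theorem exists_two (p : OmegaStar) (s : ℕ → Set ℕ) (hs : ∀ n, s n ∈ p.1) :
    ∃ q₁ q₂ : OmegaStar, q₁ ≠ q₂ ∧ (∀ n, s n ∈ q₁.1) ∧ (∀ n, s n ∈ q₂.1) := by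
  -- decreasing intersections
  have hB : ∀ n, (⋂ i ∈ Finset.range (n + 1), s i) ∈ p.1 := by
    intro n
    exact (Filter.biInter_finset_mem _).2 fun i _ => hs i
  have hinf : ∀ n, (⋂ i ∈ Finset.range (n + 1), s i).Infinite := by
    intro n hfin
    have h1 : (⋂ i ∈ Finset.range (n + 1), s i)ᶜ ∈ (p.1 : Filter ℕ) :=
      le_cofinite p hfin.compl_mem_cofinite
    have h2 := Filter.inter_mem (hB n) h1
    rw [inter_compl_self] at h2
    exact Ultrafilter.empty_notMem h2
  obtain ⟨x, hxmono, hx⟩ : ∃ x : ℕ → ℕ, StrictMono x ∧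
      ∀ n, x n ∈ ⋂ i ∈ Finset.range (n + 1), s i := by
    have := Filter.extraction_forall_of_frequently
      (P := fun n k => k ∈ ⋂ i ∈ Finset.range (n + 1), s i)
      (fun n => Nat.frequently_atTop_iff_infinite.2 (hinf n))
    obtain ⟨φ, hφ, h⟩ := this
    exact ⟨φ, hφ, h⟩
  have hxs : ∀ n k, n ≤ k → x k ∈ s n := by
    intro n k hnk
    have := hx k
    simp only [mem_iInter] at this
    exact this n (Finset.mem_range.2 (by omega))
  obtain ⟨q₁, h₁⟩ := exists_omegaStar (fun n => x (2 * n))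
    (fun a b h => by have := hxmono.injective h; omega)
  obtain ⟨q₂, h₂⟩ := exists_omegaStar (fun n => x (2 * n + 1))
    (fun a b h => by have := hxmono.injective h; omega)
  refine ⟨q₁, q₂, ?_, ?_, ?_⟩
  · intro h
    have a1 : range (fun n => x (2 * n)) ∈ q₁.1 := h₁ _ (Eventually.of_forall fun n => ⟨n, rfl⟩)
    have a2 : (range (fun n => x (2 * n)))ᶜ ∈ q₂.1 := by
      apply h₂
      refine Eventually.of_forall fun n => ?_
      rintro ⟨m, hm⟩
      have := hxmono.injective hm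
      omega
    rw [← h] at a2
    have a3 := Filter.inter_mem a1 a2
    rw [inter_compl_self] at a3
    exact Ultrafilter.empty_notMem a3
  · intro n
    apply h₁
    filter_upwards [eventually_ge_atTop n] with k hk
    exact hxs n _ (by omega)
  · intro n
    apply h₂
    filter_upwards [eventually_ge_atTop n] with k hk
    exact hxs n _ (by omega)

/-- `ω*` has no isolated points. -/
theorem not_isOpen_singleton (u : OmegaStar) : ¬ IsOpen ({u} : Set OmegaStar) := by
  intro h
  obtain ⟨s, hs, hsub⟩ := exists_star_subset u {u} (h.mem_nhds rfl)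
  obtain ⟨q₁, q₂, hne, h1, h2⟩ := exists_two u (fun _ => s) (fun _ => hs)
  have e1 : q₁ = u := hsub (h1 0)
  have e2 : q₂ = u := hsub (h2 0)
  exact hne (e1.trans e2.symm)

end Q176.OmegaStar
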