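import Pool.Agent.Q88.PS.Stm

set_option autoImplicit false

open MeasureTheory Set Filter Topology
open scoped ENNReal NNReal



namespace Pool.Agent.Q88.PS

lemma res_affine_ae (lam : ℝ) (w : List D) :
    ∃ c : ℝ, ∀ τ : ℝ, res lam τ w = 8 ^ w.length * τ - c := by
  induction w with
  | nil => exact ⟨0, fun τ => by simp [res]⟩
  | cons d w ih =>
    obtain ⟨c, hc⟩ := ih
    refine ⟨8 ^ w.length * dl lam d + c, fun τ => ?_⟩
    rw [res, hc, List.length_cons, pow_succ]
    ring

/-- Job AE. -/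
theorem ae1 : S_ae := by
  intro lam _ hae
  rw [ae_all_iff]
  intro w
  obtain ⟨c, hc⟩ := res_affine_ae lam w
  have h0 : ∀ᵐ σ : ℝ, σ ∈ Icc (0 : ℝ) (LL lam) → Vs lam σ = ⊤ := by
    rw [ae_restrict_iff' measurableSet_Ioo] at hae
    have e1 : ∀ᵐ σ : ℝ, σ ≠ 0 := by
      rw [ae_iff]; simp
    have e2 : ∀ᵐ σ : ℝ, σ ≠ LL lam := by
      rw [ae_iff]; simp
    filter_upwards [hae, e1, e2] with σ a1 a2 a3 a4
    exact a1 ⟨lt_of_le_of_ne a4.1 (Ne.symm a2), lt_of_le_of_ne a4.2 a3⟩
  have q1 : Measure.QuasiMeasurePreserving (fun τ : ℝ => (8 : ℝ) ^ w.length * τ) volume volume := by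
    refine ⟨measurable_const_mul _, ?_⟩
    rw [Real.map_volume_mul_left (by positivity)]
    exact Measure.smul_absolutelyContinuous
  have q2 : Measure.QuasiMeasurePreserving (fun τ : ℝ => τ - c) volume volume :=
    (measurePreserving_sub_right volume c).quasiMeasurePreserving
  have h1 := (q2.comp q1).ae h0
  filter_upwards [h1] with τ ht
  rw [hc τ]
  exact ht

end Pool.Agent.Q88.PS
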