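import Pool.Agent.Q88.PS.Stm

set_option autoImplicit false

open MeasureTheory Set Filter Topology
open scoped ENNReal NNReal



namespace Pool.Agent.Q88.PS

lemma meas_ind_nice (lam : ℝ) : Measurable (ind lam) := by
  unfold ind
  exact measurable_const.indicator measurableSet_Ioo

lemma meas_TT_nice (lam : ℝ) {F : ℝ → ℝ≥0∞} (hF : Measurable F) : Measurable (TT lam F) := by
  unfold TT
  refine Measurable.const_mul ?_ _
  refine Finset.measurable_fun_sum _ fun d _ => ?_
  exact hF.comp ((measurable_id.const_mul 8).sub_const _)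

lemma meas_vv_nice (lam : ℝ) (n : ℕ) : Measurable (vv lam n) := by
  induction n with
  | zero => exact meas_ind_nice lam
  | succ n ih => exact (meas_ind_nice lam).max (meas_TT_nice lam ih)

lemma meas_Vs_nice (lam : ℝ) : Measurable (Vs lam) := by
  unfold Vs
  exact Measurable.iSup fun n => meas_vv_nice lam n

lemma Vs_step_nice (lam τ : ℝ) (d : D) :
    (2 : ℝ≥0∞)⁻¹ * Vs lam (8 * τ - dl lam d) ≤ Vs lam τ := by
  unfold Vs
  rw [ENNReal.mul_iSup]
  refine iSup_le fun n => ?_
  refine le_trans ?_ (le_iSup _ (n + 1))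
  rw [vv]
  refine le_trans ?_ (le_max_right _ _)
  unfold TT
  gcongr
  exact Finset.single_le_sum (f := fun d => vv lam n (8 * τ - dl lam d))
    (fun _ _ => zero_le) (Finset.mem_univ d)

/-- Job NICE. -/
theorem nice (h : S_bd) (h1 : S_pos) (h2 : S_den) : S_nice := by
  intro p q hp hq hlam
  set lam : ℝ := (p : ℝ) / q with hl
  have hb := h p q hp hq hlam.2
  have hpos := h1 lam hlam (2 * q + 1) (by finiteness) hb
  set X : Set ℝ := {τ | Vs lam τ = ⊤} with hX
  have hXm : MeasurableSet X := meas_Vs_nice lam (measurableSet_singleton ⊤)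
  have hinv : ∀ (τ : ℝ) (d : D), 8 * τ - dl lam d ∈ X → τ ∈ X := by
    intro τ d hd
    have := Vs_step_nice lam τ d
    rw [show Vs lam (8 * τ - dl lam d) = ⊤ from hd, ENNReal.mul_top (by simp)] at this
    exact top_le_iff.1 this
  have hz := h2 lam hlam X hXm hinv hpos
  rw [ae_restrict_iff' measurableSet_Ioo, ae_iff]
  refine measure_mono_null ?_ hz
  intro τ ht
  simp only [mem_ofPred_eq, Classical.not_imp] at ht
  exact ht

end Pool.Agent.Q88.PS
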