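import Pool.Agent.Q88.PS.Stm

set_option autoImplicit false

open MeasureTheory Set Filter Topology
open scoped ENNReal NNReal

namespace Pool.Agent.Q88.PS

lemma lint_aff (F : ℝ → ℝ≥0∞) (hF : Measurable F) (c : ℝ) :
    ∫⁻ τ, F (8 * τ - c) = (8 : ℝ≥0∞)⁻¹ * ∫⁻ τ, F τ := by
  have h1 : ∫⁻ τ, F (8 * τ - c) = ∫⁻ y, F (y - c) ∂(Measure.map (fun x : ℝ => 8 * x) volume) := by
    have hm : Measurable fun y : ℝ => F (y - c) := hF.comp (measurable_id.sub_const c)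
    rw [lintegral_map hm (measurable_const_mul 8)]
  rw [h1, Real.map_volume_mul_left (by norm_num : (8 : ℝ) ≠ 0), lintegral_smul_measure, smul_eq_mul,
    lintegral_sub_right_eq_self F c]
  congr 1
  rw [abs_of_pos (by norm_num : (0 : ℝ) < 8⁻¹), ENNReal.ofReal_inv_of_pos (by norm_num : (0 : ℝ) < 8)]
  norm_num

theorem tin : S_tin := by
  intro lam F hF
  unfold TT
  have hm : ∀ d : D, Measurable fun τ : ℝ => F (8 * τ - dl lam d) := fun d =>
    hF.comp ((measurable_const_mul (8 : ℝ)).sub_const (dl lam d))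
  rw [lintegral_const_mul _ (Finset.measurable_sum _ fun d _ => hm d),
    lintegral_finsetSum _ fun d _ => hm d]
  have h2 : ∀ d : D, ∫⁻ τ, F (8 * τ - dl lam d) = (8 : ℝ≥0∞)⁻¹ * ∫⁻ τ, F τ := fun d => lint_aff F hF _
  simp only [h2, Finset.sum_const, Finset.card_univ, D, Fintype.card_prod, Fintype.card_fin, nsmul_eq_mul]
  rw [← mul_assoc, ← mul_assoc]
  have h3 : (2 : ℝ≥0∞)⁻¹ * ((4 * 4 : ℕ) : ℝ≥0∞) * (8 : ℝ≥0∞)⁻¹ = 1 := by
    rw [show ((4 * 4 : ℕ) : ℝ≥0∞) = 2 * 8 by norm_num, ← mul_assoc,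
      ENNReal.inv_mul_cancel (by norm_num) (by norm_num), one_mul,
      ENNReal.mul_inv_cancel (by norm_num) (by norm_num)]
  rw [h3, one_mul]

end Pool.Agent.Q88.PS
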