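import Pool.Agent.Q88.PS.Stm

set_option autoImplicit false

open MeasureTheory Set Filter Topology
open scoped ENNReal NNReal

namespace Pool.Agent.Q88.PS

theorem ugn (h : S_nice) : S_ugn := by
  intro p q hp hq hpq k
  have h1 := (ae_restrict_iff' measurableSet_Ioo).mp (h p q hp hq hpq)
  have hL : 0 < LL ((p : ℝ) / q) := by
    unfold LL
    have := hpq.1
    positivity
  show ENNReal.ofReal (LL ((p : ℝ) / q) - 1 / (k + 1)) < volume {τ | (k : ℝ≥0∞) < Vs ((p : ℝ) / q) τ}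
  have h2 : volume (Ioo (0 : ℝ) (LL ((p : ℝ) / q))) ≤ volume {τ | (k : ℝ≥0∞) < Vs ((p : ℝ) / q) τ} := by
    apply measure_mono_ae
    filter_upwards [h1] with τ hτ hτ2
    show (k : ℝ≥0∞) < Vs ((p : ℝ) / q) τ
    rw [hτ hτ2]
    exact ENNReal.natCast_lt_top k
  rw [Real.volume_Ioo, sub_zero] at h2
  refine lt_of_lt_of_le ?_ h2
  rw [ENNReal.ofReal_lt_ofReal_iff hL]
  have : (0 : ℝ) < 1 / (k + 1) := by positivity
  linarith

end Pool.Agent.Q88.PS
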