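import Mathlib

/-!
# Spaces with a countable pseudobase (Michael's `ℵ₀`-spaces)
-/

namespace Q176.PseudoBase

open Set Topology Filter TopologicalSpace

universe u v w

/-- `X` has a countable pseudobase. -/
def HasPB (X : Type u) [TopologicalSpace X] : Prop :=
  ∃ 𝓠 : Set (Set X), 𝓠.Countable ∧ ∀ K U : Set X, IsCompact K → IsOpen U → K ⊆ U →
    ∃ P ∈ 𝓠, K ⊆ P ∧ P ⊆ U

theorem HasPB.of_embedding {X : Type u} {Y : Type v} [TopologicalSpace X] [TopologicalSpace Y]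
    {f : X → Y} (hf : IsEmbedding f) (h : HasPB Y) : HasPB X := by
  obtain ⟨𝓠, hc, h𝓠⟩ := h
  refine ⟨(fun P => f ⁻¹' P) '' 𝓠, hc.image _, fun K U hK hU hKU => ?_⟩
  obtain ⟨V, hV, rfl⟩ := hf.isInducing.isOpen_iff.1 hU
  obtain ⟨P, hP, h1, h2⟩ := h𝓠 (f '' K) V (hK.image hf.continuous) hV (image_subset_iff.2 hKU)
  exact ⟨_, ⟨P, hP, rfl⟩, image_subset_iff.1 h1, preimage_mono h2⟩

/-- from a subbase to all open sets -/
theorem HasPB.of_subbase {X : Type u} [t : TopologicalSpace X] [T2Space X] (S : Set (Set X))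
    (hS : t = generateFrom S) (𝓠 : Set (Set X)) (hc : 𝓠.Countable)
    (h : ∀ K, ∀ U ∈ S, IsCompact K → K ⊆ U → ∃ P ∈ 𝓠, K ⊆ P ∧ P ⊆ U) : HasPB X := by
  classical
  -- finite intersections, then finite unions
  let 𝓠₁ : Set (Set X) := (fun F : Set (Set X) => ⋂₀ F) '' {F | F.Finite ∧ F ⊆ 𝓠}
  let 𝓠₂ : Set (Set X) := (fun F : Set (Set X) => ⋃₀ F) '' {F | F.Finite ∧ F ⊆ 𝓠₁}
  have h𝓠₁ : 𝓠₁.Countable := (countable_ofPred_finite_subset hc).image _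
  have h𝓠₂ : 𝓠₂.Countable := (countable_ofPred_finite_subset h𝓠₁).image _
  refine ⟨𝓠₂, h𝓠₂, fun K U hK hU hKU => ?_⟩
  -- local claim
  have hloc : ∀ x ∈ K, ∃ C : Set X, C ∈ 𝓝[K] x ∧ ∃ P ∈ 𝓠₁, C ⊆ P ∧ P ⊆ U := by
    intro x hx
    have hb : IsTopologicalBasis ((fun f => ⋂₀ f) '' { f : Set (Set X) | f.Finite ∧ f ⊆ S }) :=
      isTopologicalBasis_of_subbasis hS
    obtain ⟨_, ⟨F, ⟨hF, hFS⟩, rfl⟩, hxF, hFU⟩ := hb.exists_subset_of_mem_open (hKU hx) hU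
    have hFo : IsOpen (⋂₀ F) := hb.isOpen ⟨F, ⟨hF, hFS⟩, rfl⟩
    -- compact neighbourhood of `x` in `K` inside `⋂₀ F`
    haveI : CompactSpace K := isCompact_iff_compactSpace.1 hK
    obtain ⟨C, hCn, hCc, hCs⟩ := exists_mem_nhds_isClosed_subset
      ((hFo.preimage continuous_subtype_val).mem_nhds (show (⟨x, hx⟩ : K) ∈ _ from hxF))
    have hCk : IsCompact (Subtype.val '' C : Set X) := hCc.isCompact.image continuous_subtype_val
    have hCF : Subtype.val '' C ⊆ ⋂₀ F := image_subset_iff.2 hCs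
    choose! Q hQ1 hQ2 hQ3 using fun (s : Set X) (hs : s ∈ F) =>
      h (Subtype.val '' C) s (hFS hs) hCk (hCF.trans (sInter_subset_of_mem hs))
    refine ⟨Subtype.val '' C, ?_, ⋂₀ (Q '' F), ⟨Q '' F, ⟨hF.image Q, ?_⟩, rfl⟩, ?_, ?_⟩
    · rw [nhdsWithin_eq_map_subtype_coe hx]
      exact image_mem_map hCn
    · rintro _ ⟨s, hs, rfl⟩
      exact hQ1 s hs
    · rw [subset_sInter_iff]
      rintro _ ⟨s, hs, rfl⟩
      exact hQ2 s hs
    · refine Subset.trans ?_ hFU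
      rw [subset_sInter_iff]
      intro s hs
      exact (sInter_subset_of_mem (mem_image_of_mem Q hs)).trans (hQ3 s hs)
  choose! C hC1 P hP hCP hPU using hloc
  obtain ⟨T, hTK, hT⟩ := hK.elim_nhdsWithin_subcover C hC1
  refine ⟨⋃₀ (P '' T), ⟨P '' T, ⟨T.finite_toSet.image P, ?_⟩, rfl⟩, ?_, ?_⟩
  · rintro _ ⟨x, hx, rfl⟩
    exact hP x (hTK x hx)
  · intro y hy
    obtain ⟨x, hx, hyx⟩ := mem_iUnion₂.1 (hT hy)
    exact ⟨P x, ⟨x, hx, rfl⟩, hCP x (hTK x hx) hyx⟩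
  · rw [sUnion_subset_iff]
    rintro _ ⟨x, hx, rfl⟩
    exact hPU x (hTK x hx)

theorem HasPB.of_secondCountable (X : Type u) [TopologicalSpace X] [T2Space X]
    [SecondCountableTopology X] : HasPB X := by
  have hb := isBasis_countableBasis X
  exact HasPB.of_subbase (countableBasis X) hb.eq_generateFrom (countableBasis X)
    (countable_countableBasis X) (fun K U hU _ hKU => ⟨U, hU, hKU, Subset.rfl⟩)

theorem HasPB.sigma {ι : Type u} [Countable ι] (X : ι → Type v) [∀ i, TopologicalSpace (X i)]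
    [∀ i, T2Space (X i)] (h : ∀ i, HasPB (X i)) : HasPB (Σ i, X i) := by
  choose 𝓠 hc h𝓠 using h
  refine HasPB.of_subbase {U | ∃ i, ∃ V : Set (X i), IsOpen V ∧ U = Sigma.mk i '' V} ?_
    (⋃ i, (fun P => Sigma.mk i '' P) '' 𝓠 i) (countable_iUnion fun i => (hc i).image _) ?_
  · apply le_antisymm
    · rw [le_generateFrom_iff_subset_isOpen]
      rintro _ ⟨i, V, hV, rfl⟩
      exact isOpenMap_sigmaMk _ hV
    · intro U hU
      have h1 : U = ⋃ i, Sigma.mk i '' (Sigma.mk i ⁻¹' U) := by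
        ext ⟨i, x⟩
        simp only [mem_iUnion, mem_image, mem_preimage]
        constructor
        · intro h
          exact ⟨i, x, h, rfl⟩
        · rintro ⟨j, y, hy, hyx⟩
          rw [← hyx]
          exact hy
      rw [h1]
      refine @isOpen_iUnion _ _ (generateFrom _) _ fun i => ?_
      exact isOpen_generateFrom_of_mem ⟨i, _, isOpen_sigma_iff.1 hU i, rfl⟩
  · rintro K _ ⟨i, V, hV, rfl⟩ hK hKV
    have h1 : IsCompact (Sigma.mk i ⁻¹' K : Set (X i)) :=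
      (IsClosedEmbedding.sigmaMk (σ := X)).isCompact_preimage hK
    have h2 : Sigma.mk i ⁻¹' K ⊆ V := by
      intro x hx
      obtain ⟨y, hy, hyx⟩ := hKV hx
      have : y = x := sigma_mk_injective hyx
      rwa [← this]
    obtain ⟨P, hP, hKP, hPV⟩ := h𝓠 i _ V h1 hV h2
    refine ⟨Sigma.mk i '' P, mem_iUnion.2 ⟨i, P, hP, rfl⟩, ?_, image_mono hPV⟩
    intro z hz
    obtain ⟨y, hy, rfl⟩ := hKV hz
    exact ⟨y, hKP hz, rfl⟩

theorem HasPB.pi {ι : Type u} [Countable ι] (X : ι → Type v) [∀ i, TopologicalSpace (X i)]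
    [∀ i, T2Space (X i)] (h : ∀ i, HasPB (X i)) : HasPB (∀ i, X i) := by
  choose 𝓠 hc h𝓠 using h
  refine HasPB.of_subbase {U | ∃ i, ∃ V : Set (X i), IsOpen V ∧ U = (fun x => x i) ⁻¹' V} ?_
    (⋃ i, (fun P => (fun x : ∀ i, X i => x i) ⁻¹' P) '' 𝓠 i)
    (countable_iUnion fun i => (hc i).image _) ?_
  · apply le_antisymm
    · rw [le_generateFrom_iff_subset_isOpen]
      rintro _ ⟨i, V, hV, rfl⟩
      exact hV.preimage (continuous_apply i)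
    · apply le_iInf
      intro i U hU
      obtain ⟨V, hV, rfl⟩ := isOpen_induced_iff.1 hU
      exact isOpen_generateFrom_of_mem ⟨i, V, hV, rfl⟩
  · rintro K _ ⟨i, V, hV, rfl⟩ hK hKV
    obtain ⟨P, hP, hKP, hPV⟩ := h𝓠 i _ V (hK.image (continuous_apply i)) hV
      (image_subset_iff.2 hKV)
    exact ⟨_, mem_iUnion.2 ⟨i, P, hP, rfl⟩, image_subset_iff.1 hKP, preimage_mono hPV⟩

/-- **Michael's theorem** -/
theorem HasPB.ck (X : Type u) (Y : Type v) [TopologicalSpace X] [TopologicalSpace Y] [T2Space X]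
    [T2Space Y]
    (hX : HasPB X) (hY : HasPB Y) : HasPB C(X, Y) := by
  classical
  obtain ⟨𝓠, h𝓠c, h𝓠⟩ := hX
  obtain ⟨𝓡, h𝓡c, h𝓡⟩ := hY
  let 𝓠₁ : Set (Set X) := (fun F : Set (Set X) => ⋂₀ F) '' {F | F.Finite ∧ F ⊆ 𝓠}
  have h𝓠₁ : 𝓠₁.Countable := (countable_ofPred_finite_subset h𝓠c).image _
  refine HasPB.of_subbase _ ContinuousMap.compactOpen_eq
    ((fun p : Set X × Set Y => {f : C(X, Y) | MapsTo f p.1 p.2}) '' (𝓠₁ ×ˢ 𝓡))
    ((h𝓠₁.prod h𝓡c).image _) ?_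
  rintro 𝒦 _ ⟨K, hK, U, hU, rfl⟩ h𝒦 h𝒦U
  -- it suffices to find `P ⊇ K` and `R ⊆ U` with `𝒦 ⊆ {f | MapsTo f P R}`
  suffices h : ∃ P ∈ 𝓠₁, ∃ R ∈ 𝓡, K ⊆ P ∧ R ⊆ U ∧ ∀ f ∈ 𝒦, MapsTo f P R by
    obtain ⟨P, hP, R, hR, hKP, hRU, hPR⟩ := h
    exact ⟨_, ⟨(P, R), ⟨hP, hR⟩, rfl⟩, hPR, fun f hf => hf.mono hKP hRU⟩
  by_contra hcon
  push Not at hcon
  -- enumerations
  have h𝓠K : {P ∈ 𝓠 | K ⊆ P}.Countable := h𝓠c.mono (sep_subset _ _)
  have h𝓡U : {R ∈ 𝓡 | R ⊆ U}.Countable := h𝓡c.mono (sep_subset _ _)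
  obtain ⟨P₀, hP₀, hKP₀, -⟩ := h𝓠 K univ hK isOpen_univ (subset_univ _)
  obtain ⟨p, hp⟩ := h𝓠K.exists_eq_range ⟨P₀, hP₀, hKP₀⟩
  obtain ⟨R₀, hR₀, -, hR₀U⟩ := h𝓡 ∅ U isCompact_empty hU (empty_subset _)
  obtain ⟨r, hr⟩ := h𝓡U.exists_eq_range ⟨R₀, hR₀, hR₀U⟩
  have hp' : ∀ i, p i ∈ 𝓠 ∧ K ⊆ p i := fun i => by
    have : p i ∈ {P ∈ 𝓠 | K ⊆ P} := by rw [hp]; exact ⟨i, rfl⟩
    exact this
  have hr' : ∀ i, r i ∈ 𝓡 ∧ r i ⊆ U := fun i => by
    have : r i ∈ {R ∈ 𝓡 | R ⊆ U} := by rw [hr]; exact ⟨i, rfl⟩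
    exact this
  let Pn : ℕ → Set X := fun n => ⋂₀ (p '' Iic n)
  have hPn : ∀ n, Pn n ∈ 𝓠₁ := fun n => ⟨p '' Iic n, ⟨(finite_Iic n).image p, by
    rintro _ ⟨i, -, rfl⟩
    exact (hp' i).1⟩, rfl⟩
  have hKPn : ∀ n, K ⊆ Pn n := by
    intro n
    rw [subset_sInter_iff]
    rintro _ ⟨i, -, rfl⟩
    exact (hp' i).2
  have hex : ∀ n i : ℕ, ∃ f ∈ 𝒦, ∃ x ∈ Pn n, f x ∉ r i := by
    intro n i
    obtain ⟨f, hf, hmt⟩ := hcon (Pn n) (hPn n) (r i) (hr' i).1 (hKPn n) (hr' i).2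
    unfold MapsTo at hmt
    push Not at hmt
    obtain ⟨x, hx, hfx⟩ := hmt
    exact ⟨f, hf, x, hx, hfx⟩
  choose f hf x hx hfx using hex
  -- every open `V ⊇ K` contains almost all `x n i`
  have hlarge : ∀ V : Set X, IsOpen V → K ⊆ V → ∃ m, ∀ n ≥ m, ∀ i, x n i ∈ V := by
    intro V hV hKV
    obtain ⟨P, hP, hKP, hPV⟩ := h𝓠 K V hK hV hKV
    obtain ⟨m, hm⟩ : P ∈ range p := by
      rw [← hp]
      exact ⟨hP, hKP⟩
    refine ⟨m, fun n hn i => hPV ?_⟩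
    rw [← hm]
    exact (sInter_subset_of_mem (mem_image_of_mem p (show m ∈ Iic n from hn))) (hx n i)
  -- compactness of K together with part of the sequence
  have hcomp : ∀ m, IsCompact (K ∪ {y | ∃ n ≥ m, ∃ i ≤ n, y = x n i}) := by
    intro m
    rw [isCompact_iff_finite_subcover]
    intro ι V hV hcov
    obtain ⟨t, ht⟩ := hK.elim_finite_subcover V hV (subset_union_left.trans hcov)
    obtain ⟨k, hk⟩ := hlarge _ (isOpen_biUnion fun i _ => hV i) ht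
    have hfin : {y | ∃ n ≥ m, n < k ∧ ∃ i ≤ n, y = x n i}.Finite := by
      refine ((finite_Iio k).biUnion (t := fun n => (fun i => x n i) '' Iic n)
        (fun n _ => (finite_Iic n).image _)).subset ?_
      rintro y ⟨n, -, hnk, i, hi, rfl⟩
      exact mem_biUnion hnk ⟨i, hi, rfl⟩
    obtain ⟨t', ht'⟩ := hfin.isCompact.elim_finite_subcover V hV (by
      refine Subset.trans ?_ hcov
      rintro y ⟨n, hn, -, i, hi, rfl⟩
      exact Or.inr ⟨n, hn, i, hi, rfl⟩)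
    refine ⟨t ∪ t', ?_⟩
    rintro y (hy | ⟨n, hn, i, hi, rfl⟩)
    · obtain ⟨j, hj, hyj⟩ := mem_iUnion₂.1 (ht hy)
      exact mem_iUnion₂.2 ⟨j, Finset.mem_union_left _ hj, hyj⟩
    · by_cases hnk : n < k
      · obtain ⟨j, hj, hyj⟩ := mem_iUnion₂.1 (ht' ⟨n, hn, hnk, i, hi, rfl⟩)
        exact mem_iUnion₂.2 ⟨j, Finset.mem_union_right _ hj, hyj⟩
      · obtain ⟨j, hj, hyj⟩ := mem_iUnion₂.1 (hk n (not_lt.1 hnk) i)
        exact mem_iUnion₂.2 ⟨j, Finset.mem_union_left _ hj, hyj⟩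
  -- the evaluation map on `K' × C(X, Y)`
  let K' : Set X := K ∪ {y | ∃ n ≥ 0, ∃ i ≤ n, y = x n i}
  haveI : CompactSpace K' := isCompact_iff_compactSpace.1 (hcomp 0)
  have hev : Continuous (fun q : K' × C(X, Y) => q.2 q.1) := by
    have h1 : Continuous (fun q : K' × C(X, Y) => (q.2.restrict K') q.1) := by
      have h2 : Continuous (fun q : K' × C(X, Y) => q.2.restrict K') :=
        (ContinuousMap.continuous_precomp (Z := Y)
          (⟨Subtype.val, continuous_subtype_val⟩ : C(K', X))).comp continuous_snd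
      exact h2.eval continuous_fst
    exact h1
  have hK₀ : IsCompact (Subtype.val ⁻¹' K : Set K') :=
    (hK.isClosed.preimage continuous_subtype_val).isCompact
  obtain ⟨V, V', hV, -, hKV, h𝒦V, hVV⟩ := generalized_tube_lemma hK₀ h𝒦
    (hU.preimage hev) (by
      rintro ⟨y, g⟩ ⟨hy, hg⟩
      exact h𝒦U hg hy)
  obtain ⟨O, hO, rfl⟩ := isOpen_induced_iff.1 hV
  obtain ⟨m, hm⟩ := hlarge O hO (fun y hy => hKV (show (⟨y, Or.inl hy⟩ : K') ∈ _ from hy))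
  have hKm := hcomp m
  have hL : IsCompact ((fun q : K' × C(X, Y) => q.2 q.1) ''
      ((Subtype.val ⁻¹' (K ∪ {y | ∃ n ≥ m, ∃ i ≤ n, y = x n i}) : Set K') ×ˢ 𝒦)) := by
    refine IsCompact.image ?_ hev
    exact (hKm.isClosed.preimage continuous_subtype_val).isCompact.prod h𝒦
  obtain ⟨R, hR, hLR, hRU⟩ := h𝓡 _ U hL hU (by
    rintro _ ⟨⟨⟨y, hy'⟩, g⟩, ⟨hy, hg⟩, rfl⟩
    have hg' : g ∈ V' := h𝒦V hg
    rcases hy with hy | ⟨n, hn, i, hi, hyn⟩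
    · exact h𝒦U hg hy
    · have h1 : (⟨y, hy'⟩ : K') ∈ (Subtype.val ⁻¹' O : Set K') := by
        show y ∈ O
        have hyn' : y = x n i := hyn
        rw [hyn']
        exact hm n hn i
      exact hVV (show ((⟨y, hy'⟩ : K'), g) ∈ _ from ⟨h1, hg'⟩))
  obtain ⟨j, hj⟩ : R ∈ range r := by
    rw [← hr]
    exact ⟨hR, hRU⟩
  have hmem : x (max m j) j ∈ K' := Or.inr ⟨max m j, Nat.zero_le _, j, le_max_right _ _, rfl⟩
  apply hfx (max m j) j
  rw [hj]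
  apply hLR
  exact ⟨(⟨x (max m j) j, hmem⟩, f (max m j) j), ⟨Or.inr ⟨max m j, le_max_left _ _, j,
    le_max_right _ _, rfl⟩, hf _ _⟩, rfl⟩

/-- the cardinality of a space with a countable pseudobase -/
theorem HasPB.card_le (X : Type u) [TopologicalSpace X] [T2Space X] (h : HasPB X) :
    Cardinal.mk X ≤ Cardinal.continuum := by
  classical
  obtain ⟨𝓠, hc, h𝓠⟩ := h
  haveI : Countable 𝓠 := hc.to_subtype
  let F : X → Set 𝓠 := fun x => {P | x ∈ (P : Set X)}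
  have hF : Function.Injective F := by
    intro x y hxy
    by_contra hne
    obtain ⟨P, hP, hxP, hPU⟩ := h𝓠 {x} {y}ᶜ isCompact_singleton isOpen_compl_singleton (by
      rw [singleton_subset_iff]
      exact hne)
    have h1 : (⟨P, hP⟩ : 𝓠) ∈ F x := hxP rfl
    rw [hxy] at h1
    exact hPU h1 rfl
  calc Cardinal.mk X ≤ Cardinal.mk (Set 𝓠) := Cardinal.mk_le_of_injective hF
    _ = 2 ^ Cardinal.mk 𝓠 := Cardinal.mk_set
    _ ≤ 2 ^ Cardinal.aleph0 := Cardinal.power_le_power_left two_ne_zero Cardinal.mk_le_aleph0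
    _ = Cardinal.continuum := Cardinal.two_power_aleph0

end Q176.PseudoBase
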