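import Mathlib

/-!
# Finite levels of the Borel hierarchy and a diagonal set
-/

namespace Q176.SigH

open Set Topology Filter

universe u

/-- `Sig k` is the class `Σ⁰_{k+1}`. -/
def Sig {Z : Type u} [TopologicalSpace Z] : ℕ → Set Z → Prop
  | 0, S => IsOpen S
  | k + 1, S => ∃ T : ℕ → Set Z, (∀ n, Sig k (T n)) ∧ S = ⋃ n, (T n)ᶜ

variable {Z : Type u} [TopologicalSpace Z]

theorem Sig.compl {k : ℕ} {S : Set Z} (h : Sig k S) : Sig (k + 1) Sᶜ :=
  ⟨fun _ => S, fun _ => h, by rw [iUnion_const]⟩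

theorem Sig.iUnion {k : ℕ} {S : ℕ → Set Z} (h : ∀ n, Sig k (S n)) : Sig k (⋃ n, S n) := by
  cases k with
  | zero => exact isOpen_iUnion h
  | succ k =>
    choose T hT hS using h
    refine ⟨fun p => T (Nat.unpair p).1 (Nat.unpair p).2, fun p => hT _ _, ?_⟩
    ext x
    simp only [mem_iUnion]
    constructor
    · rintro ⟨n, hn⟩
      rw [hS n] at hn
      obtain ⟨m, hm⟩ := mem_iUnion.1 hn
      refine ⟨Nat.pair n m, ?_⟩
      simpa using hm
    · rintro ⟨p, hp⟩
      refine ⟨(Nat.unpair p).1, ?_⟩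
      rw [hS]
      exact mem_iUnion.2 ⟨_, hp⟩

theorem sig_empty : ∀ k : ℕ, Sig k (∅ : Set Z) ∧ Sig k (univ : Set Z)
  | 0 => ⟨isOpen_empty, isOpen_univ⟩
  | k + 1 => by
    obtain ⟨h1, h2⟩ := sig_empty k
    refine ⟨?_, ?_⟩
    · have := h2.compl
      rwa [compl_univ] at this
    · have := h1.compl
      rwa [compl_empty] at this

theorem Sig.iUnion_countable {ι : Type} [Countable ι] {k : ℕ} {S : ι → Set Z}
    (h : ∀ i, Sig k (S i)) : Sig k (⋃ i, S i) := by
  rcases isEmpty_or_nonempty ι with hι | hι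
  · rw [iUnion_of_empty]
    exact (sig_empty k).1
  · obtain ⟨e, he⟩ := exists_surjective_nat ι
    rw [← he.iUnion_comp]
    exact Sig.iUnion fun n => h _

theorem Sig.union {k : ℕ} {S S' : Set Z} (h : Sig k S) (h' : Sig k S') : Sig k (S ∪ S') := by
  rw [union_eq_iUnion]
  exact Sig.iUnion_countable fun b => by cases b <;> assumption

theorem Sig.inter : ∀ {k : ℕ} {S S' : Set Z}, Sig k S → Sig k S' → Sig k (S ∩ S')
  | 0, _, _, h, h' => IsOpen.inter h h'
  | k + 1, S, S', h, h' => by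
    obtain ⟨T, hT, rfl⟩ := h
    obtain ⟨T', hT', rfl⟩ := h'
    refine ⟨fun p => T (Nat.unpair p).1 ∪ T' (Nat.unpair p).2, fun p => (hT _).union (hT' _), ?_⟩
    ext x
    simp only [mem_inter_iff, mem_iUnion, mem_compl_iff, mem_union, not_or]
    constructor
    · rintro ⟨⟨n, hn⟩, ⟨m, hm⟩⟩
      refine ⟨Nat.pair n m, ?_⟩
      simpa using ⟨hn, hm⟩
    · rintro ⟨p, hp1, hp2⟩
      exact ⟨⟨_, hp1⟩, ⟨_, hp2⟩⟩

theorem Sig.biInter {ι : Type} {k : ℕ} (F : Finset ι) {S : ι → Set Z} (h : ∀ i ∈ F, Sig k (S i)) :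
    Sig k (⋂ i ∈ F, S i) := by
  classical
  induction F using Finset.induction_on with
  | empty =>
    simp only [Finset.notMem_empty, iInter_of_empty, iInter_univ]
    exact (sig_empty k).2
  | @insert a F ha ih =>
    rw [Finset.set_biInter_insert]
    exact (h a (Finset.mem_insert_self a F)).inter
      (ih fun i hi => h i (Finset.mem_insert_of_mem hi))

theorem Sig.succ [TopologicalSpace.MetrizableSpace Z] :
    ∀ {k : ℕ} {S : Set Z}, Sig k S → Sig (k + 1) S
  | 0, S, h => by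
    letI := TopologicalSpace.metrizableSpaceMetric Z
    have hS : IsOpen S := h
    obtain ⟨F, hF, -, hFU, -⟩ := hS.exists_iUnion_isClosed
    refine ⟨fun n => (F n)ᶜ, fun n => (hF n).isOpen_compl, ?_⟩
    simp only [compl_compl]
    exact hFU.symm
  | k + 1, S, h => by
    obtain ⟨T, hT, rfl⟩ := h
    exact ⟨T, fun n => (hT n).succ, rfl⟩

theorem Sig.mono [TopologicalSpace.MetrizableSpace Z] {k l : ℕ} (hkl : k ≤ l) {S : Set Z}
    (h : Sig k S) : Sig l S := by
  induction l, hkl using Nat.le_induction with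
  | base => exact h
  | succ l _ ih => exact ih.succ

/-- `g` is `Sig k`-measurable -/
def Meas (k : ℕ) (g : Z → ℝ) : Prop := ∀ V : Set ℝ, IsOpen V → Sig k (g ⁻¹' V)

theorem Meas.lim {k : ℕ} {g : ℕ → Z → ℝ} {g' : Z → ℝ} (h : ∀ n, Meas k (g n))
    (hlim : ∀ z, Tendsto (fun n => g n z) atTop (𝓝 (g' z))) : Meas (k + 1) g' := by
  intro V hV
  let ι : Type := {p : ℚ × ℚ // Icc (p.1 : ℝ) p.2 ⊆ V} × ℕ
  have h1 : g' ⁻¹' V = ⋃ i : ι, (⋃ j : {j : ℕ // i.2 ≤ j},
      g j.1 ⁻¹' (Icc (i.1.1.1 : ℝ) i.1.1.2)ᶜ)ᶜ := by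
    ext z
    simp only [mem_preimage, mem_iUnion, mem_compl_iff, not_exists, not_not]
    constructor
    · intro hz
      obtain ⟨ε, hε, hball⟩ := Metric.isOpen_iff.1 hV _ hz
      obtain ⟨a, ha1, ha2⟩ := exists_rat_btwn (show g' z - ε < g' z by linarith)
      obtain ⟨b, hb1, hb2⟩ := exists_rat_btwn (show g' z < g' z + ε by linarith)
      have hab : Icc (a : ℝ) b ⊆ V := by
        intro v hv
        apply hball
        rw [Metric.mem_ball, Real.dist_eq, abs_lt]
        constructor <;> linarith [hv.1, hv.2]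
      obtain ⟨N, hN⟩ := eventually_atTop.1 ((hlim z).eventually
        (Ioo_mem_nhds ha2 hb1))
      exact ⟨⟨⟨(a, b), hab⟩, N⟩, fun j => Ioo_subset_Icc_self (hN j.1 j.2)⟩
    · rintro ⟨⟨⟨⟨a, b⟩, hab⟩, N⟩, hN⟩
      apply hab
      apply isClosed_Icc.mem_of_tendsto (hlim z)
      filter_upwards [eventually_ge_atTop N] with n hn
      exact hN ⟨n, hn⟩
  rw [h1]
  apply Sig.iUnion_countable
  intro i
  apply Sig.compl
  apply Sig.iUnion_countable
  intro j
  exact h _ _ isClosed_Icc.isOpen_compl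

theorem Meas.of_continuous {g : Z → ℝ} (h : Continuous g) : Meas 0 g := fun _ hV => hV.preimage h

/-! ### The diagonal set -/

/-- the Baire space (indexed by finite sequences) -/
abbrev BS : Type := List ℕ → ℕ

/-- clopen cylinders -/
def cyl (s : Finset (List ℕ × ℕ)) : Set BS := {z | ∀ p ∈ s, z p.1 = p.2}

theorem isClopen_cyl (s : Finset (List ℕ × ℕ)) : IsClopen (cyl s) := by
  have h : cyl s = ⋂ p ∈ s, (fun z : BS => z p.1) ⁻¹' {p.2} := by
    ext z
    simp [cyl]
  rw [h]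
  exact isClopen_biInter_finset fun p _ => (isClopen_discrete _).preimage (continuous_apply _)

/-- enumeration of the cylinders (and the empty set) -/
def B (c : ℕ) : Set BS :=
  match (Encodable.decode c : Option (Finset (List ℕ × ℕ))) with
  | some s => cyl s
  | none => ∅

theorem isClopen_B (c : ℕ) : IsClopen (B c) := by
  unfold B
  split
  · exact isClopen_cyl _
  · exact isClopen_empty

theorem B_encode (s : Finset (List ℕ × ℕ)) : B (Encodable.encode s) = cyl s := by
  unfold B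
  rw [Encodable.encodek]

theorem exists_B {U : Set BS} (hU : IsOpen U) {z : BS} (hz : z ∈ U) : ∃ c, z ∈ B c ∧ B c ⊆ U := by
  classical
  obtain ⟨I, u, hu1, hu2⟩ := isOpen_pi_iff.1 hU z hz
  refine ⟨Encodable.encode (I.image fun l => (l, z l)), ?_, ?_⟩
  · rw [B_encode]
    intro p hp
    obtain ⟨l, -, rfl⟩ := Finset.mem_image.1 hp
    rfl
  · rw [B_encode]
    intro w hw
    apply hu2
    intro l hl
    have := hw (l, z l) (Finset.mem_image.2 ⟨l, hl, rfl⟩)
    simp only at this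
    rw [this]
    exact (hu1 l hl).2

theorem exists_B_empty : ∃ c, B c = ∅ := by
  refine ⟨Encodable.encode ({([], 0), ([], 1)} : Finset (List ℕ × ℕ)), ?_⟩
  rw [B_encode, eq_empty_iff_forall_notMem]
  intro z hz
  have h1 := hz ([], 0) (by simp)
  have h2 := hz ([], 1) (by simp)
  simp only at h1 h2
  omega

/-- alternating quantifiers -/
def V : ℕ → (List ℕ → ℕ) → BS → Prop
  | 0, β, x => x ∈ B (β [])
  | k + 1, β, x => ∀ n, ¬ V k (fun l => β (n :: l)) x

theorem exists_code : ∀ (k : ℕ) (S : Set BS), Sig k S → ∃ β : BS, ∀ x, x ∈ S ↔ ¬ V (k + 1) β x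
  | 0, S, h => by
    have hS : IsOpen S := h
    obtain ⟨c₀, hc₀⟩ := exists_B_empty
    have hc : {c | B c ⊆ S}.Countable := to_countable _
    obtain ⟨e, he⟩ := hc.exists_eq_range ⟨c₀, by
      show B c₀ ⊆ S
      rw [hc₀]
      exact empty_subset _⟩
    refine ⟨fun l => e (l.headD 0), fun x => ?_⟩
    have hV : V (0 + 1) (fun l => e (l.headD 0)) x ↔ ∀ n, ¬ x ∈ B (e n) := Iff.rfl
    rw [hV]
    push Not
    constructor
    · intro hx
      obtain ⟨c, hxc, hcS⟩ := exists_B hS hx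
      have : c ∈ {c | B c ⊆ S} := hcS
      rw [he] at this
      obtain ⟨n, rfl⟩ := this
      exact ⟨n, hxc⟩
    · rintro ⟨n, hn⟩
      have : e n ∈ {c | B c ⊆ S} := by
        rw [he]
        exact ⟨n, rfl⟩
      exact this hn
  | k + 1, S, h => by
    obtain ⟨T, hT, rfl⟩ := h
    choose β hβ using fun n => exists_code k (T n) (hT n)
    refine ⟨fun l => match l with | [] => 0 | n :: l => β n l, fun x => ?_⟩
    have hV : V (k + 1 + 1) (fun l => match l with | [] => 0 | n :: l => β n l) x ↔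
      ∀ n, ¬ V (k + 1) (β n) x := Iff.rfl
    rw [hV]
    push Not
    simp only [mem_iUnion, mem_compl_iff]
    refine exists_congr fun n => ?_
    rw [hβ n x, not_not]

/-- **Diagonal set.** -/
theorem not_sig_diag (k : ℕ) : ¬ Sig k {z : BS | V (k + 1) z z} := by
  intro h
  obtain ⟨β, hβ⟩ := exists_code k _ h
  have := hβ β
  simp only [Set.mem_ofPred_eq] at this
  tauto

/-! ### Bounded alternating quantifiers -/

/-- alternating quantifiers with bounds -/
def G : (List ℕ → Prop) → List ℕ∞ → Prop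
  | R, [] => R []
  | R, c :: cs => ∀ b : ℕ, (b : ℕ∞) ≤ c → ¬ G (fun l => R (b :: l)) cs

theorem V_iff_G (x : BS) : ∀ (m : ℕ) (β : List ℕ → ℕ),
    V m β x ↔ G (fun l => x ∈ B (β l)) (List.replicate m ⊤)
  | 0, β => Iff.rfl
  | m + 1, β => by
    rw [List.replicate_succ]
    show (∀ n, ¬ V m (fun l => β (n :: l)) x) ↔ ∀ b : ℕ, (b : ℕ∞) ≤ ⊤ → ¬ G _ _
    refine forall_congr' fun n => ?_
    rw [V_iff_G x m]
    simp

/-- one unbounded quantifier is the limit of the bounded ones -/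
theorem G_eventually : ∀ (pre : List ℕ) (post : List ℕ∞) (R : List ℕ → Prop),
    ∀ᶠ c : ℕ in atTop, (G R (pre.map (fun n : ℕ => (n : ℕ∞)) ++ (c : ℕ∞) :: post) ↔
      G R (pre.map (fun n : ℕ => (n : ℕ∞)) ++ ⊤ :: post))
  | [], post, R => by
    simp only [List.map_nil, List.nil_append]
    by_cases h : ∀ b : ℕ, ¬ G (fun l => R (b :: l)) post
    · refine Eventually.of_forall fun c => ?_
      exact ⟨fun _ b _ => h b, fun _ b _ => h b⟩
    · push Not at h
      obtain ⟨b, hb⟩ := h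
      filter_upwards [eventually_ge_atTop b] with c hc
      constructor
      · intro h'
        exact absurd hb (h' b (by exact_mod_cast hc))
      · intro h'
        exact absurd hb (h' b le_top)
  | a :: pre, post, R => by
    have h1 : ∀ᶠ c : ℕ in atTop, ∀ b ∈ Iic a,
        (G (fun l => R (b :: l)) (pre.map (fun n : ℕ => (n : ℕ∞)) ++ (c : ℕ∞) :: post) ↔
          G (fun l => R (b :: l)) (pre.map (fun n : ℕ => (n : ℕ∞)) ++ ⊤ :: post)) :=
      (finite_Iic a).eventually_all.2 fun b _ => G_eventually pre post _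
    filter_upwards [h1] with c hc
    simp only [List.map_cons, List.cons_append]
    show (∀ b : ℕ, (b : ℕ∞) ≤ (a : ℕ∞) → ¬ G _ _) ↔ ∀ b : ℕ, (b : ℕ∞) ≤ (a : ℕ∞) → ¬ G _ _
    refine forall_congr' fun b => ?_
    constructor
    · intro h hb
      rw [← hc b (by exact_mod_cast hb)]
      exact h hb
    · intro h hb
      rw [hc b (by exact_mod_cast hb)]
      exact h hb

/-- finite bounds give clopen sets -/
theorem isClopen_G {X : Type u} [TopologicalSpace X] :
    ∀ (pre : List ℕ) (R : X → List ℕ → Prop), (∀ l, IsClopen {x | R x l}) →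
      IsClopen {x | G (R x) (pre.map (fun n : ℕ => (n : ℕ∞)))}
  | [], R, h => h []
  | a :: pre, R, h => by
    have h1 : {x | G (R x) ((a :: pre).map (fun n : ℕ => (n : ℕ∞)))} =
        ⋂ b ∈ Iic a, {x | G (fun l => R x (b :: l)) (pre.map (fun n : ℕ => (n : ℕ∞)))}ᶜ := by
      ext x
      simp only [mem_iInter, mem_compl_iff, mem_Iic, Set.mem_ofPred_eq]
      show (∀ b : ℕ, (b : ℕ∞) ≤ (a : ℕ∞) → ¬ G _ _) ↔ _
      refine forall_congr' fun b => ?_
      rw [Nat.cast_le]
    rw [h1]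
    exact (finite_Iic a).isClopen_biInter fun b _ =>
      (isClopen_G pre (fun x l => R x (b :: l)) (fun l => h (b :: l))).compl

end Q176.SigH
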