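import Mathlib
import Pool.Agent.Q176.Sig

/-!
# Separately continuous functions on cubes: extension from a grid and factorization
-/

namespace Q176.SCube

open Set Topology Filter Q176.SigH

/-! ### Grid functions -/

theorem split_sorted : ∀ (L : List ℕ∞), L.Pairwise (· ≤ ·) → ∃ (pre : List ℕ) (j : ℕ),
    L = pre.map (fun n : ℕ => (n : ℕ∞)) ++ List.replicate j ⊤
  | [], _ => ⟨[], 0, rfl⟩
  | a :: L, h => by
    rw [List.pairwise_cons] at h
    obtain ⟨pre, j, hL⟩ := split_sorted L h.2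
    by_cases ha : a = ⊤
    · subst ha
      have : ∀ b ∈ L, b = ⊤ := fun b hb => top_le_iff.1 (h.1 b hb)
      refine ⟨[], L.length + 1, ?_⟩
      rw [List.map_nil, List.nil_append, List.replicate_succ]
      congr 1
      exact List.eq_replicate_iff.2 ⟨rfl, this⟩
    · obtain ⟨n, rfl⟩ := ENat.ne_top_iff_exists.1 ha
      refine ⟨n :: pre, j, ?_⟩
      rw [List.map_cons, List.cons_append, ← hL]

/-- the symmetric grid function attached to a predicate on finite sequences -/
def FR (m : ℕ) (R : List ℕ → Prop) (k : Fin m → ℕ∞) : Prop :=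
  G R (Multiset.sort (Multiset.map k Finset.univ.val))

theorem map_update {m : ℕ} (k : Fin m → ℕ∞) (i : Fin m) (c : ℕ∞) :
    Multiset.map (Function.update k i c) Finset.univ.val =
      c ::ₘ Multiset.map k (Finset.univ.erase i).val := by
  have h1 : (Finset.univ : Finset (Fin m)) = insert i (Finset.univ.erase i) := by
    rw [Finset.insert_erase (Finset.mem_univ i)]
  conv_lhs => rw [h1]
  rw [Finset.insert_val_of_notMem (Finset.notMem_erase i _), Multiset.map_cons,
    Function.update_self]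
  congr 1
  apply Multiset.map_congr rfl
  intro j hj
  have : j ≠ i := Finset.ne_of_mem_erase (show j ∈ Finset.univ.erase i from hj)
  rw [Function.update_of_ne this]

theorem FR_eventually {m : ℕ} (R : List ℕ → Prop) (i : Fin m) (k : Fin m → ℕ∞) :
    ∀ᶠ c : ℕ in atTop, (FR m R (Function.update k i c) ↔ FR m R (Function.update k i ⊤)) := by
  set M := Multiset.map k (Finset.univ.erase i).val with hM
  obtain ⟨pre, j, hL⟩ := split_sorted (Multiset.sort M) (Multiset.pairwise_sort _ _)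
  have key : ∀ c : ℕ∞, (∀ b ∈ pre, (b : ℕ∞) ≤ c) → Multiset.sort (c ::ₘ M) =
      pre.map (fun n : ℕ => (n : ℕ∞)) ++ c :: List.replicate j ⊤ := by
    intro c hc
    apply List.Perm.eq_of_pairwise' (r := (· ≤ ·)) (Multiset.pairwise_sort _ _)
    · have h1 : (Multiset.sort M).Pairwise (· ≤ ·) := Multiset.pairwise_sort _ _
      rw [hL, List.pairwise_append] at h1
      rw [List.pairwise_append]
      refine ⟨h1.1, ?_, ?_⟩
      · rw [List.pairwise_cons]
        refine ⟨fun b hb => ?_, h1.2.1⟩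
        rw [List.eq_of_mem_replicate hb]
        exact le_top
      · intro a ha b hb
        rcases List.mem_cons.1 hb with rfl | hb
        · obtain ⟨n, hn, rfl⟩ := List.mem_map.1 ha
          exact hc n hn
        · rw [List.eq_of_mem_replicate hb]
          exact le_top
    · refine List.Perm.trans ?_ List.perm_middle.symm
      rw [← hL]
      apply Multiset.coe_eq_coe.1
      rw [Multiset.sort_eq, ← Multiset.cons_coe, Multiset.sort_eq]
  have h2 : ∀ᶠ c : ℕ in atTop, ∀ b ∈ pre, b ≤ c := by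
    filter_upwards [eventually_ge_atTop pre.sum] with c hc b hb
    exact (List.le_sum_of_mem hb).trans hc
  filter_upwards [h2, G_eventually pre (List.replicate j ⊤) R] with c hc1 hc2
  unfold FR
  rw [map_update, map_update, ← hM, key c (fun b hb => by exact_mod_cast hc1 b hb),
    key ⊤ (fun b _ => le_top)]
  exact hc2

theorem FR_top {m : ℕ} (R : List ℕ → Prop) :
    FR m R (fun _ => ⊤) ↔ G R (List.replicate m ⊤) := by
  unfold FR
  have : Multiset.map (fun _ : Fin m => (⊤ : ℕ∞)) Finset.univ.val = Multiset.replicate m ⊤ := by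
    rw [Multiset.map_const']
    simp
  rw [this]
  have h2 : Multiset.sort (Multiset.replicate m (⊤ : ℕ∞)) = List.replicate m ⊤ := by
    rw [List.eq_replicate_iff]
    refine ⟨by rw [Multiset.length_sort, Multiset.card_replicate], fun b hb => ?_⟩
    rw [Multiset.mem_sort] at hb
    exact Multiset.eq_of_mem_replicate hb
  rw [h2]

theorem FR_clopen {X : Type} [TopologicalSpace X] {m : ℕ} (R : X → List ℕ → Prop)
    (h : ∀ l, IsClopen {x | R x l}) (k : Fin m → ℕ∞) (hk : ∀ i, k i ≠ ⊤) :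
    IsClopen {x | FR m (R x) k} := by
  obtain ⟨pre, j, hL⟩ := split_sorted (Multiset.sort (Multiset.map k Finset.univ.val))
    (Multiset.pairwise_sort _ _)
  have hj : j = 0 := by
    by_contra hj
    have : ⊤ ∈ Multiset.sort (Multiset.map k Finset.univ.val) := by
      rw [hL]
      exact List.mem_append_right _ (List.mem_replicate.2 ⟨hj, rfl⟩)
    rw [Multiset.mem_sort, Multiset.mem_map] at this
    obtain ⟨i, -, hi⟩ := this
    exact hk i hi
  subst hj
  rw [List.replicate_zero, List.append_nil] at hL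
  unfold FR
  rw [hL]
  exact isClopen_G pre R h

/-! ### One-dimensional interpolation -/

/-- the unit interval -/
abbrev I : Type := unitInterval

open Classical in
/-- grid indices used at `t` (base point `x`) -/
noncomputable def idx (x t : I) (b : Bool) : ℕ∞ :=
  if t = x then ⊤ else ((⌊1 / |(t : ℝ) - x|⌋₊ + b.toNat : ℕ) : ℕ∞)

open Classical in
/-- weights -/
noncomputable def wt (x t : I) (b : Bool) : ℝ :=
  if t = x then (if b then 0 else 1)
  else (if b then 1 / |(t : ℝ) - x| - ⌊1 / |(t : ℝ) - x|⌋₊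
    else 1 - (1 / |(t : ℝ) - x| - ⌊1 / |(t : ℝ) - x|⌋₊))

/-- interpolation -/
noncomputable def lam (x : I) (φ : ℕ∞ → ℝ) (t : I) : ℝ :=
  wt x t false * φ (idx x t false) + wt x t true * φ (idx x t true)

theorem psi_eq (φ : ℕ → ℝ) {s : ℝ} (hs : 0 ≤ s) : ∀ N : ℕ, s < N →
    (1 - (s - ⌊s⌋₊)) * φ ⌊s⌋₊ + (s - ⌊s⌋₊) * φ (⌊s⌋₊ + 1) =
      φ 0 + ∑ k ∈ Finset.range N, (φ (k + 1) - φ k) * max 0 (min 1 (s - k)) := by
  intro N hN
  have hfl : ⌊s⌋₊ + 1 ≤ N := (Nat.floor_lt hs).2 hN
  have h0 : (⌊s⌋₊ : ℝ) ≤ s := Nat.floor_le hs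
  have h1 : s < ⌊s⌋₊ + 1 := Nat.lt_floor_add_one s
  clear hN
  induction N, hfl using Nat.le_induction with
  | base =>
    rw [Finset.sum_range_succ]
    have h2 : ∑ k ∈ Finset.range ⌊s⌋₊, (φ (k + 1) - φ k) * max 0 (min 1 (s - k)) =
        ∑ k ∈ Finset.range ⌊s⌋₊, (φ (k + 1) - φ k) := by
      apply Finset.sum_congr rfl
      intro k hk
      have h3 : (k : ℝ) + 1 ≤ ⌊s⌋₊ := by exact_mod_cast Finset.mem_range.1 hk
      have h4 : max 0 (min 1 (s - k)) = 1 := by
        rw [min_eq_left (by linarith), max_eq_right zero_le_one]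
      rw [h4, mul_one]
    rw [h2, Finset.sum_range_sub]
    have h5 : max 0 (min 1 (s - ⌊s⌋₊)) = s - ⌊s⌋₊ := by
      rw [min_eq_right (by linarith), max_eq_right (by linarith)]
    rw [h5]
    ring
  | succ N hN ih =>
    rw [Finset.sum_range_succ, ih]
    have h3 : (⌊s⌋₊ : ℝ) + 1 ≤ N := by exact_mod_cast hN
    have h4 : max 0 (min 1 (s - N)) = 0 := by
      rw [min_eq_right (by linarith), max_eq_left (by linarith)]
    rw [h4]
    ring

theorem continuous_lam (x : I) (φ : ℕ∞ → ℝ)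
    (hφ : Tendsto (fun n : ℕ => φ n) atTop (𝓝 (φ ⊤))) : Continuous (lam x φ) := by
  rw [continuous_iff_continuousAt]
  intro t₀
  by_cases h : t₀ = x
  · subst h
    have h0 : lam t₀ φ t₀ = φ ⊤ := by simp [lam, wt, idx]
    rw [ContinuousAt, h0, Metric.tendsto_nhds]
    intro ε hε
    obtain ⟨N, hN⟩ := eventually_atTop.1 ((Metric.tendsto_nhds.1 hφ) (ε / 2) (half_pos hε))
    have h1 : ∀ᶠ t : I in 𝓝 t₀, |(t : ℝ) - t₀| < 1 / (N + 1) := by
      have : Tendsto (fun t : I => |(t : ℝ) - t₀|) (𝓝 t₀) (𝓝 |(t₀ : ℝ) - t₀|) := by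
        apply Continuous.tendsto
        fun_prop
      rw [sub_self, abs_zero] at this
      exact this.eventually (gt_mem_nhds (by positivity))
    filter_upwards [h1] with t ht
    by_cases htx : t = t₀
    · rw [htx, h0, dist_self]
      exact hε
    · have hpos : 0 < |(t : ℝ) - t₀| := abs_pos.2 (fun h => htx (Subtype.ext (sub_eq_zero.1 h)))
      set s : ℝ := 1 / |(t : ℝ) - t₀| with hs
      have hs1 : (N : ℝ) + 1 < s := by
        rw [hs, lt_div_iff₀ hpos]
        rw [lt_div_iff₀ (by positivity)] at ht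
        linarith
      have hs0 : 0 ≤ s := by positivity
      have hfl : N ≤ ⌊s⌋₊ := Nat.le_floor (by linarith)
      have hl0 : (⌊s⌋₊ : ℝ) ≤ s := Nat.floor_le hs0
      have hl1 : s < ⌊s⌋₊ + 1 := Nat.lt_floor_add_one s
      have e1 : lam t₀ φ t = (1 - (s - ⌊s⌋₊)) * φ (⌊s⌋₊ : ℕ) + (s - ⌊s⌋₊) * φ (⌊s⌋₊ + 1 : ℕ) := by
        simp only [lam, wt, idx, if_neg htx, Bool.false_eq_true, if_false, if_true,
          Bool.toNat_false, Bool.toNat_true, add_zero, ← hs]
      have d1 := hN _ hfl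
      have d2 := hN (⌊s⌋₊ + 1) (by omega)
      rw [Real.dist_eq] at d1 d2 ⊢
      rw [e1]
      have e2 : (1 - (s - ⌊s⌋₊)) * φ (⌊s⌋₊ : ℕ) + (s - ⌊s⌋₊) * φ (⌊s⌋₊ + 1 : ℕ) - φ ⊤ =
          (1 - (s - ⌊s⌋₊)) * (φ (⌊s⌋₊ : ℕ) - φ ⊤) + (s - ⌊s⌋₊) * (φ (⌊s⌋₊ + 1 : ℕ) - φ ⊤) := by
        ring
      rw [e2]
      calc |(1 - (s - ⌊s⌋₊)) * (φ (⌊s⌋₊ : ℕ) - φ ⊤) + (s - ⌊s⌋₊) * (φ (⌊s⌋₊ + 1 : ℕ) - φ ⊤)|
          ≤ |(1 - (s - ⌊s⌋₊)) * (φ (⌊s⌋₊ : ℕ) - φ ⊤)| +
            |(s - ⌊s⌋₊) * (φ (⌊s⌋₊ + 1 : ℕ) - φ ⊤)| := abs_add_le _ _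
        _ = (1 - (s - ⌊s⌋₊)) * |φ (⌊s⌋₊ : ℕ) - φ ⊤| + (s - ⌊s⌋₊) * |φ (⌊s⌋₊ + 1 : ℕ) - φ ⊤| := by
            rw [abs_mul, abs_mul, abs_of_nonneg (by linarith : 0 ≤ 1 - (s - (⌊s⌋₊ : ℝ))),
              abs_of_nonneg (by linarith : 0 ≤ s - (⌊s⌋₊ : ℝ))]
        _ ≤ (1 - (s - ⌊s⌋₊)) * (ε / 2) + (s - ⌊s⌋₊) * (ε / 2) := by
            have a1 : 0 ≤ 1 - (s - (⌊s⌋₊ : ℝ)) := by linarith
            have a2 : 0 ≤ s - (⌊s⌋₊ : ℝ) := by linarith
            gcongr
        _ = ε / 2 := by ring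
        _ < ε := half_lt_self hε
  · -- away from `x`
    let sf : I → ℝ := fun t => 1 / |(t : ℝ) - x|
    have hne : (t₀ : ℝ) - x ≠ 0 := fun h' => h (Subtype.ext (sub_eq_zero.1 h'))
    have hsf : ContinuousAt sf t₀ := by
      apply ContinuousAt.div continuousAt_const
      · apply Continuous.continuousAt
        fun_prop
      · exact abs_ne_zero.2 hne
    obtain ⟨N, hN⟩ := exists_nat_gt (sf t₀)
    have h1 : ∀ᶠ t : I in 𝓝 t₀, sf t < N := hsf.eventually (gt_mem_nhds hN)
    have h2 : ∀ᶠ t : I in 𝓝 t₀, t ≠ x := (isOpen_compl_singleton (x := x)).mem_nhds h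
    have h3 : ContinuousAt (fun t => φ (0 : ℕ) + ∑ k ∈ Finset.range N,
        (φ (k + 1 : ℕ) - φ (k : ℕ)) * max 0 (min 1 (sf t - k))) t₀ := by
      refine continuousAt_const.add (tendsto_finsetSum _ fun k _ => ?_)
      exact continuousAt_const.mul (continuousAt_const.max (continuousAt_const.min
        (hsf.sub continuousAt_const)))
    refine h3.congr ?_
    filter_upwards [h1, h2] with t ht1 ht2
    have hs0 : 0 ≤ sf t := by
      show 0 ≤ 1 / |(t : ℝ) - x|
      positivity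
    have := psi_eq (fun n : ℕ => φ (n : ℕ)) hs0 N ht1
    rw [← this]
    simp only [lam, wt, idx, if_neg ht2, Bool.false_eq_true, if_false, if_true,
      Bool.toNat_false, Bool.toNat_true, add_zero]
    rfl

/-! ### Multi-dimensional extension -/

/-- separately continuous functions on the cube -/
def SCfun {m : ℕ} (f : (Fin m → I) → ℝ) : Prop :=
  ∀ (i : Fin m) (x : Fin m → I), Continuous fun t => f (Function.update x i t)

/-- `SC_p([0,1]^m)` -/
abbrev SC (m : ℕ) : Type := {f : (Fin m → I) → ℝ // SCfun f}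

/-- separately continuous `{0,1}`-valued grid functions -/
def GridSC {m : ℕ} (F : (Fin m → ℕ∞) → Bool) : Prop :=
  ∀ (i : Fin m) (k : Fin m → ℕ∞), ∀ᶠ c : ℕ in atTop,
    F (Function.update k i c) = F (Function.update k i ⊤)

/-- numerical value -/
def val (b : Bool) : ℝ := if b then 1 else 0

/-- the extension of a grid function -/
noncomputable def ext {m : ℕ} (x : Fin m → I) (F : (Fin m → ℕ∞) → Bool) (t : Fin m → I) : ℝ :=
  ∑ e : Fin m → Bool, (∏ i, wt (x i) (t i) (e i)) * val (F fun i => idx (x i) (t i) (e i))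

theorem ext_SC {m : ℕ} (x : Fin m → I) {F : (Fin m → ℕ∞) → Bool} (hF : GridSC F) :
    SCfun (ext x F) := by
  intro i t
  -- grouping by flipping the `i`-th sign
  let flip : (Fin m → Bool) ≃ (Fin m → Bool) :=
    { toFun := fun e => Function.update e i (!(e i))
      invFun := fun e => Function.update e i (!(e i))
      left_inv := by
        intro e
        simp
      right_inv := by
        intro e
        simp }
  let g : I → (Fin m → Bool) → ℝ := fun τ e =>
    (∏ j, wt (x j) (Function.update t i τ j) (e j)) *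
      val (F fun j => idx (x j) (Function.update t i τ j) (e j))
  let φ : (Fin m → Bool) → ℕ∞ → ℝ := fun e k =>
    val (F (Function.update (fun j => idx (x j) (t j) (e j)) i k))
  let c : (Fin m → Bool) → ℝ := fun e => ∏ j ∈ Finset.univ.erase i, wt (x j) (t j) (e j)
  have hg : ∀ τ e, g τ e = c e * (wt (x i) τ (e i) * φ e (idx (x i) τ (e i))) := by
    intro τ e
    have h1 : (∏ j, wt (x j) (Function.update t i τ j) (e j)) = wt (x i) τ (e i) * c e := by
      rw [← Finset.mul_prod_erase Finset.univ _ (Finset.mem_univ i), Function.update_self]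
      congr 1
      apply Finset.prod_congr rfl
      intro j hj
      rw [Function.update_of_ne (Finset.ne_of_mem_erase hj)]
    have h2 : (fun j => idx (x j) (Function.update t i τ j) (e j)) =
        Function.update (fun j => idx (x j) (t j) (e j)) i (idx (x i) τ (e i)) := by
      funext j
      by_cases hj : j = i
      · subst hj
        simp
      · simp [Function.update_of_ne hj]
    simp only [g, φ]
    rw [h1, h2]
    ring
  have hφflip : ∀ e, φ (flip e) = φ e := by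
    intro e
    funext k
    simp only [φ]
    congr 2
    funext j
    by_cases hj : j = i
    · subst hj
      simp
    · simp [Function.update_of_ne hj, flip]
  have hcflip : ∀ e, c (flip e) = c e := by
    intro e
    apply Finset.prod_congr rfl
    intro j hj
    have : flip e j = e j := Function.update_of_ne (Finset.ne_of_mem_erase hj) _ _
    rw [this]
  have hpair : ∀ τ e, g τ e + g τ (flip e) = c e * lam (x i) (φ e) τ := by
    intro τ e
    rw [hg, hg, hφflip, hcflip]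
    have : flip e i = !(e i) := Function.update_self _ _ _
    rw [this]
    unfold lam
    cases e i <;> simp only [Bool.not_false, Bool.not_true] <;> ring
  have hsum : ∀ τ, ext x F (Function.update t i τ) = (1 / 2) * ∑ e, c e * lam (x i) (φ e) τ := by
    intro τ
    have h1 : ext x F (Function.update t i τ) = ∑ e, g τ e := rfl
    have h2 : ∑ e, g τ (flip e) = ∑ e, g τ e := Equiv.sum_comp flip (g τ)
    simp_rw [← hpair]
    rw [Finset.sum_add_distrib, h2, h1]
    ring
  simp_rw [hsum]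
  refine continuous_const.mul (continuous_finsetSum _ fun e _ => continuous_const.mul ?_)
  apply continuous_lam
  apply tendsto_const_nhds.congr'
  filter_upwards [hF i (fun j => idx (x j) (t j) (e j))] with n hn
  simp only [φ]
  rw [hn]

theorem ext_self {m : ℕ} (x : Fin m → I) (F : (Fin m → ℕ∞) → Bool) :
    ext x F x = val (F fun _ => ⊤) := by
  unfold ext
  rw [Fintype.sum_eq_single (fun _ => false)]
  · simp [wt, idx]
  · intro e he
    obtain ⟨i, hi⟩ := Function.ne_iff.1 he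
    have : e i = true := by
      cases h : e i
      · exact absurd h hi
      · rfl
    rw [Finset.prod_eq_zero (Finset.mem_univ i), zero_mul]
    simp [wt, this]

theorem idx_ne_top {x t : I} (h : t ≠ x) (b : Bool) : idx x t b ≠ ⊤ := by
  unfold idx
  rw [if_neg h]
  exact ENat.natCast_ne_top _

theorem continuous_ext {X : Type} [TopologicalSpace X] {m : ℕ} (x : Fin m → I)
    (F : X → (Fin m → ℕ∞) → Bool) (t : Fin m → I)
    (h : ∀ e : Fin m → Bool, Continuous fun z => F z fun i => idx (x i) (t i) (e i)) :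
    Continuous fun z => ext x (F z) t := by
  unfold ext
  refine continuous_finsetSum _ fun e _ => continuous_const.mul ?_
  exact (continuous_of_discreteTopology (f := val)).comp (h e)

/-! ### Factorization -/

theorem exists_nhd {m : ℕ} {O : Set (SC m)} (hO : IsOpen O) {f : SC m} (hf : f ∈ O) :
    ∃ F : Finset (Fin m → I), ∃ δ > 0, ∀ g : SC m, (∀ a ∈ F, |g.1 a - f.1 a| < δ) → g ∈ O := by
  obtain ⟨O', hO', rfl⟩ := isOpen_induced_iff.1 hO
  obtain ⟨F, u, hu1, hu2⟩ := isOpen_pi_iff.1 hO' _ hf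
  have h1 : ∀ᶠ δ : ℝ in 𝓝[>] 0, ∀ a ∈ (F : Set (Fin m → I)), Metric.ball (f.1 a) δ ⊆ u a := by
    apply F.finite_toSet.eventually_all.2
    intro a ha
    obtain ⟨ε, hε, hball⟩ := Metric.isOpen_iff.1 (hu1 a ha).1 _ (hu1 a ha).2
    filter_upwards [Ioo_mem_nhdsGT hε] with δ hδ
    exact (Metric.ball_subset_ball hδ.2.le).trans hball
  obtain ⟨δ, hδ, hδ0⟩ := (h1.and self_mem_nhdsWithin).exists
  refine ⟨F, δ, hδ0, fun g hg => hu2 fun a ha => hδ a ha ?_⟩
  rw [Metric.mem_ball, Real.dist_eq]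
  exact hg a ha

theorem isOpen_box {m : ℕ} (F : Finset (Fin m → I)) (f : SC m) (δ : ℝ) :
    IsOpen {g : SC m | ∀ a ∈ F, |g.1 a - f.1 a| < δ} := by
  have : {g : SC m | ∀ a ∈ F, |g.1 a - f.1 a| < δ} =
      ⋂ a ∈ F, {g : SC m | |g.1 a - f.1 a| < δ} := by
    ext g
    simp
  rw [this]
  refine isOpen_biInter_finset fun a _ => isOpen_lt ?_ continuous_const
  exact (((continuous_apply a).comp continuous_subtype_val).sub continuous_const).abs

theorem exists_dense (m : ℕ) : ∃ Q : ℕ → SC m, ∀ (v : (Fin m → I) → ℝ)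
    (F : Finset (Fin m → I)) (δ : ℝ), 0 < δ → ∃ j, ∀ a ∈ F, |(Q j).1 a - v a| < δ := by
  classical
  let q : ℕ → C(Fin m → I, ℝ) := TopologicalSpace.denseSeq _
  refine ⟨fun j => ⟨q j, fun i x => (q j).continuous.comp (continuous_const.update i
    continuous_id)⟩, fun v F δ hδ => ?_⟩
  obtain ⟨g, hg⟩ := ContinuousMap.exists_restrict_eq (F.finite_toSet.isClosed)
    (⟨fun a => v a, continuous_of_discreteTopology⟩ : C((F : Set (Fin m → I)), ℝ))
  obtain ⟨j, hj⟩ := (TopologicalSpace.denseRange_denseSeq C(Fin m → I, ℝ)).exists_dist_lt g hδ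
  refine ⟨j, fun a ha => ?_⟩
  have h1 : g a = v a := by
    have := congrArg (fun h : C((F : Set (Fin m → I)), ℝ) => h ⟨a, ha⟩) hg
    exact this
  rw [← h1, ← Real.dist_eq, dist_comm]
  exact (ContinuousMap.dist_apply_le_dist a).trans_lt hj

theorem half {m : ℕ} (φ : SC m → ℝ) (hφ : Continuous φ) : ∃ A : Set (Fin m → I), A.Countable ∧
    ∀ (f : SC m) (r : ℚ), φ f < r → ∃ F : Finset (Fin m → I), ↑F ⊆ A ∧ ∃ δ > 0,
      ∀ g : SC m, (∀ a ∈ F, |g.1 a - f.1 a| < δ) → φ g ≤ r := by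
  classical
  obtain ⟨Q, hQ⟩ := exists_dense m
  have h1 : ∀ p : ℚ × ℕ, ∃ F : Finset (Fin m → I), ∃ δ > 0, ((p.1 : ℝ) < φ (Q p.2) →
      ∀ g : SC m, (∀ a ∈ F, |g.1 a - (Q p.2).1 a| < δ) → (p.1 : ℝ) < φ g) := by
    intro p
    by_cases h : (p.1 : ℝ) < φ (Q p.2)
    · obtain ⟨F, δ, hδ, hF⟩ := exists_nhd (isOpen_Ioi.preimage hφ) (f := Q p.2)
        (show φ (Q p.2) ∈ Ioi (p.1 : ℝ) from h)
      exact ⟨F, δ, hδ, fun _ => hF⟩
    · exact ⟨∅, 1, one_pos, fun h' => absurd h' h⟩
  choose F δ hδ hF using h1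
  refine ⟨⋃ p, (F p : Set (Fin m → I)), countable_iUnion fun p => (F p).countable_toSet, ?_⟩
  set A : Set (Fin m → I) := ⋃ p, (F p : Set (Fin m → I)) with hA
  intro f r hfr
  obtain ⟨F₀, ε₀, hε₀, hF₀⟩ := exists_nhd (isOpen_Iio.preimage hφ) (f := f)
    (show φ f ∈ Iio (r : ℝ) from hfr)
  refine ⟨F₀.filter (fun a => a ∈ A), fun a ha => (Finset.mem_filter.1 ha).2, ε₀ / 2,
    half_pos hε₀, fun g hg => ?_⟩
  by_contra hcon
  push Not at hcon
  -- a dense point
  obtain ⟨F₁, δ₁, hδ₁, hF₁⟩ := exists_nhd ((isOpen_Ioi.preimage hφ).inter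
    (isOpen_box (F₀.filter (fun a => a ∈ A)) f (ε₀ / 2))) (f := g) ⟨hcon, hg⟩
  obtain ⟨j, hj⟩ := hQ g.1 F₁ δ₁ hδ₁
  obtain ⟨hj1, hj2⟩ := hF₁ (Q j) hj
  have hj1' : (r : ℝ) < φ (Q j) := hj1
  let v : (Fin m → I) → ℝ := fun a => if a ∈ A then (Q j).1 a else f.1 a
  obtain ⟨l, hl⟩ := hQ v (F (r, j) ∪ F₀) (min (δ (r, j)) (ε₀ / 2))
    (lt_min (hδ _) (half_pos hε₀))
  have h2 : (r : ℝ) < φ (Q l) := by
    apply hF (r, j) hj1'
    intro a ha
    have h3 := hl a (Finset.mem_union_left _ ha)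
    have h4 : a ∈ A := mem_iUnion.2 ⟨(r, j), ha⟩
    simp only [v, if_pos h4] at h3
    exact h3.trans_le (min_le_left _ _)
  have h5 : φ (Q l) < r := by
    apply hF₀
    intro a ha
    have h3 := (hl a (Finset.mem_union_right _ ha)).trans_le (min_le_right _ _)
    by_cases h4 : a ∈ A
    · simp only [v, if_pos h4] at h3
      have h6 := hj2 a (Finset.mem_filter.2 ⟨ha, h4⟩)
      have h7 : (Q l).1 a - f.1 a = ((Q l).1 a - (Q j).1 a) + ((Q j).1 a - f.1 a) := by ring
      rw [h7]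
      refine (abs_add_le _ _).trans_lt ?_
      linarith
    · simp only [v, if_neg h4] at h3
      linarith
  exact absurd h2 (not_lt.2 h5.le)

theorem factor {m : ℕ} (φ : SC m → ℝ) (hφ : Continuous φ) : ∃ A : Set (Fin m → I), A.Countable ∧
    ∀ (f : SC m) (ε : ℝ), 0 < ε → ∃ F : Finset (Fin m → I), ↑F ⊆ A ∧ ∃ δ > 0,
      ∀ g : SC m, (∀ a ∈ F, |g.1 a - f.1 a| < δ) → |φ g - φ f| < ε := by
  classical
  obtain ⟨A, hA, h1⟩ := half φ hφ
  obtain ⟨A', hA', h2⟩ := half (fun f => -φ f) hφ.neg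
  refine ⟨A ∪ A', hA.union hA', fun f ε hε => ?_⟩
  obtain ⟨r, hr1, hr2⟩ := exists_rat_btwn (show φ f < φ f + ε by linarith)
  obtain ⟨r', hr1', hr2'⟩ := exists_rat_btwn (show -φ f < -φ f + ε by linarith)
  obtain ⟨F, hF, δ, hδ, h3⟩ := h1 f r hr1
  obtain ⟨F', hF', δ', hδ', h3'⟩ := h2 f r' hr1'
  refine ⟨F ∪ F', ?_, min δ δ', lt_min hδ hδ', fun g hg => ?_⟩
  · rw [Finset.coe_union]
    exact union_subset_union hF hF'
  · have e1 := h3 g fun a ha => (hg a (Finset.mem_union_left _ ha)).trans_le (min_le_left _ _)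
    have e2 := h3' g fun a ha => (hg a (Finset.mem_union_right _ ha)).trans_le (min_le_right _ _)
    rw [abs_lt]
    constructor <;> linarith

end Q176.SCube
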