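import Mathlib

/-!
# Spaces of separately continuous functions: cross-open and cross-uniform topologies

For separable metrizable-like spaces `X`, `Y` the evaluation at the points of a countable dense
set `D × E` is a continuous injection of `S_cro(X × Y)` and of `S_cru(X × Y)` into `ℝ^(D × E)`.
Hence every compact subspace is metrizable.
-/

namespace Q176.SepCont

open Set Topology Filter

universe u v

variable (X : Type u) (Y : Type v) [TopologicalSpace X] [TopologicalSpace Y]

/-- `f : X × Y → ℝ` is separately continuous. -/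
def SepCont (f : X × Y → ℝ) : Prop :=
  (∀ x : X, Continuous fun y : Y => f (x, y)) ∧ (∀ y : Y, Continuous fun x : X => f (x, y))

/-- The cross `cr{c} = (X × {b}) ∪ ({a} × Y)` of the point `c = (a, b)`. -/
def cross {X : Type u} {Y : Type v} (c : X × Y) : Set (X × Y) :=
  (univ ×ˢ {c.2}) ∪ ({c.1} ×ˢ univ)

/-- The space `S_cro(X × Y)`: separately continuous functions, cross-open topology. -/
def Scro : Type (max u v) := {f : X × Y → ℝ // SepCont X Y f}

/-- The space `S_cru(X × Y)`: separately continuous functions, cross-uniform topology. -/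
def Scru : Type (max u v) := {f : X × Y → ℝ // SepCont X Y f}

/-- The cross-open topology is generated by the sets `{s : s(A) ⊆ W}`, where `W ⊆ ℝ` is open and
`A = closure G ∩ C` with `C = cr{c}` for some `c` and `G` relatively open in `C`. -/
instance : TopologicalSpace (Scro X Y) :=
  TopologicalSpace.generateFrom
    {U | ∃ (c : X × Y) (O : Set (X × Y)) (W : Set ℝ), IsOpen O ∧ IsOpen W ∧
      U = {s : Scro X Y | s.1 '' (closure (O ∩ cross c) ∩ cross c) ⊆ W}}

/-- The cross-uniform topology: `U` is open iff for every `s ∈ U` there are finitely many points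
`c₁, …, cₙ` and `ε > 0` such that every `t` with `|s(q) - t(q)| < ε` for all `q` in the crosses of
`c₁, …, cₙ` belongs to `U`. -/
instance : TopologicalSpace (Scru X Y) where
  IsOpen U := ∀ s ∈ U, ∃ F : Finset (X × Y), ∃ ε > (0 : ℝ), ∀ t : Scru X Y,
    (∀ c ∈ F, ∀ q ∈ cross c, |s.1 q - t.1 q| < ε) → t ∈ U
  isOpen_univ := fun s _ => ⟨∅, 1, one_pos, fun _ _ => mem_univ _⟩
  isOpen_inter := by
    classical
    rintro U V hU hV s ⟨hsU, hsV⟩
    obtain ⟨F, ε, hε, hF⟩ := hU s hsU
    obtain ⟨F', ε', hε', hF'⟩ := hV s hsV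
    refine ⟨F ∪ F', min ε ε', lt_min hε hε', fun t ht => ⟨hF t ?_, hF' t ?_⟩⟩
    · intro c hc q hq
      exact lt_of_lt_of_le (ht c (Finset.mem_union_left _ hc) q hq) (min_le_left _ _)
    · intro c hc q hq
      exact lt_of_lt_of_le (ht c (Finset.mem_union_right _ hc) q hq) (min_le_right _ _)
  isOpen_sUnion := by
    rintro 𝒮 h𝒮 s ⟨U, hU, hsU⟩
    obtain ⟨F, ε, hε, hF⟩ := h𝒮 U hU s hsU
    exact ⟨F, ε, hε, fun t ht => ⟨U, hU, hF t ht⟩⟩

variable {X Y}

theorem mem_cross_self (c : X × Y) : c ∈ cross c := by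
  left
  simp

theorem mem_cross_iff (c p : X × Y) : p ∈ cross c ↔ p.2 = c.2 ∨ p.1 = c.1 := by
  simp [cross]

/-- a separately continuous function is continuous on each cross, at the centre: given an open
`V ∋ f c`, there is an open `O ∋ c` with `f (O ∩ cross c) ⊆ V`. -/
theorem exists_open_centre {f : X × Y → ℝ} (hf : SepCont X Y f) (c : X × Y) {V : Set ℝ}
    (hV : IsOpen V) (hc : f c ∈ V) :
    ∃ O : Set (X × Y), IsOpen O ∧ c ∈ O ∧ ∀ p ∈ O ∩ cross c, f p ∈ V := by
  refine ⟨((fun x => f (x, c.2)) ⁻¹' V) ×ˢ ((fun y => f (c.1, y)) ⁻¹' V),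
    (hV.preimage (hf.2 c.2)).prod (hV.preimage (hf.1 c.1)), ?_, ?_⟩
  · exact ⟨hc, hc⟩
  · rintro ⟨x, y⟩ ⟨⟨hx, hy⟩, hp⟩
    rw [mem_cross_iff] at hp
    rcases hp with h | h
    · simp only at h
      subst h
      exact hx
    · simp only at h
      subst h
      exact hy

/-- a separately continuous function maps `closure A ∩ cross c` into the closure of `f(A)`
for `A ⊆ cross c`; here we only need closed sets. -/
theorem map_closure_cross [T1Space X] [T1Space Y] {f : X × Y → ℝ} (hf : SepCont X Y f)
    (c : X × Y) {A : Set (X × Y)} (hA : A ⊆ cross c) {F : Set ℝ} (hF : IsClosed F)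
    (hAF : ∀ p ∈ A, f p ∈ F) : ∀ p ∈ closure A, f p ∈ F := by
  -- the set `{p ∈ cross c | f p ∈ F}` is closed
  have h1 : IsClosed ({p : X × Y | p.2 = c.2 ∧ f (p.1, c.2) ∈ F} ∪
      {p : X × Y | p.1 = c.1 ∧ f (c.1, p.2) ∈ F}) := by
    apply IsClosed.union
    · have e1 : IsClosed ((fun p : X × Y => p.2) ⁻¹' {c.2}) :=
        isClosed_singleton.preimage continuous_snd
      have e2 : IsClosed ((fun p : X × Y => f (p.1, c.2)) ⁻¹' F) :=
        hF.preimage ((hf.2 c.2).comp continuous_fst)
      exact e1.inter e2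
    · have e1 : IsClosed ((fun p : X × Y => p.1) ⁻¹' {c.1}) :=
        isClosed_singleton.preimage continuous_fst
      have e2 : IsClosed ((fun p : X × Y => f (c.1, p.2)) ⁻¹' F) :=
        hF.preimage ((hf.1 c.1).comp continuous_snd)
      exact e1.inter e2
  have h2 : A ⊆ ({p : X × Y | p.2 = c.2 ∧ f (p.1, c.2) ∈ F} ∪
      {p : X × Y | p.1 = c.1 ∧ f (c.1, p.2) ∈ F}) := by
    rintro ⟨x, y⟩ hp
    have h3 := (mem_cross_iff c (x, y)).1 (hA hp)
    have h4 := hAF _ hp
    rcases h3 with h | h
    · simp only at h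
      subst h
      exact Or.inl ⟨rfl, h4⟩
    · simp only at h
      subst h
      exact Or.inr ⟨rfl, h4⟩
  rintro ⟨x, y⟩ hp
  rcases closure_minimal h2 h1 hp with ⟨h, h'⟩ | ⟨h, h'⟩
  · simp only at h h'
    rw [h]
    exact h'
  · simp only at h h'
    rw [h]
    exact h'

/-- point evaluations are continuous on `S_cro(X × Y)`. -/
theorem continuous_eval_cro [T1Space X] [T1Space Y] (q : X × Y) :
    Continuous fun s : Scro X Y => s.1 q := by
  rw [continuous_def]
  intro W hW
  rw [isOpen_iff_forall_mem_open]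
  intro s hs
  obtain ⟨V, hV, hsV, hVW⟩ : ∃ V : Set ℝ, IsOpen V ∧ s.1 q ∈ V ∧ closure V ⊆ W := by
    obtain ⟨V, hV, hVW⟩ := exists_mem_nhds_isClosed_subset (hW.mem_nhds hs)
    refine ⟨interior V, isOpen_interior, mem_interior_iff_mem_nhds.2 hV, ?_⟩
    exact (closure_minimal interior_subset hVW.1).trans hVW.2
  obtain ⟨O, hO, hqO, hOV⟩ := exists_open_centre s.2 q hV hsV
  refine ⟨{t : Scro X Y | t.1 '' (closure (O ∩ cross q) ∩ cross q) ⊆ W}, ?_, ?_, ?_⟩
  · intro t ht
    exact ht ⟨q, ⟨subset_closure ⟨hqO, mem_cross_self q⟩, mem_cross_self q⟩, rfl⟩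
  · exact TopologicalSpace.isOpen_generateFrom_of_mem ⟨q, O, W, hO, hW, rfl⟩
  · rintro _ ⟨p, ⟨hp, -⟩, rfl⟩
    apply hVW
    exact map_closure_cross s.2 q inter_subset_right isClosed_closure
      (fun p hp => subset_closure (hOV p hp)) p hp

/-- point evaluations are continuous on `S_cru(X × Y)`. -/
theorem continuous_eval_cru (q : X × Y) :
    Continuous fun s : Scru X Y => s.1 q := by
  rw [continuous_def]
  intro W hW s hs
  obtain ⟨ε, hε, hb⟩ := Metric.isOpen_iff.1 hW _ hs
  refine ⟨{q}, ε, hε, fun t ht => hb ?_⟩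
  rw [Metric.mem_ball, dist_comm, Real.dist_eq]
  exact ht q (Finset.mem_singleton_self _) q (mem_cross_self q)

/-- two separately continuous functions which agree on `D × E`, with `D` and `E` dense,
are equal. -/
theorem ext_dense {f g : X × Y → ℝ} (hf : SepCont X Y f) (hg : SepCont X Y g)
    {D : Set X} {E : Set Y} (hD : Dense D) (hE : Dense E)
    (h : ∀ d ∈ D, ∀ e ∈ E, f (d, e) = g (d, e)) : f = g := by
  have h1 : ∀ d ∈ D, ∀ y, f (d, y) = g (d, y) := by
    intro d hd y
    exact congrFun (Continuous.ext_on hE (hf.1 d) (hg.1 d) (fun e he => h d hd e he)) y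
  funext ⟨x, y⟩
  exact congrFun (Continuous.ext_on hD (hf.2 y) (hg.2 y) (fun d hd => h1 d hd y)) x

/-- a compact space with a continuous injection into a countable power of `ℝ` is metrizable. -/
theorem metrizable_of_injection {K : Type*} [TopologicalSpace K] [CompactSpace K]
    {ι : Type*} [Countable ι] (φ : K → ι → ℝ) (hφ : Continuous φ) (hinj : Function.Injective φ) :
    TopologicalSpace.MetrizableSpace K := by
  have h1 : IsEmbedding φ := (hφ.isClosedEmbedding hinj).isEmbedding
  haveI : TopologicalSpace.MetrizableSpace (ι → ℝ) := inferInstance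
  exact h1.metrizableSpace

theorem cro_compact_metrizable [T1Space X] [T1Space Y] [TopologicalSpace.SeparableSpace X]
    [TopologicalSpace.SeparableSpace Y] {K : Type*} [TopologicalSpace K] [CompactSpace K]
    (j : K → Scro X Y) (hj : Continuous j) (hinj : Function.Injective j) :
    TopologicalSpace.MetrizableSpace K := by
  obtain ⟨D, hDc, hD⟩ := TopologicalSpace.exists_countable_dense X
  obtain ⟨E, hEc, hE⟩ := TopologicalSpace.exists_countable_dense Y
  haveI := hDc.to_subtype
  haveI := hEc.to_subtype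
  refine metrizable_of_injection (ι := D × E)
    (fun k p => (j k).1 ((p.1 : X), (p.2 : Y))) ?_ ?_
  · refine continuous_pi fun p => ?_
    exact (continuous_eval_cro _).comp hj
  · intro a b hab
    apply hinj
    apply Subtype.ext
    exact ext_dense (j a).2 (j b).2 hD hE
      (fun d hd e he => congrFun hab (⟨d, hd⟩, ⟨e, he⟩))

theorem cru_compact_metrizable [TopologicalSpace.SeparableSpace X]
    [TopologicalSpace.SeparableSpace Y] {K : Type*} [TopologicalSpace K] [CompactSpace K]
    (j : K → Scru X Y) (hj : Continuous j) (hinj : Function.Injective j) :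
    TopologicalSpace.MetrizableSpace K := by
  obtain ⟨D, hDc, hD⟩ := TopologicalSpace.exists_countable_dense X
  obtain ⟨E, hEc, hE⟩ := TopologicalSpace.exists_countable_dense Y
  haveI := hDc.to_subtype
  haveI := hEc.to_subtype
  refine metrizable_of_injection (ι := D × E)
    (fun k p => (j k).1 ((p.1 : X), (p.2 : Y))) ?_ ?_
  · refine continuous_pi fun p => ?_
    exact (continuous_eval_cru _).comp hj
  · intro a b hab
    apply hinj
    apply Subtype.ext
    exact ext_dense (j a).2 (j b).2 hD hE
      (fun d hd e he => congrFun hab (⟨d, hd⟩, ⟨e, he⟩))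

/-! ### The Rosenthal compactum `{0} ∪ {χ_x : x ∈ ℝ}` -/

/-- `f : M → ℝ` is a function of the first Baire class: a pointwise limit of a sequence of
continuous functions. -/
def BaireOne {M : Type*} [TopologicalSpace M] (f : M → ℝ) : Prop :=
  ∃ F : ℕ → M → ℝ, (∀ n, Continuous (F n)) ∧ ∀ x, Tendsto (fun n => F n x) atTop (𝓝 (f x))

/-- A Rosenthal compact: a compact space homeomorphic to a (compact) subspace of `B_1(M)` for some
Polish space `M`, where `B_1(M)` carries the topology of pointwise convergence. -/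
def IsRosenthalCompact (K : Type) [TopologicalSpace K] : Prop :=
  CompactSpace K ∧ ∃ (M : Type) (_ : TopologicalSpace M) (_ : PolishSpace M)
    (j : K → {f : M → ℝ // BaireOne f}), IsEmbedding j

/-- the set of all functions `ℝ → ℝ` with values in `{0,1}` and at most one nonzero value. -/
def AK : Set (ℝ → ℝ) := {f | (∀ x, f x = 0 ∨ f x = 1) ∧ ∀ x y, x ≠ y → f x * f y = 0}

theorem AK_compact : IsCompact AK := by
  have h1 : IsCompact (Set.pi univ (fun _ : ℝ => ({0, 1} : Set ℝ))) :=
    isCompact_univ_pi (fun _ => (Set.toFinite _).isCompact)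
  refine h1.of_isClosed_subset ?_ ?_
  · have : AK = (⋂ x : ℝ, {f : ℝ → ℝ | f x ∈ ({0, 1} : Set ℝ)}) ∩
        ⋂ x : ℝ, ⋂ y : ℝ, ⋂ _ : x ≠ y, {f : ℝ → ℝ | f x * f y = 0} := by
      ext f
      simp [AK]
    rw [this]
    apply IsClosed.inter
    · exact isClosed_iInter fun x => (Set.toFinite _).isClosed.preimage (continuous_apply x)
    · refine isClosed_iInter fun x => isClosed_iInter fun y => isClosed_iInter fun _ => ?_
      exact isClosed_singleton.preimage ((continuous_apply x).mul (continuous_apply y))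
  · intro f hf x _
    rcases hf.1 x with h | h
    · simp [h]
    · simp [h]

theorem AK_baireOne {f : ℝ → ℝ} (hf : f ∈ AK) : BaireOne f := by
  by_cases h : ∃ a, f a = 1
  · obtain ⟨a, ha⟩ := h
    have hf0 : ∀ x, x ≠ a → f x = 0 := by
      intro x hx
      have := hf.2 x a hx
      rw [ha, mul_one] at this
      exact this
    refine ⟨fun n x => max 0 (1 - (n : ℝ) * |x - a|), ?_, ?_⟩
    · intro n
      fun_prop
    · intro x
      by_cases hx : x = a
      · subst hx
        simp [ha]
      · rw [hf0 x hx]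
        have hpos : 0 < |x - a| := abs_pos.2 (sub_ne_zero.2 hx)
        obtain ⟨N, hN⟩ := exists_nat_gt (1 / |x - a|)
        apply tendsto_const_nhds.congr'
        filter_upwards [eventually_ge_atTop N] with n hn
        rw [max_eq_left]
        have h1 : (N : ℝ) ≤ n := by exact_mod_cast hn
        have h2 : 1 < (N : ℝ) * |x - a| := by
          rwa [div_lt_iff₀ hpos] at hN
        nlinarith
  · push Not at h
    refine ⟨fun _ _ => 0, fun _ => continuous_const, fun x => ?_⟩
    have : f x = 0 := (hf.1 x).resolve_right (h x)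
    rw [this]
    exact tendsto_const_nhds

instance : CompactSpace AK := isCompact_iff_compactSpace.1 AK_compact

theorem AK_isRosenthalCompact : IsRosenthalCompact AK := by
  refine ⟨inferInstance, ℝ, inferInstance, inferInstance,
    fun f => ⟨f.1, AK_baireOne f.2⟩, ?_⟩
  have h1 : Continuous (fun f : AK => (⟨f.1, AK_baireOne f.2⟩ : {f : ℝ → ℝ // BaireOne f})) :=
    continuous_subtype_val.subtype_mk _
  refine (h1.isClosedEmbedding ?_).isEmbedding
  intro a b hab
  apply Subtype.ext
  exact congrArg (fun z : {f : ℝ → ℝ // BaireOne f} => z.1) hab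

/-- the characteristic function of a singleton -/
noncomputable def chi (a : ℝ) : ℝ → ℝ := fun x => if x = a then 1 else 0

theorem chi_mem (a : ℝ) : chi a ∈ AK := by
  constructor
  · intro x
    unfold chi
    split_ifs <;> simp
  · intro x y hxy
    unfold chi
    split_ifs with h1 h2
    · exact absurd (h1.trans h2.symm) hxy
    all_goals simp

theorem AK_not_metrizable : ¬ TopologicalSpace.MetrizableSpace AK := by
  intro h
  letI := TopologicalSpace.metrizableSpaceMetric AK
  haveI : SecondCountableTopology AK := inferInstance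
  have hcount : (univ : Set ℝ).Countable := by
    apply Set.PairwiseDisjoint.countable_of_isOpen
      (s := fun a : ℝ => {f : AK | (1/2 : ℝ) < f.1 a})
    · intro a _ b _ hab
      rw [Function.onFun, Set.disjoint_left]
      intro f hfa hfb
      have h1 := f.2.2 a b hab
      simp only [Set.mem_ofPred_eq] at hfa hfb
      nlinarith
    · intro a _
      exact (isOpen_Ioi (a := (1/2 : ℝ))).preimage
        ((continuous_apply a).comp continuous_subtype_val)
    · intro a _
      refine ⟨⟨chi a, chi_mem a⟩, ?_⟩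
      simp only [Set.mem_ofPred_eq, chi, if_true]
      norm_num
  exact Cardinal.not_countable_real hcount

end Q176.SepCont
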