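import Mathlib

/-!
Set-valued self-extension property. A Hausdorff set-self-Tietze space is completely
(hereditarily) normal.
-/

namespace Q176.SetTietze

open Set Filter Topology

/-- Upper semicontinuity of a set-valued map. -/
def Usc {Y X : Type*} [TopologicalSpace Y] [TopologicalSpace X] (F : Y → Set X) : Prop :=
  ∀ U : Set X, IsOpen U → IsOpen {y | F y ⊆ U}

/-- `X` is set-self-Tietze: each usc map from a closed subspace `A` into the nonempty closed
subsets of `X` extends to such a map on `X`. -/
def SetSelfTietze (X : Type*) [TopologicalSpace X] : Prop :=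
  ∀ A : Set X, IsClosed A → ∀ f : A → Set X, (∀ a, (f a).Nonempty ∧ IsClosed (f a)) → Usc f →
    ∃ F : X → Set X, (∀ x, (F x).Nonempty ∧ IsClosed (F x)) ∧ Usc F ∧ ∀ a : A, F a = f a

/-- A Hausdorff set-self-Tietze space is completely normal. -/
theorem completelyNormal (X : Type*) [TopologicalSpace X] [T2Space X] (h : SetSelfTietze X) :
    CompletelyNormalSpace X := by
  classical
  constructor
  intro S T hST hST'
  rcases subsingleton_or_nontrivial X with hX | hX
  · -- trivial case
    rcases S.eq_empty_or_nonempty with rfl | ⟨s, hs⟩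
    · simp
    · rcases T.eq_empty_or_nonempty with rfl | ⟨t, ht⟩
      · simp
      · exact (disjoint_left.mp hST (subset_closure hs) (Subsingleton.elim t s ▸ ht)).elim
  obtain ⟨c1, c2, hc⟩ := exists_pair_ne X
  obtain ⟨U1, U2, hU1, hU2, hc1, hc2, hU⟩ := t2_separation hc
  set A : Set X := closure S ∪ closure T with hA
  have hAc : IsClosed A := isClosed_closure.union isClosed_closure
  let f : A → Set X := fun a => {c | (c = c1 ∧ (a : X) ∈ closure S) ∨ (c = c2 ∧ (a : X) ∈ closure T)}
  have hf : ∀ a, (f a).Nonempty ∧ IsClosed (f a) := by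
    rintro ⟨a, ha⟩
    constructor
    · rcases ha with ha | ha
      · exact ⟨c1, Or.inl ⟨rfl, ha⟩⟩
      · exact ⟨c2, Or.inr ⟨rfl, ha⟩⟩
    · apply Set.Finite.isClosed
      apply (Set.toFinite {c1, c2}).subset
      rintro c (⟨rfl, _⟩ | ⟨rfl, _⟩)
      · simp
      · simp
  have husc : Usc f := by
    intro U hU
    by_cases h1 : c1 ∈ U
    · by_cases h2 : c2 ∈ U
      · have : {y | f y ⊆ U} = univ := by
          rw [eq_univ_iff_forall]
          intro y c hc
          rcases hc with ⟨rfl, _⟩ | ⟨rfl, _⟩
          · exact h1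
          · exact h2
        rw [this]; exact isOpen_univ
      · have : {y | f y ⊆ U} = ((↑) : A → X) ⁻¹' (closure T)ᶜ := by
          ext y
          constructor
          · intro hy hyT
            exact h2 (hy (Or.inr ⟨rfl, hyT⟩))
          · intro hy c hc
            rcases hc with ⟨rfl, _⟩ | ⟨rfl, hT⟩
            · exact h1
            · exact (hy hT).elim
        rw [this]
        exact isClosed_closure.isOpen_compl.preimage continuous_subtype_val
    · by_cases h2 : c2 ∈ U
      · have : {y | f y ⊆ U} = ((↑) : A → X) ⁻¹' (closure S)ᶜ := by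
          ext y
          constructor
          · intro hy hyS
            exact h1 (hy (Or.inl ⟨rfl, hyS⟩))
          · intro hy c hc
            rcases hc with ⟨rfl, hS⟩ | ⟨rfl, _⟩
            · exact (hy hS).elim
            · exact h2
        rw [this]
        exact isClosed_closure.isOpen_compl.preimage continuous_subtype_val
      · have : {y | f y ⊆ U} = ∅ := by
          rw [eq_empty_iff_forall_notMem]
          rintro ⟨y, hy | hy⟩ hyU
          · exact h1 (hyU (Or.inl ⟨rfl, hy⟩))
          · exact h2 (hyU (Or.inr ⟨rfl, hy⟩))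
        rw [this]; exact isOpen_empty
  obtain ⟨F, hF, hFusc, hFf⟩ := h A hAc f hf husc
  rw [Filter.disjoint_iff]
  refine ⟨{y | F y ⊆ U1}, ?_, {y | F y ⊆ U2}, ?_, ?_⟩
  · rw [(hFusc U1 hU1).mem_nhdsSet]
    intro s hs c hc
    have hsA : s ∈ A := Or.inl (subset_closure hs)
    rw [hFf ⟨s, hsA⟩] at hc
    rcases hc with ⟨rfl, _⟩ | ⟨_, hT⟩
    · exact hc1
    · exact (disjoint_left.mp hST' hs hT).elim
  · rw [(hFusc U2 hU2).mem_nhdsSet]
    intro t ht c hc
    have htA : t ∈ A := Or.inr (subset_closure ht)
    rw [hFf ⟨t, htA⟩] at hc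
    rcases hc with ⟨_, hS⟩ | ⟨rfl, _⟩
    · exact (disjoint_left.mp hST hS ht).elim
    · exact hc2
  · rw [Set.disjoint_left]
    intro x hx1 hx2
    obtain ⟨c, hc⟩ := (hF x).1
    exact disjoint_left.mp hU (hx1 hc) (hx2 hc)

end Q176.SetTietze
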