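import Mathlib

/-!
# Theta functions of diagonal lattices

One-dimensional Gaussian series `Θ(c,s,t) = ∑ exp(-c (s n + t)²)` and product formula.
-/

namespace Q176.ThetaLat

open Real Filter Topology MeasureTheory

/-- one dimensional theta series -/
noncomputable def Th (c s t : ℝ) : ℝ := ∑' n : ℤ, Real.exp (-(c * (s * n + t) ^ 2))

/-- its derivative with respect to `t` -/
noncomputable def Th' (c s t : ℝ) : ℝ :=
  ∑' n : ℤ, (-(2 * c * (s * n + t)) * Real.exp (-(c * (s * n + t) ^ 2)))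

theorem exp_bound {c : ℝ} (hc : 0 < c) : ∃ K : ℝ, 0 < K ∧ ∀ x : ℝ,
    Real.exp (-(c * x ^ 2)) ≤ K * (1 / (1 + x ^ 2)) ∧
    |-(2 * c * x) * Real.exp (-(c * x ^ 2))| ≤ K * (1 / (1 + x ^ 2)) := by
  have hc' : 0 < 1 / c := one_div_pos.2 hc
  refine ⟨(1 + 1 / c) + 2 * c * (1 + 2 / c ^ 2), by positivity, fun x => ?_⟩
  have hq : 1 + c * x ^ 2 + (c * x ^ 2) ^ 2 / 2 ≤ Real.exp (c * x ^ 2) :=
    Real.quadratic_le_exp_of_nonneg (by positivity)
  have hE : 0 < Real.exp (-(c * x ^ 2)) := Real.exp_pos _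
  have hmul : Real.exp (-(c * x ^ 2)) * Real.exp (c * x ^ 2) = 1 := by
    rw [← Real.exp_add]
    simp
  have h1 : Real.exp (-(c * x ^ 2)) * (1 + c * x ^ 2 + (c * x ^ 2) ^ 2 / 2) ≤ 1 := by
    calc _ ≤ Real.exp (-(c * x ^ 2)) * Real.exp (c * x ^ 2) := by gcongr
      _ = 1 := hmul
  have hpos : (0 : ℝ) < 1 + x ^ 2 := by positivity
  have e1 : 1 + x ^ 2 ≤ (1 + 1 / c) * (1 + c * x ^ 2 + (c * x ^ 2) ^ 2 / 2) := by
    have : (1 + 1 / c) * (1 + c * x ^ 2) = 1 + c * x ^ 2 + 1 / c + x ^ 2 := by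
      field_simp
      ring
    nlinarith [sq_nonneg (c * x ^ 2), mul_nonneg hc.le (sq_nonneg x), sq_nonneg x]
  have e2 : 2 * c * |x| * (1 + x ^ 2) ≤
      2 * c * (1 + 2 / c ^ 2) * (1 + c * x ^ 2 + (c * x ^ 2) ^ 2 / 2) := by
    have a1 : 2 * |x| ≤ 1 + x ^ 2 := by nlinarith [sq_abs x, sq_nonneg (|x| - 1)]
    have a2 : (1 + x ^ 2) * (1 + x ^ 2) ≤ 2 * (1 + x ^ 4) := by nlinarith [sq_nonneg (x ^ 2 - 1)]
    have a3 : 1 + x ^ 4 ≤ (1 + 2 / c ^ 2) * (1 + (c * x ^ 2) ^ 2 / 2) := by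
      have : (1 + 2 / c ^ 2) * (1 + (c * x ^ 2) ^ 2 / 2) =
          1 + (c * x ^ 2) ^ 2 / 2 + 2 / c ^ 2 + x ^ 4 := by
        field_simp
        ring
      have : 0 < 2 / c ^ 2 := by positivity
      nlinarith [sq_nonneg (c * x ^ 2)]
    have a4 : (1 + 2 / c ^ 2) * (1 + (c * x ^ 2) ^ 2 / 2) ≤
        (1 + 2 / c ^ 2) * (1 + c * x ^ 2 + (c * x ^ 2) ^ 2 / 2) := by
      gcongr
      nlinarith [mul_nonneg hc.le (sq_nonneg x)]
    calc 2 * c * |x| * (1 + x ^ 2) = c * ((2 * |x|) * (1 + x ^ 2)) := by ring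
      _ ≤ c * ((1 + x ^ 2) * (1 + x ^ 2)) := by gcongr
      _ ≤ c * (2 * (1 + x ^ 4)) := by gcongr
      _ ≤ c * (2 * ((1 + 2 / c ^ 2) * (1 + c * x ^ 2 + (c * x ^ 2) ^ 2 / 2))) := by
          gcongr
          exact a3.trans a4
      _ = _ := by ring
  have hA : 0 ≤ 1 + 1 / c := by positivity
  have hB : 0 ≤ 2 * c * (1 + 2 / c ^ 2) := by positivity
  constructor
  · rw [mul_one_div, le_div_iff₀ hpos]
    calc Real.exp (-(c * x ^ 2)) * (1 + x ^ 2)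
        ≤ Real.exp (-(c * x ^ 2)) * ((1 + 1 / c) * (1 + c * x ^ 2 + (c * x ^ 2) ^ 2 / 2)) := by
          gcongr
      _ = (1 + 1 / c) * (Real.exp (-(c * x ^ 2)) * (1 + c * x ^ 2 + (c * x ^ 2) ^ 2 / 2)) := by
          ring
      _ ≤ (1 + 1 / c) * 1 := by gcongr
      _ ≤ _ := by linarith
  · rw [abs_mul, abs_neg, abs_mul, abs_of_pos hE, abs_of_pos (by positivity : 0 < 2 * c),
      mul_one_div, le_div_iff₀ hpos]
    calc 2 * c * |x| * Real.exp (-(c * x ^ 2)) * (1 + x ^ 2)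
        = Real.exp (-(c * x ^ 2)) * (2 * c * |x| * (1 + x ^ 2)) := by ring
      _ ≤ Real.exp (-(c * x ^ 2)) *
          (2 * c * (1 + 2 / c ^ 2) * (1 + c * x ^ 2 + (c * x ^ 2) ^ 2 / 2)) := by gcongr
      _ = 2 * c * (1 + 2 / c ^ 2) *
          (Real.exp (-(c * x ^ 2)) * (1 + c * x ^ 2 + (c * x ^ 2) ^ 2 / 2)) := by ring
      _ ≤ 2 * c * (1 + 2 / c ^ 2) * 1 := by gcongr
      _ ≤ _ := by linarith

theorem summable_inv_sq : Summable fun n : ℤ => 1 / ((n : ℝ) ^ 2) :=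
  Real.summable_one_div_int_pow.2 (by norm_num)

theorem summable_base {s : ℝ} (hs : 0 < s) : Summable fun n : ℤ => 1 / (1 + s ^ 2 * (n : ℝ) ^ 2) := by
  have h1 : Summable fun n : ℤ => (if n = 0 then (1 : ℝ) else 0) + (1 / s ^ 2) * (1 / ((n : ℝ) ^ 2)) := by
    refine Summable.add ?_ (summable_inv_sq.mul_left _)
    apply summable_of_ne_finset_zero (s := {0})
    intro b hb
    rw [if_neg]
    simpa using hb
  refine Summable.of_nonneg_of_le (fun n => by positivity) (fun n => ?_) h1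
  by_cases hn : n = 0
  · subst hn
    simp
  · rw [if_neg hn, zero_add]
    have hn' : (0 : ℝ) < (n : ℝ) ^ 2 := by
      have : (n : ℝ) ≠ 0 := by exact_mod_cast hn
      positivity
    rw [div_mul_div_comm, one_mul]
    apply one_div_le_one_div_of_le (by positivity)
    nlinarith

/-- comparison of `1/(1+x²)` with `1/(1+s²n²)` for `x = s n + t`, `|t| ≤ ρ` -/
theorem comp_bound {s t ρ : ℝ} (ht : |t| ≤ ρ) (n : ℤ) :
    1 / (1 + (s * n + t) ^ 2) ≤ (2 * (1 + ρ ^ 2)) * (1 / (1 + s ^ 2 * (n : ℝ) ^ 2)) := by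
  have h1 : (0 : ℝ) < 1 + (s * n + t) ^ 2 := by positivity
  have h2 : (0 : ℝ) < 1 + s ^ 2 * (n : ℝ) ^ 2 := by positivity
  rw [mul_one_div, div_le_div_iff₀ h1 h2]
  have h3 : t ^ 2 ≤ ρ ^ 2 := by
    rw [← sq_abs t]
    have := abs_nonneg t
    gcongr
  have h4 : s ^ 2 * (n : ℝ) ^ 2 ≤ 2 * (s * n + t) ^ 2 + 2 * t ^ 2 := by
    nlinarith [sq_nonneg (s * n + t + t)]
  nlinarith [sq_nonneg (s * n + t), mul_nonneg (sq_nonneg (s * n + t)) (sq_nonneg ρ)]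

theorem summable_u {s : ℝ} (hs : 0 < s) (K ρ : ℝ) :
    Summable fun n : ℤ => K * ((2 * (1 + ρ ^ 2)) * (1 / (1 + s ^ 2 * (n : ℝ) ^ 2))) :=
  ((summable_base hs).mul_left _).mul_left _

theorem summable_Th {c s : ℝ} (hc : 0 < c) (hs : 0 < s) (t : ℝ) :
    Summable fun n : ℤ => Real.exp (-(c * (s * n + t) ^ 2)) := by
  obtain ⟨K, hK, hb⟩ := exp_bound hc
  refine Summable.of_nonneg_of_le (fun n => (Real.exp_pos _).le) (fun n => ?_)
    (summable_u hs K |t|)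
  refine (hb _).1.trans ?_
  exact mul_le_mul_of_nonneg_left (comp_bound le_rfl n) hK.le

theorem Th_pos {c s : ℝ} (hc : 0 < c) (hs : 0 < s) (t : ℝ) : 0 < Th c s t :=
  (summable_Th hc hs t).tsum_pos (fun n => (Real.exp_pos _).le) 0 (Real.exp_pos _)

theorem hasDerivAt_Th {c s : ℝ} (hc : 0 < c) (hs : 0 < s) (t : ℝ) :
    HasDerivAt (Th c s) (Th' c s t) t := by
  obtain ⟨K, hK, hb⟩ := exp_bound hc
  have ht : t ∈ Set.Ioo (-(|t| + 1)) (|t| + 1) := by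
    constructor <;> cases abs_cases t <;> linarith
  refine hasDerivAt_tsum_of_isPreconnected (g := fun n : ℤ => fun t : ℝ =>
      Real.exp (-(c * (s * n + t) ^ 2)))
    (g' := fun n : ℤ => fun t : ℝ => (-(2 * c * (s * n + t)) * Real.exp (-(c * (s * n + t) ^ 2))))
    (u := fun n : ℤ => K * ((2 * (1 + (|t| + 1) ^ 2)) * (1 / (1 + s ^ 2 * (n : ℝ) ^ 2))))
    (t := Set.Ioo (-(|t| + 1)) (|t| + 1)) (y₀ := t)
    (summable_u hs K (|t| + 1)) isOpen_Ioo isPreconnected_Ioo ?_ ?_ ht (summable_Th hc hs t) ht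
  · intro n y _
    have h1 : HasDerivAt (fun y : ℝ => s * n + y) 1 y := by
      simpa using (hasDerivAt_id y).const_add (s * (n : ℝ))
    have h2 : HasDerivAt (fun y : ℝ => -(c * (s * n + y) ^ 2)) (-(2 * c * (s * n + y))) y := by
      have := ((h1.pow 2).const_mul c).neg
      refine this.congr_deriv ?_
      ring
    have := h2.exp
    refine this.congr_deriv ?_
    ring
  · intro n y hy
    have hy' : |y| ≤ |t| + 1 := abs_le.2 ⟨hy.1.le, hy.2.le⟩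
    rw [Real.norm_eq_abs]
    refine (hb _).2.trans ?_
    exact mul_le_mul_of_nonneg_left (comp_bound hy' n) hK.le

theorem continuous_Th' {c s : ℝ} (hc : 0 < c) (hs : 0 < s) : Continuous (Th' c s) := by
  obtain ⟨K, hK, hb⟩ := exp_bound hc
  rw [continuous_iff_continuousAt]
  intro t
  have ht : Set.Ioo (-(|t| + 1)) (|t| + 1) ∈ 𝓝 t := by
    apply isOpen_Ioo.mem_nhds
    constructor <;> cases abs_cases t <;> linarith
  refine ContinuousOn.continuousAt ?_ ht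
  refine continuousOn_tsum (u := fun n : ℤ => K * ((2 * (1 + (|t| + 1) ^ 2)) *
    (1 / (1 + s ^ 2 * (n : ℝ) ^ 2)))) (fun n => ?_) (summable_u hs K (|t| + 1)) ?_
  · exact Continuous.continuousOn (by fun_prop)
  · intro n y hy
    have hy' : |y| ≤ |t| + 1 := abs_le.2 ⟨hy.1.le, hy.2.le⟩
    rw [Real.norm_eq_abs]
    refine (hb _).2.trans ?_
    exact mul_le_mul_of_nonneg_left (comp_bound hy' n) hK.le

theorem contDiff_Th {c s : ℝ} (hc : 0 < c) (hs : 0 < s) : ContDiff ℝ 1 (Th c s) := by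
  rw [contDiff_one_iff_deriv]
  refine ⟨fun t => (hasDerivAt_Th hc hs t).differentiableAt, ?_⟩
  have : deriv (Th c s) = Th' c s := funext fun t => (hasDerivAt_Th hc hs t).deriv
  rw [this]
  exact continuous_Th' hc hs

/-- lower bound for a coordinate with any spacing. -/
theorem Th_ge {c s : ℝ} (hc : 0 < c) (hs : 0 < s) (t : ℝ) :
    Real.exp (-(c * t ^ 2)) ≤ Th c s t := by
  have h := (summable_Th hc hs t).le_tsum 0 (fun n _ => (Real.exp_pos _).le)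
  simpa [Th] using h

/-- lower bound for small spacings. -/
theorem Th_ge_small {c s t ρ : ℝ} (hc : 0 < c) (hs : 0 < s) (ht : |t| ≤ ρ) (N : ℕ)
    (hN : s * N ≤ 1) : (N : ℝ) * Real.exp (-(c * (1 + ρ) ^ 2)) ≤ Th c s t := by
  have h1 : ∑ n ∈ (Finset.range N).map (Nat.castEmbedding : ℕ ↪ ℤ),
      Real.exp (-(c * (s * n + t) ^ 2)) ≤ Th c s t :=
    (summable_Th hc hs t).sum_le_tsum _ (fun n _ => (Real.exp_pos _).le)
  refine le_trans ?_ h1
  rw [Finset.sum_map]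
  have h2 : ∑ _n ∈ Finset.range N, Real.exp (-(c * (1 + ρ) ^ 2)) =
      (N : ℝ) * Real.exp (-(c * (1 + ρ) ^ 2)) := by
    simp
  rw [← h2]
  apply Finset.sum_le_sum
  intro n hn
  rw [Real.exp_le_exp]
  have hn' : (n : ℝ) ≤ N := by exact_mod_cast (Finset.mem_range.1 hn).le
  have h3 : 0 ≤ s * n := by positivity
  have h4 : s * n ≤ 1 := (mul_le_mul_of_nonneg_left hn' hs.le).trans hN
  have h5 : (s * n + t) ^ 2 ≤ (1 + ρ) ^ 2 := by
    apply sq_le_sq'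
    · cases abs_cases t <;> linarith
    · cases abs_cases t <;> linarith
  simp only [Nat.castEmbedding_apply, Int.cast_natCast]
  nlinarith [mul_le_mul_of_nonneg_left h5 hc.le]

/-- the value of the tail constant -/
noncomputable def Z : ℝ := ∑' n : ℤ, 1 / ((n : ℝ) ^ 2)

theorem Z_nonneg : 0 ≤ Z := tsum_nonneg fun n => by positivity

theorem tail_term {c δ t : ℝ} (hc : 0 < c) (hδ : 0 < δ) (hδ1 : δ ≤ 1) {ρ : ℝ} (ht : |t| ≤ ρ)
    (hρ : 2 * δ * ρ ≤ 1) {n : ℤ} (hn : n ≠ 0) :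
    Real.exp (-(c * (1 / δ * n + t) ^ 2)) ≤ (4 / c + 32 / c) * δ ^ 2 * (1 / (n : ℝ) ^ 2) ∧
    |-(2 * c * (1 / δ * n + t)) * Real.exp (-(c * (1 / δ * n + t) ^ 2))| ≤
      (4 / c + 32 / c) * δ ^ 2 * (1 / (n : ℝ) ^ 2) := by
  have hn1 : (1 : ℝ) ≤ |(n : ℝ)| := by
    have : (1 : ℤ) ≤ |n| := Int.one_le_abs hn
    exact_mod_cast this
  have hn0 : (0 : ℝ) < |(n : ℝ)| := by linarith
  set x := 1 / δ * (n : ℝ) + t with hx
  -- |x| ≥ |n| / (2 δ)
  have hxl : |(n : ℝ)| / (2 * δ) ≤ |x| := by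
    have h1 : |1 / δ * (n : ℝ)| ≤ |x| + |t| := by
      have : 1 / δ * (n : ℝ) = x - t := by rw [hx]; ring
      rw [this]
      exact abs_sub _ _
    rw [abs_mul, abs_of_pos (by positivity : 0 < 1 / δ)] at h1
    have h2 : |t| ≤ |(n : ℝ)| / (2 * δ) := by
      rw [le_div_iff₀ (by positivity)]
      nlinarith
    have h3 : 1 / δ * |(n : ℝ)| = |(n : ℝ)| / (2 * δ) + |(n : ℝ)| / (2 * δ) := by
      field_simp
      ring
    linarith
  have hxpos : 0 < |x| := lt_of_lt_of_le (by positivity) hxl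
  have hx2 : (n : ℝ) ^ 2 / (4 * δ ^ 2) ≤ x ^ 2 := by
    have h1 : (|(n : ℝ)| / (2 * δ)) ^ 2 ≤ |x| ^ 2 := by gcongr
    rw [sq_abs, div_pow, sq_abs] at h1
    have : (2 * δ) ^ 2 = 4 * δ ^ 2 := by ring
    rwa [this] at h1
  have hnsq : (0 : ℝ) < (n : ℝ) ^ 2 := by rw [← sq_abs]; positivity
  have hx2pos : 0 < x ^ 2 := by rw [← sq_abs]; positivity
  have hE : 0 < Real.exp (-(c * x ^ 2)) := Real.exp_pos _
  have hmul : Real.exp (-(c * x ^ 2)) * Real.exp (c * x ^ 2) = 1 := by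
    rw [← Real.exp_add]
    simp
  have hq : 1 + c * x ^ 2 + (c * x ^ 2) ^ 2 / 2 ≤ Real.exp (c * x ^ 2) :=
    Real.quadratic_le_exp_of_nonneg (by positivity)
  have hE1 : Real.exp (-(c * x ^ 2)) * (c * x ^ 2) ≤ 1 := by
    have : c * x ^ 2 ≤ Real.exp (c * x ^ 2) := by nlinarith [sq_nonneg (c * x ^ 2)]
    calc _ ≤ Real.exp (-(c * x ^ 2)) * Real.exp (c * x ^ 2) := by gcongr
      _ = 1 := hmul
  have hE2 : Real.exp (-(c * x ^ 2)) * ((c * x ^ 2) ^ 2 / 2) ≤ 1 := by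
    have : (c * x ^ 2) ^ 2 / 2 ≤ Real.exp (c * x ^ 2) := by
      nlinarith [mul_nonneg hc.le (sq_nonneg x)]
    calc _ ≤ Real.exp (-(c * x ^ 2)) * Real.exp (c * x ^ 2) := by gcongr
      _ = 1 := hmul
  have hc4 : 0 < 4 / c := by positivity
  have hc32 : 0 < 32 / c := by positivity
  constructor
  · -- exp ≤ 1/(c x²) ≤ 4 δ²/(c n²)
    have h1 : Real.exp (-(c * x ^ 2)) ≤ 1 / (c * x ^ 2) := by
      rw [le_div_iff₀ (by positivity)]
      exact hE1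
    have h2 : 1 / (c * x ^ 2) ≤ 1 / (c * ((n : ℝ) ^ 2 / (4 * δ ^ 2))) := by
      apply one_div_le_one_div_of_le (by positivity)
      gcongr
    have h3 : 1 / (c * ((n : ℝ) ^ 2 / (4 * δ ^ 2))) = 4 / c * δ ^ 2 * (1 / (n : ℝ) ^ 2) := by
      field_simp
    rw [h3] at h2
    have h4 : 0 ≤ 32 / c * δ ^ 2 * (1 / (n : ℝ) ^ 2) := by positivity
    calc _ ≤ _ := h1.trans h2
      _ ≤ _ := by
        have : (4 / c + 32 / c) * δ ^ 2 * (1 / (n : ℝ) ^ 2) =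
          4 / c * δ ^ 2 * (1 / (n : ℝ) ^ 2) + 32 / c * δ ^ 2 * (1 / (n : ℝ) ^ 2) := by ring
        rw [this]
        linarith
  · rw [abs_mul, abs_neg, abs_mul, abs_of_pos hE, abs_of_pos (by positivity : 0 < 2 * c)]
    have h1 : Real.exp (-(c * x ^ 2)) ≤ 2 / (c ^ 2 * (x ^ 2) ^ 2) := by
      rw [le_div_iff₀ (by positivity)]
      nlinarith
    have h2 : 2 * c * |x| * Real.exp (-(c * x ^ 2)) ≤ 4 / (c * |x| ^ 3) := by
      calc 2 * c * |x| * Real.exp (-(c * x ^ 2)) ≤ 2 * c * |x| * (2 / (c ^ 2 * (x ^ 2) ^ 2)) := by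
            gcongr
        _ = 4 / (c * |x| ^ 3) := by
            rw [← sq_abs x]
            field_simp
            ring
    have h3 : 4 / (c * |x| ^ 3) ≤ 4 / (c * (|(n : ℝ)| / (2 * δ)) ^ 3) := by
      gcongr
    have h4 : 4 / (c * (|(n : ℝ)| / (2 * δ)) ^ 3) = 32 / c * δ ^ 3 * (1 / |(n : ℝ)| ^ 3) := by
      field_simp
      ring
    have h5 : 1 / |(n : ℝ)| ^ 3 ≤ 1 / (n : ℝ) ^ 2 := by
      rw [← sq_abs (n : ℝ)]
      apply one_div_le_one_div_of_le (by positivity)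
      calc |(n : ℝ)| ^ 2 = |(n : ℝ)| ^ 2 * 1 := by ring
        _ ≤ |(n : ℝ)| ^ 2 * |(n : ℝ)| := by gcongr
        _ = _ := by ring
    have h6 : δ ^ 3 ≤ δ ^ 2 := by
      calc δ ^ 3 = δ ^ 2 * δ := by ring
        _ ≤ δ ^ 2 * 1 := by gcongr
        _ = _ := by ring
    have h7 : 32 / c * δ ^ 3 * (1 / |(n : ℝ)| ^ 3) ≤ 32 / c * δ ^ 2 * (1 / (n : ℝ) ^ 2) := by
      gcongr
    have h8 : 0 ≤ 4 / c * δ ^ 2 * (1 / (n : ℝ) ^ 2) := by positivity
    rw [h4] at h3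
    have : (4 / c + 32 / c) * δ ^ 2 * (1 / (n : ℝ) ^ 2) =
          4 / c * δ ^ 2 * (1 / (n : ℝ) ^ 2) + 32 / c * δ ^ 2 * (1 / (n : ℝ) ^ 2) := by ring
    rw [this]
    linarith

theorem tsum_tail {f : ℤ → ℝ} (hf : Summable f) {C : ℝ} 
    (hb : ∀ n : ℤ, n ≠ 0 → |f n| ≤ C * (1 / (n : ℝ) ^ 2)) : |∑' n, f n - f 0| ≤ C * Z := by
  have h1 : ∑' n, f n = f 0 + ∑' n, ite (n = 0) 0 (f n) := hf.tsum_eq_add_tsum_ite 0
  rw [h1, add_sub_cancel_left, ← Real.norm_eq_abs]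
  refine tsum_of_norm_bounded (g := fun n : ℤ => C * (1 / (n : ℝ) ^ 2))
    (summable_inv_sq.hasSum.mul_left C) ?_
  intro n
  by_cases hn : n = 0
  · subst hn
    simp
  · rw [if_neg hn, Real.norm_eq_abs]
    exact hb n hn

theorem tail_bounds {c δ t ρ : ℝ} (hc : 0 < c) (hδ : 0 < δ) (hδ1 : δ ≤ 1) (ht : |t| ≤ ρ)
    (hρ : 2 * δ * ρ ≤ 1) :
    |Th c (1 / δ) t - Real.exp (-(c * t ^ 2))| ≤ (4 / c + 32 / c) * δ ^ 2 * Z ∧
    |Th' c (1 / δ) t + 2 * c * t * Real.exp (-(c * t ^ 2))| ≤ (4 / c + 32 / c) * δ ^ 2 * Z := by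
  have hs : 0 < 1 / δ := by positivity
  obtain ⟨K, hK, hb⟩ := exp_bound hc
  constructor
  · have := tsum_tail (summable_Th hc hs t) (C := (4 / c + 32 / c) * δ ^ 2) (fun n hn => by
      rw [abs_of_pos (Real.exp_pos _)]
      exact (tail_term hc hδ hδ1 ht hρ hn).1)
    simpa [Th] using this
  · have hsum : Summable fun n : ℤ => (-(2 * c * (1 / δ * n + t)) *
        Real.exp (-(c * (1 / δ * n + t) ^ 2))) := by
      refine Summable.of_norm_bounded (summable_u hs K |t|) fun n => ?_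
      rw [Real.norm_eq_abs]
      refine (hb _).2.trans ?_
      exact mul_le_mul_of_nonneg_left (comp_bound le_rfl n) hK.le
    have := tsum_tail hsum (C := (4 / c + 32 / c) * δ ^ 2) (fun n hn =>
      (tail_term hc hδ hδ1 ht hρ hn).2)
    simp only [Int.cast_zero, mul_zero, zero_add] at this
    have e : Th' c (1 / δ) t + 2 * c * t * Real.exp (-(c * t ^ 2)) =
      ∑' n : ℤ, (-(2 * c * (1 / δ * n + t)) * Real.exp (-(c * (1 / δ * n + t) ^ 2))) -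
        -(2 * c * t) * Real.exp (-(c * t ^ 2)) := by
      unfold Th'
      ring
    rw [e]
    exact this

end Q176.ThetaLat
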