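import Mathlib
import Pool.Agent.Q176.ThetaLat

/-!
# The Gaussian Fisher-information functional on unimodular lattices is unbounded
-/

namespace Q176.ThetaLat

open Real Filter Topology MeasureTheory Set

/-- Euclidean space `ℝ^m` -/
abbrev E (m : ℕ) := EuclideanSpace ℝ (Fin m)

/-- `L ∈ 𝓛_m(1)`: `L = ⊕ ℤ u_i` with `|det (u_1, …, u_m)| = 1`. -/
def IsLattice1 {m : ℕ} (L : Submodule ℤ (E m)) : Prop :=
  ∃ u : Fin m → E m, |Matrix.det (Matrix.of fun i j => u i j)| = 1 ∧
    L = Submodule.span ℤ (Set.range u)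

/-- translated lattice theta function `θ_{L+y}(α)` -/
noncomputable def theta {m : ℕ} (α : ℝ) (L : Submodule ℤ (E m)) (y : E m) : ℝ :=
  ∑' p : L, Real.exp (-(π * α * ‖(p : E m) + y‖ ^ 2))

/-- `𝒬_L^α(y) = |∇_y √θ_{L+y}(α)|²` -/
noncomputable def Qf {m : ℕ} (α : ℝ) (L : Submodule ℤ (E m)) (y : E m) : ℝ :=
  ‖gradient (fun z => √(theta α L z)) y‖ ^ 2

/-- `𝓕_{σ_R}^α(L)`, the mean of `𝒬_L^α` over the ball `B_R` (closed ball, uniform probability). -/
noncomputable def Fisher {m : ℕ} (α R : ℝ) (L : Submodule ℤ (E m)) : ℝ :=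
  ⨍ y in Metric.closedBall (0 : E m) R, Qf α L y

theorem prod_tsum : ∀ {m : ℕ} (f : Fin m → ℤ → ℝ), (∀ i, Summable (f i)) → (∀ i n, 0 ≤ f i n) →
    Summable (fun k : Fin m → ℤ => ∏ i, f i (k i)) ∧
      ∑' k : Fin m → ℤ, ∏ i, f i (k i) = ∏ i, ∑' n, f i n := by
  intro m
  induction m with
  | zero =>
    intro f _ _
    constructor
    · exact (hasSum_fintype _).summable
    · simp
  | succ m ih =>
    intro f hf hpos
    obtain ⟨h1, h2⟩ := ih (fun i => f i.succ) (fun i => hf _) (fun i n => hpos _ _)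
    have hn0 : Summable fun x => ‖f 0 x‖ := by
      simpa [abs_of_nonneg (hpos 0 _)] using hf 0
    have hn1 : Summable fun k : Fin m → ℤ => ‖∏ i, f i.succ (k i)‖ := by
      refine h1.congr fun k => ?_
      rw [Real.norm_eq_abs, abs_of_nonneg]
      exact Finset.prod_nonneg fun i _ => hpos _ _
    have e : ∀ z : ℤ × (Fin m → ℤ), ∏ i, f i ((Fin.consEquiv (fun _ => ℤ)) z i) =
        f 0 z.1 * ∏ i, f i.succ (z.2 i) := by
      intro z
      rw [Fin.prod_univ_succ]
      rfl
    constructor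
    · rw [← (Fin.consEquiv (fun _ : Fin (m + 1) => ℤ)).summable_iff]
      have := summable_mul_of_summable_norm hn0 hn1
      refine this.congr fun z => ?_
      exact (e z).symm
    · rw [← (Fin.consEquiv (fun _ : Fin (m + 1) => ℤ)).tsum_eq, Fin.prod_univ_succ, ← h2,
        tsum_mul_tsum_of_summable_norm hn0 hn1]
      exact tsum_congr e

/-- diagonal lattice -/
noncomputable def diag {m : ℕ} (s : Fin m → ℝ) : Submodule ℤ (E m) :=
  Submodule.span ℤ (Set.range fun i => (s i • EuclideanSpace.single i (1 : ℝ) : E m))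

theorem sum_apply {m : ℕ} (s : Fin m → ℝ) (k : Fin m → ℤ) (j : Fin m) :
    (∑ i, k i • (s i • EuclideanSpace.single i (1 : ℝ) : E m)) j = s j * k j := by
  have h : (∑ i, k i • (s i • EuclideanSpace.single i (1 : ℝ) : E m)) j =
      ∑ i, (k i • (s i • EuclideanSpace.single i (1 : ℝ) : E m)) j := by
    rw [WithLp.ofLp_sum, Finset.sum_apply]
  rw [h, Finset.sum_eq_single j]
  · simp [mul_comm]
  · intro b _ hb
    simp [Ne.symm hb]
  · simp

/-- parametrisation of a diagonal lattice -/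
noncomputable def diagEquiv {m : ℕ} (s : Fin m → ℝ) (hs : ∀ i, 0 < s i) :
    (Fin m → ℤ) ≃ diag s :=
  Equiv.ofBijective (fun k => ⟨∑ i, k i • (s i • EuclideanSpace.single i (1 : ℝ) : E m),
    (Submodule.mem_span_range_iff_exists_fun ℤ).2 ⟨k, rfl⟩⟩) (by
    constructor
    · intro a b hab
      funext j
      have h1 := congrArg (fun p : diag s => (p : E m) j) hab
      simp only [sum_apply] at h1
      have h2 := mul_left_cancel₀ (hs j).ne' h1
      exact_mod_cast h2
    · rintro ⟨p, hp⟩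
      obtain ⟨k, hk⟩ := (Submodule.mem_span_range_iff_exists_fun ℤ).1 hp
      exact ⟨k, Subtype.ext hk⟩)

theorem diagEquiv_apply {m : ℕ} (s : Fin m → ℝ) (hs : ∀ i, 0 < s i) (k : Fin m → ℤ) (j : Fin m) :
    ((diagEquiv s hs k : diag s) : E m) j = s j * k j := sum_apply s k j

theorem theta_diag {m : ℕ} {α : ℝ} (hα : 0 < α) (s : Fin m → ℝ) (hs : ∀ i, 0 < s i) (y : E m) :
    theta α (diag s) y = ∏ i, Th (π * α) (s i) (y i) := by
  have hc : 0 < π * α := by positivity
  unfold theta
  rw [← (diagEquiv s hs).tsum_eq]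
  have h1 : ∀ k : Fin m → ℤ, Real.exp (-(π * α * ‖((diagEquiv s hs k : diag s) : E m) + y‖ ^ 2)) =
      ∏ i, Real.exp (-(π * α * (s i * (k i : ℤ) + y i) ^ 2)) := by
    intro k
    rw [← Real.exp_sum, EuclideanSpace.norm_sq_eq]
    congr 1
    rw [Finset.mul_sum, ← Finset.sum_neg_distrib]
    refine Finset.sum_congr rfl fun i _ => ?_
    rw [PiLp.add_apply, diagEquiv_apply, Real.norm_eq_abs, sq_abs]
  rw [tsum_congr h1]
  exact (prod_tsum (fun i n => Real.exp (-(π * α * (s i * (n : ℤ) + y i) ^ 2)))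
    (fun i => summable_Th hc (hs i) (y i)) (fun i n => (Real.exp_pos _).le)).2

theorem contDiff_theta {m : ℕ} {α : ℝ} (hα : 0 < α) (s : Fin m → ℝ) (hs : ∀ i, 0 < s i) :
    ContDiff ℝ 1 (theta α (diag s)) := by
  have hc : 0 < π * α := by positivity
  have : theta α (diag s) = fun y => ∏ i, Th (π * α) (s i) (y i) :=
    funext fun y => theta_diag hα s hs y
  rw [this]
  apply contDiff_prod
  intro i _
  apply (contDiff_Th hc (hs i)).comp
  fun_prop

theorem theta_pos {m : ℕ} {α : ℝ} (hα : 0 < α) (s : Fin m → ℝ) (hs : ∀ i, 0 < s i) (y : E m) :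
    0 < theta α (diag s) y := by
  rw [theta_diag hα s hs]
  exact Finset.prod_pos fun i _ => Th_pos (by positivity) (hs i) _

theorem contDiff_sqrt_theta {m : ℕ} {α : ℝ} (hα : 0 < α) (s : Fin m → ℝ) (hs : ∀ i, 0 < s i) :
    ContDiff ℝ 1 (fun y => √(theta α (diag s) y)) :=
  (contDiff_theta hα s hs).sqrt fun y => (theta_pos hα s hs y).ne'

theorem Qf_eq {m : ℕ} (α : ℝ) (L : Submodule ℤ (E m)) (y : E m) :
    Qf α L y = ‖fderiv ℝ (fun z => √(theta α L z)) y‖ ^ 2 := by
  unfold Qf gradient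
  rw [LinearIsometryEquiv.norm_map]

theorem continuous_Qf {m : ℕ} {α : ℝ} (hα : 0 < α) (s : Fin m → ℝ) (hs : ∀ i, 0 < s i) :
    Continuous (Qf α (diag s)) := by
  have : Qf α (diag s) = fun y => ‖fderiv ℝ (fun z => √(theta α (diag s) z)) y‖ ^ 2 :=
    funext fun y => Qf_eq α _ y
  rw [this]
  exact ((contDiff_sqrt_theta hα s hs).continuous_fderiv one_ne_zero).norm.pow 2

/-- lower bound for `𝒬` by the derivative in the direction of the `j`-th coordinate. -/
theorem Qf_ge {m : ℕ} {α : ℝ} (hα : 0 < α) (s : Fin m → ℝ) (hs : ∀ i, 0 < s i) (y : E m)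
    (j : Fin m) : (∏ i ∈ Finset.univ.erase j, Th (π * α) (s i) (y i)) *
      ((Th' (π * α) (s j) (y j)) ^ 2 / (4 * Th (π * α) (s j) (y j))) ≤ Qf α (diag s) y := by
  have hc : 0 < π * α := by positivity
  set C := ∏ i ∈ Finset.univ.erase j, Th (π * α) (s i) (y i) with hC
  have hCpos : 0 < C := Finset.prod_pos fun i _ => Th_pos hc (hs i) _
  have hBpos : 0 < Th (π * α) (s j) (y j) := Th_pos hc (hs j) _
  set e : E m := EuclideanSpace.single j (1 : ℝ) with he
  have hde : DifferentiableAt ℝ (theta α (diag s)) y :=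
    (contDiff_theta hα s hs).differentiable one_ne_zero y
  -- derivative of theta along e
  have h1 : fderiv ℝ (theta α (diag s)) y e = C * Th' (π * α) (s j) (y j) := by
    have hcurve : HasDerivAt (fun t : ℝ => y + t • e) e 0 := by
      have := ((hasDerivAt_id (0 : ℝ)).smul_const e).const_add y
      simpa using this
    have hy0 : y + (0 : ℝ) • e = y := by simp
    have h2 : HasDerivAt (fun t : ℝ => theta α (diag s) (y + t • e))
        (fderiv ℝ (theta α (diag s)) y e) 0 := by
      have hf : HasFDerivAt (theta α (diag s)) (fderiv ℝ (theta α (diag s)) y)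
          (y + (0 : ℝ) • e) := by
        rw [hy0]
        exact hde.hasFDerivAt
      exact hf.comp_hasDerivAt 0 hcurve
    have h3 : ∀ t : ℝ, theta α (diag s) (y + t • e) = C * Th (π * α) (s j) (y j + t) := by
      intro t
      rw [theta_diag hα s hs, ← Finset.mul_prod_erase _ _ (Finset.mem_univ j), mul_comm]
      congr 1
      · refine Finset.prod_congr rfl fun i hi => ?_
        have hij : i ≠ j := Finset.ne_of_mem_erase hi
        have : (y + t • e) i = y i := by
          simp [he, hij]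
        rw [this]
      · have : (y + t • e) j = y j + t := by
          simp [he]
        rw [this]
    have h4 : HasDerivAt (fun t : ℝ => theta α (diag s) (y + t • e))
        (C * Th' (π * α) (s j) (y j)) 0 := by
      have h5 : HasDerivAt (fun t : ℝ => y j + t) 1 0 := by
        simpa using (hasDerivAt_id (0 : ℝ)).const_add (y j)
      have h6 : HasDerivAt (Th (π * α) (s j)) (Th' (π * α) (s j) (y j)) (y j + 0) := by
        rw [add_zero]
        exact hasDerivAt_Th hc (hs j) _
      have h7 := (h6.comp (0 : ℝ) h5).const_mul C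
      rw [mul_one] at h7
      refine h7.congr_of_eventuallyEq (Eventually.of_forall fun t => ?_)
      exact h3 t
    exact h2.unique h4
  -- relation with the square root
  have hth : theta α (diag s) y = C * Th (π * α) (s j) (y j) := by
    rw [theta_diag hα s hs, ← Finset.mul_prod_erase _ _ (Finset.mem_univ j), mul_comm]
  have hthpos := theta_pos hα s hs y
  have h8 : fderiv ℝ (fun z => √(theta α (diag s) z)) y =
      (1 / (2 * √(theta α (diag s) y))) • fderiv ℝ (theta α (diag s)) y :=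
    (hde.hasFDerivAt.sqrt hthpos.ne').fderiv
  have h9 : |fderiv ℝ (fun z => √(theta α (diag s) z)) y e| ≤
      ‖fderiv ℝ (fun z => √(theta α (diag s) z)) y‖ := by
    have := (fderiv ℝ (fun z => √(theta α (diag s) z)) y).le_opNorm e
    have he1 : ‖e‖ = 1 := by simp [he]
    rwa [he1, mul_one, Real.norm_eq_abs] at this
  rw [Qf_eq]
  have h10 : (fderiv ℝ (fun z => √(theta α (diag s) z)) y e) ^ 2 ≤
      ‖fderiv ℝ (fun z => √(theta α (diag s) z)) y‖ ^ 2 := by
    rw [← sq_abs]
    gcongr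
  refine le_trans (le_of_eq ?_) h10
  rw [h8, ContinuousLinearMap.smul_apply, h1, smul_eq_mul, mul_pow, div_pow, mul_pow (2 : ℝ),
    Real.sq_sqrt hthpos.le, hth]
  field_simp
  ring

/-- the spacings of the degenerating lattices -/
noncomputable def sp (m : ℕ) (δ : ℝ) : Fin (m + 2) → ℝ :=
  fun i => if i = 0 then δ else if i = 1 then 1 / δ else 1

theorem sp_pos (m : ℕ) {δ : ℝ} (hδ : 0 < δ) (i : Fin (m + 2)) : 0 < sp m δ i := by
  unfold sp
  split_ifs
  · exact hδ
  · positivity
  · exact one_pos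

theorem isLattice1_sp (m : ℕ) {δ : ℝ} (hδ : 0 < δ) : IsLattice1 (diag (sp m δ)) := by
  refine ⟨fun i => (sp m δ i • EuclideanSpace.single i (1 : ℝ) : E (m + 2)), ?_, rfl⟩
  have h1 : (Matrix.of fun i j => (sp m δ i • EuclideanSpace.single i (1 : ℝ) : E (m + 2)) j) =
      Matrix.diagonal (sp m δ) := by
    ext i j
    by_cases h : i = j
    · subst h
      simp
    · simp [Matrix.diagonal_apply_ne _ h, Ne.symm h]
  rw [h1, Matrix.det_diagonal, Fin.prod_univ_succ, Fin.prod_univ_succ]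
  have h2 : ∀ i : Fin m, sp m δ i.succ.succ = 1 := by
    intro i
    unfold sp
    rw [if_neg (Fin.succ_ne_zero _), if_neg]
    intro h
    have : (i.succ.succ : Fin (m + 2)).val = (1 : Fin (m + 2)).val := congrArg Fin.val h
    simp at this
  have h3 : sp m δ 0 = δ := by simp [sp]
  have h4 : sp m δ (Fin.succ 0) = 1 / δ := by simp [sp]
  rw [h3, h4, Finset.prod_congr rfl fun i _ => h2 i]
  simp [hδ.ne']

theorem abs_coord_le {m : ℕ} (y : E m) (i : Fin m) : |y i| ≤ ‖y‖ := by
  rw [← Real.norm_eq_abs]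
  exact PiLp.norm_apply_le y i

set_option maxHeartbeats 4000000 in
/-- **Unboundedness** of the functional on unimodular lattices in dimension at least two. -/
theorem exists_large (m : ℕ) {α R : ℝ} (hα : 0 < α) (hR : 0 < R) (M : ℝ) :
    ∃ L : Submodule ℤ (E (m + 2)), IsLattice1 L ∧ M < Fisher α R L := by
  set c := π * α with hcdef
  have hc : 0 < c := by positivity
  -- constants
  set κ : ℝ := c * (R / 4) * Real.exp (-(c * R ^ 2)) with hκ
  have hκpos : 0 < κ := by positivity
  set κ₁ : ℝ := ∏ _i ∈ (Finset.univ.erase (1 : Fin (m + 2))).erase 0, Real.exp (-(c * R ^ 2)) with hκ₁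
  have hκ₁pos : 0 < κ₁ := Finset.prod_pos fun i _ => Real.exp_pos _
  set κ₂ : ℝ := Real.exp (-(c * (1 + R) ^ 2)) * κ₁ * (κ ^ 2 / 8) with hκ₂
  have hκ₂pos : 0 < κ₂ := by positivity
  set y0 : E (m + 2) := EuclideanSpace.single 1 (R / 2) with hy0
  set S := Metric.ball y0 (R / 4) with hS
  set B := Metric.closedBall (0 : E (m + 2)) R with hB
  have hSB : S ⊆ B := by
    intro y hy
    rw [hB, mem_closedBall_zero_iff]
    have h1 : ‖y - y0‖ < R / 4 := by rwa [← dist_eq_norm]
    have h2 : ‖y0‖ = R / 2 := by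
      rw [hy0, EuclideanSpace.norm_single, Real.norm_eq_abs, abs_of_pos (by positivity)]
    calc ‖y‖ = ‖(y - y0) + y0‖ := by simp
      _ ≤ ‖y - y0‖ + ‖y0‖ := norm_add_le _ _
      _ ≤ R := by rw [h2]; linarith
  have hSpos : 0 < volume.real S := by
    rw [Measure.real, ENNReal.toReal_pos_iff]
    exact ⟨Metric.isOpen_ball.measure_pos _ ⟨y0, Metric.mem_ball_self (by positivity)⟩,
      measure_ball_lt_top⟩
  have hBfin : volume B ≠ ⊤ := by
    rw [hB]
    exact measure_closedBall_lt_top.ne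
  have hBpos : 0 < volume.real B := by
    refine lt_of_lt_of_le hSpos ?_
    exact measureReal_mono hSB hBfin
  -- number of terms
  obtain ⟨N, hN⟩ := exists_nat_gt (M * volume.real B / (volume.real S * κ₂))
  have hZ := Z_nonneg
  set A := (4 / c + 32 / c) * Z with hA
  have hA0 : 0 ≤ A := by positivity
  set η := min 1 κ with hη
  have hηpos : 0 < η := lt_min one_pos hκpos
  set δ : ℝ := min (min 1 (1 / (N + 1))) (min (1 / (2 * R)) (η / (A + 1))) with hδdef
  have hδ : 0 < δ := by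
    rw [hδdef]
    refine lt_min (lt_min one_pos (by positivity)) (lt_min (by positivity) (by positivity))
  have hδ1 : δ ≤ 1 := (min_le_left _ _).trans (min_le_left _ _)
  have hδN : δ * N ≤ 1 := by
    have h1 : δ ≤ 1 / (N + 1) := (min_le_left _ _).trans (min_le_right _ _)
    calc δ * N ≤ 1 / (N + 1) * N := by gcongr
      _ ≤ 1 := by
        rw [div_mul_eq_mul_div, div_le_one (by positivity)]
        linarith
  have hδR : 2 * δ * R ≤ 1 := by
    have h1 : δ ≤ 1 / (2 * R) := (min_le_right _ _).trans (min_le_left _ _)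
    calc 2 * δ * R ≤ 2 * (1 / (2 * R)) * R := by gcongr
      _ = 1 := by field_simp
  have hδη : (4 / c + 32 / c) * δ ^ 2 * Z ≤ η := by
    have h1 : δ ≤ η / (A + 1) := (min_le_right _ _).trans (min_le_right _ _)
    have h2 : δ ^ 2 ≤ δ := by nlinarith
    calc (4 / c + 32 / c) * δ ^ 2 * Z = A * δ ^ 2 := by rw [hA]; ring
      _ ≤ A * δ := by gcongr
      _ ≤ A * (η / (A + 1)) := by gcongr
      _ = η * (A / (A + 1)) := by ring
      _ ≤ η * 1 := by
        gcongr
        rw [div_le_one (by positivity)]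
        linarith
      _ = η := mul_one _
  refine ⟨diag (sp m δ), isLattice1_sp m hδ, ?_⟩
  -- pointwise bound on S
  have hpt : ∀ y ∈ S, (N : ℝ) * κ₂ ≤ Qf α (diag (sp m δ)) y := by
    intro y hy
    have hyB : ‖y‖ ≤ R := by
      have := hSB hy
      rwa [hB, mem_closedBall_zero_iff] at this
    have hyi : ∀ i, |y i| ≤ R := fun i => (abs_coord_le y i).trans hyB
    have hy1 : |y 1 - R / 2| < R / 4 := by
      have h1 : |(y - y0) 1| ≤ ‖y - y0‖ := abs_coord_le _ _
      have h2 : ‖y - y0‖ < R / 4 := by rwa [← dist_eq_norm]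
      have h3 : (y - y0) 1 = y 1 - R / 2 := by simp [hy0]
      rw [h3] at h1
      linarith
    have hy1l : R / 4 < y 1 := by
      have := (abs_lt.1 hy1).1
      linarith
    have hy1pos : 0 < y 1 := lt_trans (by positivity) hy1l
    have hsp1 : sp m δ 1 = 1 / δ := by simp [sp]
    have hsp0 : sp m δ 0 = δ := by simp [sp]
    have htail := tail_bounds hc hδ hδ1 (hyi 1) hδR
    have hexp1 : Real.exp (-(c * (y 1) ^ 2)) ≤ 1 := by
      rw [Real.exp_le_one_iff]
      nlinarith [sq_nonneg (y 1)]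
    have hexp2 : Real.exp (-(c * R ^ 2)) ≤ Real.exp (-(c * (y 1) ^ 2)) := by
      rw [Real.exp_le_exp]
      have h1 : (y 1) ^ 2 ≤ R ^ 2 := by
        rw [← sq_abs (y 1)]
        have := abs_nonneg (y 1)
        have := hyi 1
        gcongr
      nlinarith
    have hB1 : Th c (1 / δ) (y 1) ≤ 2 := by
      have h1 := (abs_le.1 htail.1).2
      have h2 : η ≤ 1 := min_le_left _ _
      linarith
    have hB1pos : 0 < Th c (1 / δ) (y 1) := Th_pos hc (by positivity) _
    have hB2 : κ ≤ -Th' c (1 / δ) (y 1) := by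
      have h1 := (abs_le.1 htail.2).2
      have h2 : η ≤ κ := min_le_right _ _
      have h3 : 2 * κ ≤ 2 * c * y 1 * Real.exp (-(c * (y 1) ^ 2)) := by
        have : 2 * κ = 2 * c * (R / 4) * Real.exp (-(c * R ^ 2)) := by rw [hκ]; ring
        rw [this]
        gcongr
      linarith
    have hB3 : κ ^ 2 / 8 ≤ (Th' c (1 / δ) (y 1)) ^ 2 / (4 * Th c (1 / δ) (y 1)) := by
      rw [div_le_div_iff₀ (by norm_num) (by positivity)]
      have h1 : κ ^ 2 ≤ (Th' c (1 / δ) (y 1)) ^ 2 := by
        rw [← neg_sq (Th' c (1 / δ) (y 1))]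
        exact pow_le_pow_left₀ hκpos.le hB2 2
      have h2 : 4 * Th c (1 / δ) (y 1) ≤ 8 := by linarith
      calc κ ^ 2 * (4 * Th c (1 / δ) (y 1)) ≤ κ ^ 2 * 8 := by gcongr
        _ ≤ (Th' c (1 / δ) (y 1)) ^ 2 * 8 := by gcongr
    have hge := Qf_ge hα (sp m δ) (sp_pos m hδ) y 1
    rw [← hcdef, hsp1] at hge
    refine le_trans ?_ hge
    have h01 : (0 : Fin (m + 2)) ∈ Finset.univ.erase (1 : Fin (m + 2)) := by
      rw [Finset.mem_erase]
      exact ⟨by simp, Finset.mem_univ _⟩
    rw [← Finset.mul_prod_erase _ _ h01, hsp0]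
    have hC0 : (N : ℝ) * Real.exp (-(c * (1 + R) ^ 2)) ≤ Th c δ (y 0) :=
      Th_ge_small hc hδ (hyi 0) N hδN
    have hC1 : κ₁ ≤ ∏ i ∈ (Finset.univ.erase (1 : Fin (m + 2))).erase 0, Th c (sp m δ i) (y i) := by
      rw [hκ₁]
      refine Finset.prod_le_prod (fun i _ => (Real.exp_pos _).le) fun i _ => ?_
      refine le_trans ?_ (Th_ge hc (sp_pos m hδ i) (y i))
      rw [Real.exp_le_exp]
      have h1 : (y i) ^ 2 ≤ R ^ 2 := by
        rw [← sq_abs (y i)]
        have := abs_nonneg (y i)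
        have := hyi i
        gcongr
      nlinarith
    calc (N : ℝ) * κ₂ = ((N : ℝ) * Real.exp (-(c * (1 + R) ^ 2))) * κ₁ * (κ ^ 2 / 8) := by
          rw [hκ₂]; ring
      _ ≤ Th c δ (y 0) * (∏ i ∈ (Finset.univ.erase (1 : Fin (m + 2))).erase 0,
          Th c (sp m δ i) (y i)) *
          ((Th' c (1 / δ) (y 1)) ^ 2 / (4 * Th c (1 / δ) (y 1))) := by
          have h5 := Th_pos hc hδ (y 0)
          have h6 : 0 ≤ Th c δ (y 0) * (∏ i ∈ (Finset.univ.erase (1 : Fin (m + 2))).erase 0,
              Th c (sp m δ i) (y i)) :=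
            mul_nonneg h5.le (hκ₁pos.le.trans hC1)
          exact mul_le_mul (mul_le_mul hC0 hC1 hκ₁pos.le h5.le) hB3 (by positivity) h6
  -- integrate
  have hcont := continuous_Qf hα (sp m δ) (sp_pos m hδ)
  have hint : IntegrableOn (Qf α (diag (sp m δ))) B volume :=
    hcont.continuousOn.integrableOn_compact (isCompact_closedBall _ _)
  have h1 : (N : ℝ) * κ₂ * volume.real S ≤ ∫ y in S, Qf α (diag (sp m δ)) y := by
    have h2 : ∫ _y in S, (N : ℝ) * κ₂ = (N : ℝ) * κ₂ * volume.real S := by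
      rw [setIntegral_const, smul_eq_mul, mul_comm]
    rw [← h2]
    apply setIntegral_mono_on
    · exact integrableOn_const (by
        rw [hS]
        exact measure_ball_lt_top.ne)
    · exact hint.mono_set hSB
    · exact Metric.isOpen_ball.measurableSet
    · exact hpt
  have h2 : ∫ y in S, Qf α (diag (sp m δ)) y ≤ ∫ y in B, Qf α (diag (sp m δ)) y := by
    apply setIntegral_mono_set hint
    · exact Eventually.of_forall fun y => by
        show (0 : ℝ) ≤ Qf α (diag (sp m δ)) y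
        unfold Qf
        positivity
    · exact LE.le.eventuallyLE hSB
  unfold Fisher
  rw [setAverage_eq, smul_eq_mul, inv_mul_eq_div, lt_div_iff₀ hBpos]
  refine lt_of_lt_of_le ?_ (h1.trans h2)
  rw [div_lt_iff₀ (by positivity)] at hN
  nlinarith

/-- `L₀` is the unique maximiser (up to orthogonal maps) of `𝓕_{σ_R}^α` on `𝓛_m(1)`. -/
def IsUniqueMaximiser {m : ℕ} (α R : ℝ) (L₀ : Submodule ℤ (E m)) : Prop :=
  IsLattice1 L₀ ∧ (∀ L : Submodule ℤ (E m), IsLattice1 L → Fisher α R L ≤ Fisher α R L₀) ∧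
    ∀ L : Submodule ℤ (E m), IsLattice1 L → Fisher α R L = Fisher α R L₀ →
      ∃ g : E m ≃ₗᵢ[ℝ] E m, (L : Set (E m)) = g '' (L₀ : Set (E m))

theorem not_isUniqueMaximiser (m : ℕ) {α R : ℝ} (hα : 0 < α) (hR : 0 < R)
    (L₀ : Submodule ℤ (E (m + 2))) : ¬ IsUniqueMaximiser α R L₀ := by
  rintro ⟨-, h, -⟩
  obtain ⟨L, hL, hlt⟩ := exists_large m hα hR (Fisher α R L₀)
  exact absurd (h L hL) (not_le.2 hlt)

end Q176.ThetaLat
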