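import Mathlib

/-!
# Compact Hausdorff spaces are weakly discretely generated; `β κ` has no convergent sequences
-/

namespace Q176.WeakDiscGen

open Set Topology Filter Cardinal

universe u

/-- recursion along a well-order -/
theorem exists_rec {ι : Type u} [LinearOrder ι] [WellFoundedLT ι] {Q : Type u}
    (P : (a : ι) → ((b : ι) → b < a → Q) → Q → Prop) (h : ∀ a g, ∃ y, P a g y) :
    ∃ x : ι → Q, ∀ a, P a (fun b _ => x b) (x a) := by
  choose F hF using h
  let x : ι → Q := WellFounded.fix (wellFounded_lt (α := ι)) F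
  refine ⟨x, fun a => ?_⟩
  have h1 : x a = F a (fun b _ => x b) := WellFounded.fix_eq _ _ _
  rw [h1]
  exact hF a _

/-- `D` is a discrete subset. -/
def IsDisc {Q : Type u} [TopologicalSpace Q] (D : Set Q) : Prop :=
  ∀ d ∈ D, ∃ O : Set Q, IsOpen O ∧ O ∩ D = {d}

/-- In a compact Hausdorff space, every non-isolated point `q` is in the closure of a discrete
set not containing `q`. -/
theorem exists_disc {Q : Type u} [TopologicalSpace Q] [CompactSpace Q] [T2Space Q] (q : Q)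
    (hq : ¬ IsOpen ({q} : Set Q)) : ∃ D : Set Q, q ∉ D ∧ IsDisc D ∧ q ∈ closure D := by
  by_contra hcon
  push Not at hcon
  -- small open sets
  let small : Set Q → Prop := fun U => IsOpen U ∧ q ∉ closure U
  let CS : Set Cardinal.{u} := {c | ∃ 𝒰 : Set (Set Q), (∀ U ∈ 𝒰, small U) ∧ ⋃₀ 𝒰 = {q}ᶜ ∧ #𝒰 = c}
  have hCS : CS.Nonempty := by
    refine ⟨_, {U | small U}, fun U hU => hU, ?_, rfl⟩
    apply Subset.antisymm
    · rintro x ⟨U, hU, hx⟩ hxq
      rw [mem_singleton_iff] at hxq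
      subst hxq
      exact hU.2 (subset_closure hx)
    · intro x hx
      obtain ⟨U, V, hU, hV, hxU, hqV, hUV⟩ := t2_separation (show x ≠ q from hx)
      refine ⟨U, ⟨hU, fun h => ?_⟩, hxU⟩
      obtain ⟨y, hyV, hyU⟩ := mem_closure_iff.1 h V hV hqV
      exact (Set.disjoint_left.1 hUV) hyU hyV
  obtain ⟨𝒰, h𝒰s, h𝒰c, h𝒰κ⟩ := csInf_mem hCS
  set κ := sInf CS with hκ
  have hmin : ∀ 𝒱 : Set (Set Q), (∀ U ∈ 𝒱, small U) → #𝒱 < κ → ∃ y, y ≠ q ∧ y ∉ ⋃₀ 𝒱 := by
    intro 𝒱 h𝒱 hlt
    by_contra hc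
    push Not at hc
    have h1 : ⋃₀ 𝒱 = {q}ᶜ := by
      apply Subset.antisymm
      · rintro x ⟨U, hU, hx⟩ hxq
        rw [mem_singleton_iff] at hxq
        subst hxq
        exact (h𝒱 U hU).2 (subset_closure hx)
      · intro x hx
        exact hc x hx
    have h2 : #𝒱 ∈ CS := ⟨𝒱, h𝒱, h1, rfl⟩
    exact absurd (csInf_le' h2) (not_le.2 hlt)
  -- finite families do not cover
  have hfin : ∀ 𝒱 : Set (Set Q), 𝒱.Finite → (∀ U ∈ 𝒱, small U) → ⋃₀ 𝒱 ≠ {q}ᶜ := by
    intro 𝒱 h𝒱 hs hc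
    have h1 : q ∉ closure (⋃₀ 𝒱) := by
      rw [sUnion_eq_biUnion, h𝒱.closure_biUnion]
      intro h
      obtain ⟨U, hU, hqU⟩ := mem_iUnion₂.1 h
      exact (hs U hU).2 hqU
    rw [hc] at h1
    apply hq
    have h2 : closure ({q}ᶜ : Set Q) = {q}ᶜ := by
      apply Subset.antisymm
      · intro x hx hxq
        rw [mem_singleton_iff] at hxq
        subst hxq
        exact h1 hx
      · exact subset_closure
    rw [← compl_compl ({q} : Set Q)]
    exact (closure_eq_iff_isClosed.1 h2).isOpen_compl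
  have hκinf : ℵ₀ ≤ κ := by
    by_contra hlt
    push Not at hlt
    have h1 : 𝒰.Finite := by
      rw [← h𝒰κ] at hlt
      exact Cardinal.lt_aleph0_iff_set_finite.1 hlt
    exact hfin 𝒰 h1 h𝒰s h𝒰c
  -- enumeration of the cover
  let ι : Type u := κ.ord.ToType
  haveI : NoMaxOrder ι := Cardinal.noMaxOrder hκinf
  have hι : #ι = κ := Cardinal.mk_ord_toType κ
  obtain ⟨e⟩ : Nonempty (ι ≃ 𝒰) := Cardinal.eq.1 (hι.trans h𝒰κ.symm)
  have hIio : ∀ a : ι, #(Iio a) < κ := fun a => by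
    have h := Cardinal.mk_Iio_lt a (by rw [hι]; simp [ι])
    rwa [hι] at h
  -- the choice of small neighbourhoods of closures
  have hW : ∀ S : Set Q, ∃ V : Set Q, small V ∧ (q ∉ closure S → closure S ⊆ V) := by
    intro S
    by_cases hS : q ∈ closure S
    · exact ⟨∅, ⟨isOpen_empty, by simp⟩, fun h => absurd hS h⟩
    · obtain ⟨V, hV, hSV, hVq⟩ := normal_exists_closure_subset (isClosed_closure (s := S))
        (isOpen_compl_singleton (x := q)) (fun x hx hxq => by
          rw [mem_singleton_iff] at hxq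
          subst hxq
          exact hS hx)
      exact ⟨V, ⟨hV, fun h => hVq h rfl⟩, fun _ => hSV⟩
  choose W hWs hWc using hW
  -- recursion
  let P : (a : ι) → ((b : ι) → b < a → Q) → Q → Prop := fun a g y =>
    y ≠ q ∧ y ∉ W {z | ∃ b, ∃ h : b < a, z = g b h} ∧
      (∀ b, b < a → y ∉ W {z | ∃ c, ∃ h : c < a, c ≤ b ∧ z = g c h}) ∧
      ∀ b, b < a → y ∉ (e b : Set Q)
  obtain ⟨x, hx⟩ := exists_rec P (by
    intro a g
    let 𝒱 : Set (Set Q) := {W {z | ∃ b, ∃ h : b < a, z = g b h}} ∪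
      ((fun b : Iio a => W {z | ∃ c, ∃ h : c < a, c ≤ b.1 ∧ z = g c h}) '' univ) ∪
      ((fun b : Iio a => (e b.1 : Set Q)) '' univ)
    have h𝒱s : ∀ U ∈ 𝒱, small U := by
      rintro U ((hU | ⟨b, -, rfl⟩) | ⟨b, -, rfl⟩)
      · rw [mem_singleton_iff] at hU
        rw [hU]
        exact hWs _
      · exact hWs _
      · exact h𝒰s _ (e b.1).2
    have hcard : #𝒱 < κ := by
      have h1 : #𝒱 ≤ 1 + #(Iio a) + #(Iio a) := by
        refine (Cardinal.mk_union_le _ _).trans ?_
        refine add_le_add ((Cardinal.mk_union_le _ _).trans (add_le_add ?_ ?_)) ?_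
        · simp
        · refine Cardinal.mk_image_le.trans ?_
          simp
        · refine Cardinal.mk_image_le.trans ?_
          simp
      refine h1.trans_lt ?_
      refine Cardinal.add_lt_of_lt hκinf (Cardinal.add_lt_of_lt hκinf ?_ (hIio a)) (hIio a)
      exact Cardinal.one_lt_aleph0.trans_le hκinf
    obtain ⟨y, hyq, hy⟩ := hmin 𝒱 h𝒱s hcard
    refine ⟨y, hyq, fun h => hy ?_, fun b hb h => hy ?_, fun b hb h => hy ?_⟩
    · exact ⟨_, Or.inl (Or.inl rfl), h⟩
    · exact ⟨_, Or.inl (Or.inr ⟨⟨b, hb⟩, mem_univ _, rfl⟩), h⟩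
    · exact ⟨_, Or.inr ⟨⟨b, hb⟩, mem_univ _, rfl⟩, h⟩)
  -- reformulation
  have hx1 : ∀ a, x a ≠ q := fun a => (hx a).1
  have hx2 : ∀ a, x a ∉ W (x '' Iio a) := by
    intro a
    have h := (hx a).2.1
    have e1 : {z | ∃ b, ∃ _ : b < a, z = x b} = x '' Iio a := by
      ext z
      constructor
      · rintro ⟨b, hb, rfl⟩
        exact ⟨b, hb, rfl⟩
      · rintro ⟨b, hb, rfl⟩
        exact ⟨b, hb, rfl⟩
    rwa [e1] at h
  have hx3 : ∀ a b, b < a → x a ∉ W (x '' Iic b) := by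
    intro a b hb
    have h := (hx a).2.2.1 b hb
    have e1 : {z | ∃ c, ∃ _ : c < a, c ≤ b ∧ z = x c} = x '' Iic b := by
      ext z
      constructor
      · rintro ⟨c, hc, hcb, rfl⟩
        exact ⟨c, hcb, rfl⟩
      · rintro ⟨c, hcb, rfl⟩
        exact ⟨c, lt_of_le_of_lt hcb hb, hcb, rfl⟩
    rwa [e1] at h
  have hx4 : ∀ a b, b < a → x a ∉ (e b : Set Q) := fun a b hb => (hx a).2.2.2 b hb
  -- isolating neighbourhoods
  have hiso : ∀ c, q ∉ closure (x '' Iio c) → q ∉ closure (x '' Iic c) →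
      ∀ A : Set ι, c ∈ A → (W (x '' Iic c) \ closure (x '' Iio c)) ∩ x '' A = {x c} := by
    intro c h1 h2 A hcA
    apply Subset.antisymm
    · rintro _ ⟨⟨hz1, hz2⟩, ⟨b, hb, rfl⟩⟩
      rcases lt_trichotomy b c with h | h | h
      · exact absurd (subset_closure (mem_image_of_mem x (show b ∈ Iio c from h))) hz2
      · rw [h]
        rfl
      · exact absurd hz1 (hx3 b c h)
    · rw [singleton_subset_iff]
      refine ⟨⟨hWc _ h2 (subset_closure ⟨c, le_refl c, rfl⟩), fun h => ?_⟩, ⟨c, hcA, rfl⟩⟩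
      exact hx2 c (hWc _ h1 h)
  have hopen : ∀ c, IsOpen (W (x '' Iic c) \ closure (x '' Iio c)) := fun c =>
    (hWs _).1.sdiff isClosed_closure
  have hAB : ∀ a, q ∉ closure (x '' Iio a) ∧ q ∉ closure (x '' Iic a) := by
    intro a
    induction a using WellFoundedLT.induction with
    | ind a ih =>
      have hA : q ∉ closure (x '' Iio a) := by
        apply hcon
        · rintro ⟨b, -, hb⟩
          exact hx1 b hb
        · rintro _ ⟨c, hc, rfl⟩
          exact ⟨_, hopen c, hiso c (ih c hc).1 (ih c hc).2 _ hc⟩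
      refine ⟨hA, ?_⟩
      apply hcon
      · rintro ⟨b, -, hb⟩
        exact hx1 b hb
      · rintro _ ⟨c, hc, rfl⟩
        rcases (show c ≤ a from hc).lt_or_eq with hlt | rfl
        · exact ⟨_, hopen c, hiso c (ih c hlt).1 (ih c hlt).2 _ hc⟩
        · refine ⟨(closure (x '' Iio c))ᶜ, isClosed_closure.isOpen_compl, ?_⟩
          apply Subset.antisymm
          · rintro _ ⟨hz1, ⟨b, hb, rfl⟩⟩
            rcases (show b ≤ c from hb).lt_or_eq with h | h
            · exact absurd (subset_closure (mem_image_of_mem x (show b ∈ Iio c from h))) hz1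
            · rw [h]
              rfl
          · rw [singleton_subset_iff]
            exact ⟨fun h => hx2 c (hWc _ hA h), ⟨c, le_refl c, rfl⟩⟩
  have hD : q ∉ closure (range x) := by
    apply hcon
    · rintro ⟨b, hb⟩
      exact hx1 b hb
    · rintro _ ⟨c, rfl⟩
      refine ⟨_, hopen c, ?_⟩
      have := hiso c (hAB c).1 (hAB c).2 univ (mem_univ c)
      rwa [image_univ] at this
  -- finite subcover
  have hcomp : IsCompact (closure (range x)) := isClosed_closure.isCompact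
  have hcov : closure (range x) ⊆ ⋃ b : ι, (e b : Set Q) := by
    intro z hz
    have hzq : z ∈ ⋃₀ 𝒰 := by
      rw [h𝒰c]
      intro h
      rw [mem_singleton_iff] at h
      exact hD (h ▸ hz)
    obtain ⟨U, hU, hzU⟩ := hzq
    refine mem_iUnion.2 ⟨e.symm ⟨U, hU⟩, ?_⟩
    rw [Equiv.apply_symm_apply]
    exact hzU
  obtain ⟨t, ht⟩ := hcomp.elim_finite_subcover (fun b : ι => (e b : Set Q))
    (fun b => (h𝒰s _ (e b).2).1) hcov
  obtain ⟨a, ha⟩ : ∃ a : ι, ∀ b ∈ t, b < a := by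
    haveI : Nonempty ι := by
      rw [← Cardinal.mk_ne_zero_iff, hι]
      exact (Cardinal.aleph0_pos.trans_le hκinf).ne'
    obtain ⟨m, hm⟩ := t.exists_le
    obtain ⟨a, ha⟩ := exists_gt m
    exact ⟨a, fun b hb => (hm b hb).trans_lt ha⟩
  obtain ⟨b, hb, hxb⟩ := mem_iUnion₂.1 (ht (subset_closure ⟨a, rfl⟩))
  exact hx4 a b (ha b hb) hxb

/-- `βκ` has no nontrivial convergent sequences. -/
theorem ultrafilter_noConv {α : Type u} (s : ℕ → Ultrafilter α) (x : Ultrafilter α)
    (hs : Tendsto s atTop (𝓝 x)) : ∀ᶠ n in atTop, s n = x := by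
  by_contra hcon
  have hfr : ∃ᶠ n in atTop, s n ≠ x := by
    rwa [Filter.not_eventually] at hcon
  have hmem : ∀ A : Set α, A ∈ x → ∀ᶠ n in atTop, A ∈ s n := fun A hA =>
    hs.eventually ((ultrafilter_isOpen_basic A).mem_nhds hA)
  -- next step
  have hnext : ∀ (N : ℕ) (B : Set α), B ∉ x → ∃ n > N, ∃ A : Set α, A ∈ s n ∧ A ∉ x ∧
      Disjoint A B := by
    intro N B hB
    have hBc : Bᶜ ∈ x := Ultrafilter.compl_mem_iff_notMem.2 hB
    obtain ⟨n, hn, hnB, hnN⟩ := (hfr.and_eventually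
      ((hmem _ hBc).and (eventually_gt_atTop N))).exists
    obtain ⟨C, hC1, hC2⟩ : ∃ C : Set α, C ∈ s n ∧ C ∉ x := by
      by_contra hc
      push Not at hc
      apply hn
      apply Ultrafilter.coe_injective
      have h1 : (x : Filter α) ≤ s n := fun A hA => hc A hA
      exact (Ultrafilter.coe_le_coe.1 h1 ▸ rfl)
    refine ⟨n, hnN, C ∩ Bᶜ, inter_mem hC1 hnB, fun h => hC2 (mem_of_superset h inter_subset_left),
      ?_⟩
    rw [Set.disjoint_left]
    exact fun y hy => hy.2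
  -- recursively constructed data: index, set, union of previous sets
  let St := {p : ℕ × Set α × Set α // p.2.2 ∉ x}
  have hstep : ∀ p : St, ∃ p' : St, p'.1.1 > p.1.1 ∧ p'.1.2.1 ∈ s p'.1.1 ∧
      Disjoint p'.1.2.1 p.1.2.2 ∧ p'.1.2.2 = p.1.2.2 ∪ p'.1.2.1 := by
    rintro ⟨⟨N, A, B⟩, hB⟩
    obtain ⟨n, hn, A', hA', hA'x, hdisj⟩ := hnext N B hB
    refine ⟨⟨(n, A', B ∪ A'), ?_⟩, hn, hA', hdisj, rfl⟩
    rw [Ultrafilter.union_mem_iff]
    exact fun h => h.elim hB hA'x
  choose nx hnx1 hnx2 hnx3 hnx4 using hstep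
  let p : ℕ → St := fun k => Nat.rec ⟨(0, ∅, ∅), Ultrafilter.empty_notMem⟩ (fun _ q => nx q) k
  have hp : ∀ k, p (k + 1) = nx (p k) := fun k => rfl
  let m : ℕ → ℕ := fun k => (p (k + 1)).1.1
  let A : ℕ → Set α := fun k => (p (k + 1)).1.2.1
  have hm : StrictMono m := by
    apply strictMono_nat_of_lt_succ
    intro k
    show (p (k + 1)).1.1 < (p (k + 2)).1.1
    rw [hp (k + 1)]
    exact hnx1 _
  have hA : ∀ k, A k ∈ s (m k) := by
    intro k
    show (p (k + 1)).1.2.1 ∈ s (p (k + 1)).1.1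
    rw [hp k]
    exact hnx2 _
  have hU : ∀ k l, l < k → A l ⊆ (p k).1.2.2 := by
    intro k
    induction k with
    | zero => intro l hl; omega
    | succ k ih =>
      intro l hl
      rw [hp k, hnx4 (p k)]
      rcases Nat.lt_succ_iff_lt_or_eq.1 hl with h | h
      · exact (ih l h).trans subset_union_left
      · subst h
        show (p (l + 1)).1.2.1 ⊆ _
        rw [hp l]
        exact subset_union_right
  have hdisj : ∀ k l, l < k → Disjoint (A k) (A l) := by
    intro k l hl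
    have h1 : Disjoint (A k) (p k).1.2.2 := by
      show Disjoint (p (k + 1)).1.2.1 _
      rw [hp k]
      exact hnx3 _
    exact h1.mono_right (hU k l hl)
  have hdisj' : ∀ k l, k ≠ l → Disjoint (A k) (A l) := by
    intro k l hkl
    rcases lt_or_gt_of_ne hkl with h | h
    · exact (hdisj l k h).symm
    · exact hdisj k l h
  -- the union of the even ones
  set E : Set α := ⋃ k, A (2 * k) with hE
  by_cases hEx : E ∈ x
  · obtain ⟨N, hN⟩ := eventually_atTop.1 (hmem E hEx)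
    have h1 := hN (m (2 * N + 1)) (by have h9 := hm.le_apply (x := 2 * N + 1); omega)
    have h2 := inter_mem (hA (2 * N + 1)) h1
    have h3 : A (2 * N + 1) ∩ E = ∅ := by
      rw [hE, inter_iUnion, iUnion_eq_empty]
      intro k
      exact (hdisj' (2 * N + 1) (2 * k) (by omega)).inter_eq
    rw [h3] at h2
    exact Ultrafilter.empty_notMem h2
  · have hEc : Eᶜ ∈ x := Ultrafilter.compl_mem_iff_notMem.2 hEx
    obtain ⟨N, hN⟩ := eventually_atTop.1 (hmem _ hEc)
    have h1 := hN (m (2 * N)) (by have h9 := hm.le_apply (x := 2 * N); omega)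
    have h2 := inter_mem (hA (2 * N)) h1
    have h3 : A (2 * N) ∩ Eᶜ = ∅ := by
      rw [← disjoint_iff_inter_eq_empty, disjoint_compl_right_iff_subset]
      exact subset_iUnion (fun k => A (2 * k)) N
    rw [h3] at h2
    exact Ultrafilter.empty_notMem h2

/-- a nonprincipal ultrafilter on an infinite set is not isolated. -/
theorem ultrafilter_notIsolated {α : Type u} (x : Ultrafilter α) (hx : ∀ a, x ≠ pure a) :
    ¬ IsOpen ({x} : Set (Ultrafilter α)) := by
  intro h
  have hd := denseRange_pure (α := α)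
  obtain ⟨_, ha, ⟨a, rfl⟩⟩ := dense_iff_inter_open.1 hd _ h ⟨x, rfl⟩
  exact hx a (mem_singleton_iff.1 ha).symm

end Q176.WeakDiscGen
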